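/-! The engine for trees with parameters; no imports.  The type `V` of the corners and the type
`I` of the facts are abstract. -/

set_option autoImplicit false

namespace Pool.Agent.Helper28.TP

/-- the interval of a parameter, unit `1 / 65536` -/
structure Ivl where
  lo : Nat
  hi : Nat
  deriving DecidableEq

/-- a task: the corners of a cell, the facts which are known, the box of the parameters -/
structure Task (V I : Type) where
  cs : List V
  env : List I
  box : List Ivl

/-- entry of a list -/
def nth {α : Type} : List α → Nat → Option α
  | [], _ => none
  | a :: _, 0 => some a
  | _ :: l, n + 1 => nth l n

/-- change an entry of a list -/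
def setn {α : Type} (x : α) : List α → Nat → List α
  | [], _ => []
  | _ :: l, 0 => x :: l
  | a :: l, n + 1 => a :: setn x l n

section

variable {V I : Type}

/-- equality of lists by a test -/
def eqL {α : Type} (eq : α → α → Bool) : List α → List α → Bool
  | [], [] => true
  | a :: l, b :: m => match eq a b with
    | true => eqL eq l m
    | false => false
  | _, _ => false

/-- equality of tasks -/
def eqT (eq : V → V → Bool) (eqI : I → I → Bool) (t u : Task V I) : Bool :=
  match eqL eq t.cs u.cs, eqL eqI t.env u.env, decide (t.box = u.box) with
  | true, true, true => true
  | _, _, _ => false

/-- split an edge -/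
def splitT (mid : V → V → Option V) (t : Task V I) (i j : Nat) : Option (List (Task V I)) :=
  match Nat.beq i j, nth t.cs i, nth t.cs j with
  | false, some v, some w =>
    match mid v w with
    | some m => some [⟨setn m t.cs i, t.env, t.box⟩, ⟨setn m t.cs j, t.env, t.box⟩]
    | none => none
  | _, _, _ => none

/-- split the interval of a parameter -/
def splitB (t : Task V I) (i m : Nat) : Option (List (Task V I)) :=
  match nth t.box i with
  | none => none
  | some b => some [⟨t.cs, t.env, setn ⟨b.lo, m⟩ t.box i⟩, ⟨t.cs, t.env, setn ⟨m, b.hi⟩ t.box i⟩]

/-- the children of a branching -/
def kids (cs : List V) (env : List I) (box : List Ivl) : List (List I) → List (Task V I)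
  | [] => []
  | a :: l => ⟨cs, a ++ env, box⟩ :: kids cs env box l

/-- What the engine needs.  The rule: from the facts, the box and an index the list of the
alternatives. -/
structure Ops (V I : Type) where
  eq : V → V → Bool
  eqI : I → I → Bool
  mid : V → V → Option V
  leaf : Task V I → Nat → Bool
  rule : List I → List Ivl → Nat → Option (List (List I))

/-- one step -/
def step (o : Ops V I) (known : List (Task V I)) (t : Task V I) (tok : Nat) :
    Option (List (Task V I)) :=
  match Nat.mod tok 8 with
  | 0 => match o.leaf t (Nat.div tok 8) with
    | true => some []
    | false => none
  | 1 => splitT o.mid t (Nat.mod (Nat.div tok 8) 8) (Nat.mod (Nat.div tok 64) 8)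
  | 2 => match o.rule t.env t.box (Nat.div tok 8) with
    | none => none
    | some a => some (kids t.cs t.env t.box a)
  | 3 => match nth known (Nat.div tok 8) with
    | none => none
    | some u => match eqT o.eq o.eqI u t with
      | true => some []
      | false => none
  | 4 => splitB t (Nat.mod (Nat.div tok 8) 8) (Nat.div tok 64)
  | _ => none

/-- the machine -/
def run (o : Ops V I) (known : List (Task V I)) : List Nat → List (Task V I) → Bool
  | [], [] => true
  | [], _ :: _ => false
  | _ :: _, [] => false
  | tok :: l, t :: st =>
    match step o known t tok with
    | none => false
    | some n => run o known l (n ++ st)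

/-- the task at the end of a path: pairs of a token and the number of the child -/
def follow (o : Ops V I) : List (Nat × Nat) → Task V I → Option (Task V I)
  | [], t => some t
  | (tok, k) :: l, t =>
    match step o [] t tok with
    | none => none
    | some n => match nth n k with
      | none => none
      | some u => follow o l u

/-- check the subtree at the end of a path -/
def runAt (o : Ops V I) (path : List (Nat × Nat)) (toks : List Nat) (t : Task V I) : Bool :=
  match follow o path t with
  | none => false
  | some u => run o [] toks [u]

/-- the tasks at the ends of the paths -/
def ends (o : Ops V I) (t : Task V I) : List (List (Nat × Nat)) → List (Task V I)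
  | [] => []
  | p :: l => match follow o p t with
    | none => ends o t l
    | some u => u :: ends o t l

end

end Pool.Agent.Helper28.TP
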