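import Mathlib
import Pool.Agent.Helper28.TP.Eng

/-! Soundness of the engine with parameters. -/

set_option autoImplicit false

namespace Pool.Agent.Helper28.TP

open Matrix Finset

/-- What is known about the corners, the facts and the parameters: the true form `Q`, the true
parameters `c`, which corners are admissible and their forms, which facts hold. -/
structure Geo (V I : Type) where
  Q : Matrix (Fin 3) (Fin 3) ℝ
  c : ℕ → ℝ
  ok : V → Prop
  form : V → Matrix (Fin 3) (Fin 3) ℝ
  holds : I → Prop

/-- the parameters are in the box -/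
def InBox (c : ℕ → ℝ) (b : List Ivl) : Prop :=
  ∀ i v, nth b i = some v → (v.lo : ℝ) / 65536 ≤ c i ∧ c i ≤ (v.hi : ℝ) / 65536

/-- the form at a place of the list -/
noncomputable def Geo.At {V I : Type} (g : Geo V I) (cs : List V) (k : ℕ) :
    Matrix (Fin 3) (Fin 3) ℝ :=
  match nth cs k with
  | some v => g.form v
  | none => 0

/-- the truth is in the task -/
def Task.holds {V I : Type} (g : Geo V I) (t : Task V I) : Prop :=
  (∀ v ∈ t.cs, g.ok v) ∧
  (∃ lam : ℕ → ℝ, (∀ k, 0 ≤ lam k) ∧ g.Q = ∑ k ∈ range t.cs.length, lam k • g.At t.cs k) ∧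
  (∀ i ∈ t.env, g.holds i) ∧ InBox g.c t.box

/-- the operations are correct -/
structure OpsOK {V I : Type} (g : Geo V I) (o : Ops V I) : Prop where
  eq : ∀ v w, o.eq v w = true → v = w
  eqI : ∀ v w, o.eqI v w = true → v = w
  mid : ∀ v w m, g.ok v → g.ok w → o.mid v w = some m → g.ok m ∧
    ∃ α β : ℝ, 0 < α ∧ 0 < β ∧ g.form m = α • g.form v + β • g.form w
  leaf : ∀ t r, t.holds g → o.leaf t r = true → False
  rule : ∀ env box, (∀ i ∈ env, g.holds i) → InBox g.c box → ∀ id a, o.rule env box id = some a →
    ∃ l ∈ a, ∀ i ∈ l, g.holds i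

theorem length_setn {α : Type} (x : α) (l : List α) (i : ℕ) : (setn x l i).length = l.length := by
  induction l generalizing i with
  | nil => rfl
  | cons a l ih =>
    cases i with
    | zero => rfl
    | succ i => simp [setn, ih]

theorem nth_setn_ne {α : Type} (x : α) (l : List α) (i k : ℕ) (h : k ≠ i) :
    nth (setn x l i) k = nth l k := by
  induction l generalizing i k with
  | nil => rfl
  | cons a l ih =>
    cases i with
    | zero =>
      cases k with
      | zero => exact absurd rfl h
      | succ k => rfl
    | succ i =>
      cases k with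
      | zero => rfl
      | succ k => exact ih i k (by omega)

theorem nth_setn_eq {α : Type} (x : α) (l : List α) (i : ℕ) (v : α) (h : nth l i = some v) :
    nth (setn x l i) i = some x := by
  induction l generalizing i with
  | nil => cases h
  | cons a l ih =>
    cases i with
    | zero => rfl
    | succ i => exact ih i h

theorem nth_lt {α : Type} (l : List α) (i : ℕ) (v : α) (h : nth l i = some v) : i < l.length := by
  induction l generalizing i with
  | nil => cases h
  | cons a l ih =>
    cases i with
    | zero => simp
    | succ i =>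
      have := ih i h
      simpa using this

theorem nth_mem {α : Type} (l : List α) (i : ℕ) (v : α) (h : nth l i = some v) : v ∈ l := by
  induction l generalizing i with
  | nil => cases h
  | cons a l ih =>
    cases i with
    | zero => cases h; exact List.mem_cons_self
    | succ i => exact List.mem_cons_of_mem _ (ih i h)

theorem mem_setn {α : Type} (x : α) (l : List α) (i : ℕ) (v : α) (h : v ∈ setn x l i) :
    v = x ∨ v ∈ l := by
  induction l generalizing i with
  | nil => cases h
  | cons a l ih =>
    cases i with
    | zero =>
      rcases List.mem_cons.mp h with h | h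
      · exact Or.inl h
      · exact Or.inr (List.mem_cons_of_mem _ h)
    | succ i =>
      rcases List.mem_cons.mp h with h | h
      · exact Or.inr (h ▸ List.mem_cons_self)
      · rcases ih i h with h | h
        · exact Or.inl h
        · exact Or.inr (List.mem_cons_of_mem _ h)

/-- replace a corner by a point of the edge -/
theorem replaceC {n : ℕ} {A A' : ℕ → Matrix (Fin 3) (Fin 3) ℝ} {lam : ℕ → ℝ} {i j : ℕ} (hij : i ≠ j)
    (hi : i < n) (hj : j < n) {α β : ℝ} (hβ : 0 < β)
    (hA : ∀ k, k ≠ j → A' k = A k) (hAj : A' j = α • A i + β • A j) (hlam : ∀ k, 0 ≤ lam k)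
    (h : lam j * α ≤ lam i * β) :
    ∃ mu : ℕ → ℝ, (∀ k, 0 ≤ mu k) ∧ ∑ k ∈ range n, mu k • A' k = ∑ k ∈ range n, lam k • A k := by
  obtain ⟨mu, hmu⟩ : ∃ mu : ℕ → ℝ,
      mu = fun k => if k = j then lam j / β else if k = i then lam i - α * (lam j / β) else lam k :=
    ⟨_, rfl⟩
  have hmj : mu j = lam j / β := by rw [hmu]; simp
  have hmi : mu i = lam i - α * (lam j / β) := by rw [hmu]; simp [hij]
  have hmk : ∀ k, k ≠ i → k ≠ j → mu k = lam k := fun k h1 h2 => by rw [hmu]; simp [h1, h2]
  refine ⟨mu, ?_, ?_⟩
  · intro k
    by_cases h1 : k = j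
    · rw [h1, hmj]; exact div_nonneg (hlam j) hβ.le
    · by_cases h2 : k = i
      · rw [h2, hmi, sub_nonneg, ← mul_div_assoc, div_le_iff₀ hβ]
        linarith [mul_comm α (lam j)]
      · rw [hmk k h2 h1]; exact hlam k
  · rw [← sub_eq_zero, ← Finset.sum_sub_distrib]
    rw [Finset.sum_eq_add i j hij]
    · rw [hmi, hmj, hA i hij, hAj]
      have : lam j = lam j / β * β := by field_simp
      ext a b
      simp only [Matrix.add_apply, Matrix.sub_apply, Matrix.smul_apply, Matrix.zero_apply, smul_eq_mul]
      generalize A i a b = x
      generalize A j a b = y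
      have h2 : lam j / β * (α * x + β * y) = α * (lam j / β) * x + lam j * y := by
        field_simp
      rw [h2]; ring
    · intro k _ hk
      rw [hmk k hk.1 hk.2, hA k hk.2, sub_self]
    · intro h; exact absurd (Finset.mem_range.mpr hi) h
    · intro h; exact absurd (Finset.mem_range.mpr hj) h

section

variable {V I : Type} {g : Geo V I} {o : Ops V I}

theorem At_some (cs : List V) (k : ℕ) (v : V) (h : nth cs k = some v) : g.At cs k = g.form v := by
  unfold Geo.At; rw [h]

theorem splitT_sound (ho : OpsOK g o) (t : Task V I) (ht : t.holds g) (i j : ℕ) (l : List (Task V I))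
    (h : splitT o.mid t i j = some l) : ∃ u ∈ l, u.holds g := by
  unfold splitT at h
  split at h
  · rename_i v w hij hv hw
    split at h
    · rename_i m hm
      have hij : i ≠ j := by
        intro e
        subst e
        simp at hij
      injection h with h
      subst h
      obtain ⟨h1, ⟨lam, hlam, hF⟩, h3, h4⟩ := ht
      have hvm := nth_mem _ _ _ hv
      have hwm := nth_mem _ _ _ hw
      obtain ⟨hmok, α, β, hα, hβ, hme⟩ := ho.mid v w m (h1 v hvm) (h1 w hwm) hm
      have hil := nth_lt _ _ _ hv
      have hjl := nth_lt _ _ _ hw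
      rcases le_total (lam j * α) (lam i * β) with hc | hc
      · refine ⟨⟨setn m t.cs j, t.env, t.box⟩, by simp, ?_, ?_, h3, h4⟩
        · intro x hx
          rcases mem_setn _ _ _ _ hx with rfl | hx
          · exact hmok
          · exact h1 x hx
        · have e1 : ∀ k, k ≠ j → g.At (setn m t.cs j) k = g.At t.cs k := by
            intro k hk
            unfold Geo.At
            rw [nth_setn_ne _ _ _ _ hk]
          have e2 : g.At (setn m t.cs j) j = α • g.At t.cs i + β • g.At t.cs j := by
            rw [At_some _ _ _ (nth_setn_eq m _ _ _ hw), At_some _ _ _ hv, At_some _ _ _ hw, hme]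
          obtain ⟨mu, hmu, hs⟩ := replaceC hij hil hjl hβ e1 e2 hlam hc
          refine ⟨mu, hmu, ?_⟩
          simp only [length_setn]
          rw [hs]
          exact hF
      · refine ⟨⟨setn m t.cs i, t.env, t.box⟩, by simp, ?_, ?_, h3, h4⟩
        · intro x hx
          rcases mem_setn _ _ _ _ hx with rfl | hx
          · exact hmok
          · exact h1 x hx
        · have e1 : ∀ k, k ≠ i → g.At (setn m t.cs i) k = g.At t.cs k := by
            intro k hk
            unfold Geo.At
            rw [nth_setn_ne _ _ _ _ hk]
          have e2 : g.At (setn m t.cs i) i = β • g.At t.cs j + α • g.At t.cs i := by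
            rw [At_some _ _ _ (nth_setn_eq m _ _ _ hv), At_some _ _ _ hv, At_some _ _ _ hw, hme,
              add_comm]
          obtain ⟨mu, hmu, hs⟩ := replaceC hij.symm hjl hil hα e1 e2 hlam hc
          refine ⟨mu, hmu, ?_⟩
          simp only [length_setn]
          rw [hs]
          exact hF
    · cases h
  · cases h

theorem splitB_sound (t : Task V I) (ht : t.holds g) (i m : ℕ) (l : List (Task V I))
    (h : splitB t i m = some l) : ∃ u ∈ l, u.holds g := by
  unfold splitB at h
  split at h
  · cases h
  · rename_i b hb
    injection h with h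
    subst h
    obtain ⟨h1, h2, h3, h4⟩ := ht
    have h5 := h4 i b hb
    rcases le_total (g.c i) ((m : ℝ) / 65536) with hc | hc
    · refine ⟨⟨t.cs, t.env, setn ⟨b.lo, m⟩ t.box i⟩, by simp, h1, h2, h3, ?_⟩
      intro k v hv
      by_cases hk : k = i
      · subst hk
        simp only at hv
        rw [nth_setn_eq _ _ _ _ hb] at hv
        injection hv with hv
        subst hv
        exact ⟨h5.1, hc⟩
      · simp only at hv
        rw [nth_setn_ne _ _ _ _ hk] at hv
        exact h4 k v hv
    · refine ⟨⟨t.cs, t.env, setn ⟨m, b.hi⟩ t.box i⟩, by simp, h1, h2, h3, ?_⟩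
      intro k v hv
      by_cases hk : k = i
      · subst hk
        simp only at hv
        rw [nth_setn_eq _ _ _ _ hb] at hv
        injection hv with hv
        subst hv
        exact ⟨hc, h5.2⟩
      · simp only at hv
        rw [nth_setn_ne _ _ _ _ hk] at hv
        exact h4 k v hv

theorem mem_kids (cs : List V) (env : List I) (box : List Ivl) (a : List (List I)) (l : List I)
    (h : l ∈ a) : (⟨cs, l ++ env, box⟩ : Task V I) ∈ kids cs env box a := by
  induction a with
  | nil => cases h
  | cons b a ih =>
    rcases List.mem_cons.mp h with rfl | h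
    · exact List.mem_cons_self
    · exact List.mem_cons_of_mem _ (ih h)

theorem eqL_eq {α : Type} (eq : α → α → Bool) (he : ∀ a b, eq a b = true → a = b) (l m : List α)
    (h : eqL eq l m = true) : l = m := by
  induction l generalizing m with
  | nil =>
    cases m with
    | nil => rfl
    | cons b m => cases h
  | cons a l ih =>
    cases m with
    | nil => cases h
    | cons b m =>
      unfold eqL at h
      split at h
      · rename_i h'
        rw [he a b h', ih m h]
      · cases h

theorem eqT_eq (ho : OpsOK g o) (t u : Task V I) (h : eqT o.eq o.eqI t u = true) : t = u := by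
  obtain ⟨c1, e1, b1⟩ := t
  obtain ⟨c2, e2, b2⟩ := u
  unfold eqT at h
  split at h
  · rename_i h1 h2 h3
    have k1 := eqL_eq _ ho.eq _ _ h1
    have k2 := eqL_eq _ ho.eqI _ _ h2
    have k3 := of_decide_eq_true h3
    simp only at k1 k2 k3
    rw [k1, k2, k3]
  · cases h

theorem step_sound (ho : OpsOK g o) (known : List (Task V I))
    (hk : ∀ u ∈ known, ¬ u.holds g) (t : Task V I) (ht : t.holds g) (tok : ℕ) (l : List (Task V I))
    (h : step o known t tok = some l) : ∃ u ∈ l, u.holds g := by
  unfold step at h
  split at h
  · split at h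
    · rename_i h0
      exact (ho.leaf t _ ht h0).elim
    · cases h
  · exact splitT_sound ho t ht _ _ l h
  · split at h
    · cases h
    · rename_i a ha
      injection h with h
      subst h
      obtain ⟨h1, h2, h3, h4⟩ := ht
      obtain ⟨b, hb, hb'⟩ := ho.rule _ _ h3 h4 _ _ ha
      refine ⟨⟨t.cs, b ++ t.env, t.box⟩, mem_kids _ _ _ _ _ hb, h1, h2, ?_, h4⟩
      intro i hi
      rcases List.mem_append.mp hi with hi | hi
      · exact hb' i hi
      · exact h3 i hi
  · split at h
    · cases h
    · rename_i u hu
      split at h
      · rename_i he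
        have he : u = t := eqT_eq ho _ _ he
        exact (hk u (nth_mem _ _ _ hu) (he ▸ ht)).elim
      · cases h
  · exact splitB_sound t ht _ _ l h
  · cases h

/-- soundness of the machine -/
theorem run_sound (ho : OpsOK g o) (known : List (Task V I))
    (hk : ∀ u ∈ known, ¬ u.holds g) : ∀ (toks : List ℕ) (st : List (Task V I)),
    run o known toks st = true → ∀ t ∈ st, ¬ t.holds g := by
  intro toks
  induction toks with
  | nil =>
    intro st h t ht
    cases st with
    | nil => cases ht
    | cons a l => cases h
  | cons tok l ih =>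
    intro st h t ht hX
    cases st with
    | nil => cases ht
    | cons a st =>
      unfold run at h
      split at h
      · cases h
      · rename_i n hn
        have := ih _ h
        rcases List.mem_cons.mp ht with rfl | ht
        · obtain ⟨u, hu, hu'⟩ := step_sound ho known hk _ hX tok n hn
          exact this u (List.mem_append_left _ hu) hu'
        · exact this t (List.mem_append_right _ ht) hX

theorem mem_ends (t : Task V I) (ps : List (List (ℕ × ℕ))) (u : Task V I)
    (h : u ∈ ends o t ps) : ∃ p ∈ ps, follow o p t = some u := by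
  induction ps with
  | nil => cases h
  | cons p l ih =>
    unfold ends at h
    split at h
    · obtain ⟨q, hq, hq'⟩ := ih h
      exact ⟨q, List.mem_cons_of_mem _ hq, hq'⟩
    · rename_i v hv
      rcases List.mem_cons.mp h with rfl | h
      · exact ⟨p, List.mem_cons_self, hv⟩
      · obtain ⟨q, hq, hq'⟩ := ih h
        exact ⟨q, List.mem_cons_of_mem _ hq, hq'⟩

/-- the whole tree: the parts are checked, and the top refers to them -/
theorem tree_sound (ho : OpsOK g o) (t : Task V I)
    (ps : List (List (ℕ × ℕ))) (hp : ∀ p ∈ ps, ∃ toks, runAt o p toks t = true) (top : List ℕ)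
    (h : run o (ends o t ps) top [t] = true) : ¬ t.holds g := by
  refine run_sound ho _ ?_ top [t] h t (by simp)
  intro u hu
  obtain ⟨p, hp', hu'⟩ := mem_ends _ _ _ hu
  obtain ⟨toks, ht⟩ := hp p hp'
  unfold runAt at ht
  rw [hu'] at ht
  exact run_sound ho [] (by simp) toks [u] ht u (by simp)

end

end Pool.Agent.Helper28.TP
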