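import Pool.Agent.Helper28.TP.Exp

/-!
PROJECT TP (MP_629dac_al), port of TF-2: exponentials of nilpotent inner derivations are automorphisms (integers up to `2 N` nonzero in `K`).
-/

set_option autoImplicit false

namespace Pool.Agent.Helper28.TP

open Finset LieAlgebra
open Pool.Agent.Helper40.TF (ex pr li ws ERel ev IsP Path ex_trunc ex_zero)

variable {K L ι : Type*} [Field K] [LieRing L] [LieAlgebra K L]

private lemma ad_pow_lie (a : L) (k : ℕ) (x y : L) :
    ((ad K L a) ^ k) ⁅x, y⁆ = ∑ ij ∈ antidiagonal k,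
      (k.choose ij.1) • ⁅((ad K L a) ^ ij.1) x, ((ad K L a) ^ ij.2) y⁆ := by
  have h := LieDerivation.iterate_apply_lie (LieDerivation.ad K L a) k x y
  have hc : (LieDerivation.ad K L a : L → L) = (ad K L a : L → L) := by
    funext z
    simp
  rw [hc] at h
  simpa [Module.End.pow_apply] using h

private lemma sum_box {V : Type*} [AddCommGroup V] (F : ℕ → ℕ → V) (N : ℕ)
    (h1 : ∀ i j, N ≤ i → F i j = 0) (h2 : ∀ i j, N ≤ j → F i j = 0) :
    ∑ k ∈ range (2 * N), ∑ ij ∈ antidiagonal k, F ij.1 ij.2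
      = ∑ i ∈ range N, ∑ j ∈ range N, F i j := by
  have hS : ∑ p ∈ (range (2 * N) ×ˢ range (2 * N)).filter (fun p => p.1 + p.2 < 2 * N), F p.1 p.2
      = ∑ p ∈ range N ×ˢ range N, F p.1 p.2 := by
    symm
    refine Finset.sum_subset ?_ ?_
    · intro p hp
      rw [mem_product, mem_range, mem_range] at hp
      rw [mem_filter, mem_product, mem_range, mem_range]
      omega
    · intro p _ hp
      rw [mem_product, mem_range, mem_range, not_and_or, not_lt, not_lt] at hp
      rcases hp with hp | hp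
      · exact h1 _ _ hp
      · exact h2 _ _ hp
  rw [← Finset.sum_product', ← hS]
  have hm : ∀ p ∈ (range (2 * N) ×ˢ range (2 * N)).filter (fun p => p.1 + p.2 < 2 * N),
      p.1 + p.2 ∈ range (2 * N) := by
    intro p hp
    rw [mem_filter] at hp
    exact mem_range.2 hp.2
  rw [← Finset.sum_fiberwise_of_maps_to hm]
  refine Finset.sum_congr rfl (fun k hk => ?_)
  rw [mem_range] at hk
  refine Finset.sum_congr ?_ (fun _ _ => rfl)
  ext p
  rw [HasAntidiagonal.mem_antidiagonal, mem_filter, mem_filter, mem_product, mem_range, mem_range]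
  omega

private lemma ex_apply' (N : ℕ) (D : Module.End K L) (x : L) :
    ex K N D x = ∑ k ∈ range N, ((k.factorial : K)⁻¹) • (D ^ k) x := by
  unfold ex
  rw [LinearMap.sum_apply]
  rfl

theorem ex_lie (N : ℕ) (hB : Big K (2 * N)) (a : L) (ha : ad K L a ^ N = 0) (x y : L) :
    ex K N (ad K L a) ⁅x, y⁆ = ⁅ex K N (ad K L a) x, ex K N (ad K L a) y⁆ := by
  rw [← ex_trunc N (2 * N) (by omega) (ad K L a) ha]
  have hR : ⁅ex K (2 * N) (ad K L a) x, ex K (2 * N) (ad K L a) y⁆
      = ⁅ex K N (ad K L a) x, ex K N (ad K L a) y⁆ := by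
    rw [ex_trunc N (2 * N) (by omega) (ad K L a) ha]
  rw [hR]
  have hpow : ∀ i, N ≤ i → (ad K L a) ^ i = 0 := by
    intro i hi
    obtain ⟨c, rfl⟩ := Nat.exists_eq_add_of_le hi
    rw [pow_add, ha, zero_mul]
  have hL : ex K (2 * N) (ad K L a) ⁅x, y⁆ = ∑ k ∈ range (2 * N), ∑ ij ∈ antidiagonal k,
      (((ij.1.factorial : K)⁻¹) * ((ij.2.factorial : K)⁻¹)) •
        ⁅((ad K L a) ^ ij.1) x, ((ad K L a) ^ ij.2) y⁆ := by
    rw [ex_apply']
    refine Finset.sum_congr rfl (fun k hk => ?_)
    rw [mem_range] at hk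
    rw [ad_pow_lie, Finset.smul_sum]
    refine Finset.sum_congr rfl (fun ij hij => ?_)
    rw [HasAntidiagonal.mem_antidiagonal] at hij
    rw [← Nat.cast_smul_eq_nsmul K, smul_smul]
    congr 1
    subst hij
    have h0 : ((ij.1 + ij.2).choose ij.1 : K) * (ij.1.factorial : K) * (ij.2.factorial : K)
        = ((ij.1 + ij.2).factorial : K) := by
      have h := Nat.choose_mul_factorial_mul_factorial (Nat.le_add_right ij.1 ij.2)
      rw [Nat.add_sub_cancel_left] at h
      rw [← Nat.cast_mul, ← Nat.cast_mul, h]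
    have h1 : ((ij.1 + ij.2).factorial : K) ≠ 0 := hB.fac _ (by omega)
    have h2 : (ij.1.factorial : K) ≠ 0 := hB.fac _ (by omega)
    have h3 : (ij.2.factorial : K) ≠ 0 := hB.fac _ (by omega)
    have h4 : ((ij.1 + ij.2).choose ij.1 : K)
        = ((ij.1 + ij.2).factorial : K) * ((ij.1.factorial : K)⁻¹ * (ij.2.factorial : K)⁻¹) := by
      rw [← h0]
      field_simp
    rw [h4, inv_mul_cancel_left₀ h1]
  rw [hL, sum_box (fun i j => (((i.factorial : K)⁻¹) * ((j.factorial : K)⁻¹)) •
        ⁅((ad K L a) ^ i) x, ((ad K L a) ^ j) y⁆) N]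
  · rw [ex_apply', ex_apply', sum_lie]
    refine Finset.sum_congr rfl (fun i _ => ?_)
    rw [lie_sum]
    refine Finset.sum_congr rfl (fun j _ => ?_)
    rw [smul_lie, lie_smul, smul_smul]
  · intro i j hi
    rw [hpow i hi, LinearMap.zero_apply, zero_lie, smul_zero]
  · intro i j hj
    rw [hpow j hj, LinearMap.zero_apply, lie_zero, smul_zero]

theorem ad_ex (N : ℕ) (hN : 1 ≤ N) (hB : Big K (2 * N)) (a : L) (ha : ad K L a ^ N = 0) (x : L) :
    ad K L (ex K N (ad K L a) x) = ex K N (ad K L a) * ad K L x * ex K N (-ad K L a) := by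
  ext y
  have h1 : ex K N (ad K L a) (ex K N (-ad K L a) y) = y := by
    have h := ex_mul_neg (K := K) N hN hB (ad K L a) ha
    have h' := congrArg (fun T : Module.End K L => T y) h
    simpa using h'
  rw [Module.End.mul_apply, Module.End.mul_apply, ad_apply, ad_apply, ex_lie N hB a ha, h1]

theorem pr_append {A : Type*} [Ring A] [Algebra K A] (N : ℕ) (T : ι → A) (l l' : List (ι × K)) :
    pr K N T (l ++ l') = pr K N T l * pr K N T l' := by
  unfold pr
  rw [List.map_append, List.prod_append]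

theorem li_append (l l' : List (ι × K)) : li (l ++ l') = li l' ++ li l := by
  unfold li
  rw [List.map_append, List.reverse_append]

theorem li_li (l : List (ι × K)) : li (li l) = l := by
  unfold li
  rw [List.map_reverse, List.reverse_reverse, List.map_map]
  have : ((fun p : ι × K => (p.1, -p.2)) ∘ fun p : ι × K => (p.1, -p.2)) = id := by
    funext p
    simp
  rw [this, List.map_id]

theorem pr_inv {A : Type*} [Ring A] [Algebra K A] (N : ℕ) (hN : 1 ≤ N) (hB : Big K (2 * N)) (T : ι → A) (hT : ∀ i, T i ^ N = 0)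
    (l : List (ι × K)) : pr K N T l * pr K N T (li l) = 1 := by
  induction l with
  | nil => simp [pr, li]
  | cons p l ih =>
    have h0 : (p.2 • T p.1) ^ N = 0 := by rw [smul_pow, hT, smul_zero]
    have h1 : pr K N T (p :: l) = ex K N (p.2 • T p.1) * pr K N T l := by
      simp [pr]
    have h2 : li (p :: l) = li l ++ [(p.1, -p.2)] := by
      simp [li]
    have h3 : pr K N T [(p.1, -p.2)] = ex K N (-(p.2 • T p.1)) := by
      simp [pr]
    rw [h1, h2, pr_append, h3]
    calc ex K N (p.2 • T p.1) * pr K N T l * (pr K N T (li l) * ex K N (-(p.2 • T p.1)))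
        = ex K N (p.2 • T p.1) * (pr K N T l * pr K N T (li l)) * ex K N (-(p.2 • T p.1)) := by
          noncomm_ring
      _ = 1 := by rw [ih, mul_one, ex_mul_neg N hN hB _ h0]

theorem inv_pr {A : Type*} [Ring A] [Algebra K A] (N : ℕ) (hN : 1 ≤ N) (hB : Big K (2 * N)) (T : ι → A) (hT : ∀ i, T i ^ N = 0)
    (l : List (ι × K)) : pr K N T (li l) * pr K N T l = 1 := by
  induction l with
  | nil => simp [pr, li]
  | cons p l ih =>
    have h0 : (p.2 • T p.1) ^ N = 0 := by rw [smul_pow, hT, smul_zero]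
    have h1 : pr K N T (p :: l) = ex K N (p.2 • T p.1) * pr K N T l := by
      simp [pr]
    have h2 : li (p :: l) = li l ++ [(p.1, -p.2)] := by
      simp [li]
    have h3 : pr K N T [(p.1, -p.2)] = ex K N (-(p.2 • T p.1)) := by
      simp [pr]
    rw [h1, h2, pr_append, h3]
    calc pr K N T (li l) * ex K N (-(p.2 • T p.1)) * (ex K N (p.2 • T p.1) * pr K N T l)
        = pr K N T (li l) * (ex K N (-(p.2 • T p.1)) * ex K N (p.2 • T p.1)) * pr K N T l := by
          noncomm_ring
      _ = 1 := by rw [ex_neg_mul N hN hB _ h0, mul_one, ih]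

theorem pr_lie (N : ℕ) (hB : Big K (2 * N)) (X : ι → L) (hX : ∀ i, ad K L (X i) ^ N = 0) (l : List (ι × K)) (x y : L) :
    pr K N (fun i => ad K L (X i)) l ⁅x, y⁆ =
      ⁅pr K N (fun i => ad K L (X i)) l x, pr K N (fun i => ad K L (X i)) l y⁆ := by
  induction l with
  | nil => simp [pr]
  | cons p l ih =>
    have h1 : pr K N (fun i => ad K L (X i)) (p :: l)
        = ex K N (ad K L (p.2 • X p.1)) * pr K N (fun i => ad K L (X i)) l := by
      simp [pr]
    have h0 : ad K L (p.2 • X p.1) ^ N = 0 := by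
      rw [map_smul, smul_pow, hX, smul_zero]
    rw [h1, Module.End.mul_apply, Module.End.mul_apply, Module.End.mul_apply, ih, ex_lie N hB _ h0]

theorem ad_pr (N : ℕ) (hN : 1 ≤ N) (hB : Big K (2 * N)) (X : ι → L) (hX : ∀ i, ad K L (X i) ^ N = 0) (l : List (ι × K)) (x : L) :
    ad K L (pr K N (fun i => ad K L (X i)) l x) =
      pr K N (fun i => ad K L (X i)) l * ad K L x * pr K N (fun i => ad K L (X i)) (li l) := by
  ext y
  have h1 : pr K N (fun i => ad K L (X i)) l (pr K N (fun i => ad K L (X i)) (li l) y) = y := by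
    have h := pr_inv (K := K) N hN hB (fun i => ad K L (X i)) hX l
    have h' := congrArg (fun T : Module.End K L => T y) h
    simpa using h'
  rw [Module.End.mul_apply, Module.End.mul_apply, ad_apply, ad_apply, pr_lie N hB X hX, h1]

end Pool.Agent.Helper28.TP
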