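import Pool.Agent.Helper28.TF.Assoc
import Pool.Agent.Helper28.TP.Claim

/-!
PROJECT TP (MP_629dac_al), port of TF E-11: `assoc_nilp` over a field in which all `m` with `0 < m ≤ 2 n + 4` are invertible.
The matrices `mm`, `gx` and the lemmas about them are those of `Helper28/TF/Assoc.lean` (no assumption on the characteristic there).
-/

set_option autoImplicit false

namespace Pool.Agent.Helper28.TP

attribute [local instance 100] LieRing.ofAssociativeRing

open Pool.Agent.Helper40.KZ Pool.Agent.Helper28.TF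

theorem ad_pow_zero {K A : Type*} [Field K] [Ring A] [Algebra K A] (a : A) (n : ℕ) (ha : a ^ n = 0) :
    LieAlgebra.ad K A a ^ (2 * n) = 0 := by
  rw [LieAlgebra.ad_eq_lmul_left_sub_lmul_right]
  have h1 : (LinearMap.mulLeft K a) ^ n = 0 := by
    rw [LinearMap.pow_mulLeft, ha, LinearMap.mulLeft_zero_eq_zero]
  have h2 : (-LinearMap.mulRight K a) ^ n = 0 := by
    rw [neg_pow, LinearMap.pow_mulRight, ha, LinearMap.mulRight_zero_eq_zero, mul_zero]
  have h3 : Commute (LinearMap.mulLeft K a) (-LinearMap.mulRight K a) := by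
    rw [Commute.neg_right_iff]
    exact LinearMap.commute_mulLeft_right a a
  have h4 := h3.add_pow_eq_zero_of_add_le_succ_of_pow_eq_zero (k := 2 * n) h1 h2 (by omega)
  rw [← sub_eq_add_neg] at h4
  exact h4

theorem ad_sub_pow_zero {K A : Type*} [Field K] [Ring A] [Algebra K A] (L : LieSubalgebra K A) (x : L) (n : ℕ)
    (h : (x : A) ^ n = 0) : LieAlgebra.ad K L x ^ (2 * n) = 0 :=
  Module.End.submodule_pow_eq_zero_of_pow_eq_zero (L.ad_comp_incl_eq x) (ad_pow_zero (x : A) n h)

theorem assoc_nilp {K A ι : Type*} [Field K] [Ring A] [Algebra K A] [Finite ι] (T : ι → A) (n : ℕ)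
    (hK : ∀ m : ℕ, 0 < m → m ≤ 2 * n + 4 → (m : K) ≠ 0) (hT : ∀ i, T i ^ n = 0) (k : ℕ)
    (hk : LieModule.lowerCentralSeries K (LieSubalgebra.lieSpan K A (Set.range T))
      (LieSubalgebra.lieSpan K A (Set.range T)) k = ⊥) :
    ∃ m, ∀ l : List ι, l.length = m → (l.map T).prod = 0 := by
  classical
  have _ : Fintype ι := Fintype.ofFinite ι
  -- the generators inside the Lie algebra
  obtain ⟨Y, hY⟩ : ∃ Y : Option ι → LieSubalgebra.lieSpan K (Matrix (Fin 2) (Fin 2) A) (Set.range (gx T)),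
      ∀ o, (Y o : Matrix (Fin 2) (Fin 2) A) = gx T o :=
    ⟨fun o => ⟨gx T o, LieSubalgebra.subset_lieSpan ⟨o, rfl⟩⟩, fun o => rfl⟩
  have hg := span_sub_top (K := K) (gx T) Y hY
  -- nilpotent generators
  have hN : ∀ o, LieAlgebra.ad K _ (Y o) ^ (2 * n + 4) = 0 := by
    intro o
    cases o with
    | none =>
      have h1 : ((Y none : LieSubalgebra.lieSpan K (Matrix (Fin 2) (Fin 2) A) (Set.range (gx T))) :
          Matrix (Fin 2) (Fin 2) A) ^ 2 = 0 := by
        rw [hY]
        change mm (0 : A) 1 ^ 2 = 0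
        rw [pow_two, mm_mul, zero_mul, zero_mul]
        ext i j
        fin_cases i <;> fin_cases j <;> rfl
      exact pow_eq_zero_of_le (by omega) (ad_sub_pow_zero _ _ _ h1)
    | some i =>
      have h1 : ((Y (some i) : LieSubalgebra.lieSpan K (Matrix (Fin 2) (Fin 2) A) (Set.range (gx T))) :
          Matrix (Fin 2) (Fin 2) A) ^ (n + 1) = 0 := by
        rw [hY]
        change mm (T i) 0 ^ (n + 1) = 0
        rw [mm_pow, pow_succ, hT, zero_mul]
        ext i j
        fin_cases i <;> fin_cases j <;> rfl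
      exact pow_eq_zero_of_le (by omega) (ad_sub_pow_zero _ _ _ h1)
  -- the projection to the first entry
  obtain ⟨φ, hφ⟩ : ∃ φ : LieSubalgebra.lieSpan K (Matrix (Fin 2) (Fin 2) A) (Set.range (gx T)) →ₗ⁅K⁆
      LieSubalgebra.lieSpan K A (Set.range T), ∀ z, (φ z : A) = (z : Matrix (Fin 2) (Fin 2) A) 0 0 := by
    refine ⟨{ toFun := fun z => ⟨(z : Matrix (Fin 2) (Fin 2) A) 0 0, (gx_mem T z.1 z.2).2.2⟩
              map_add' := fun _ _ => rfl
              map_smul' := fun _ _ => rfl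
              map_lie' := ?_ }, fun z => rfl⟩
    intro x y
    have h1 := gx_mem T x.1 x.2
    have h2 := gx_mem T y.1 y.2
    refine Subtype.ext ?_
    change (⁅(x : Matrix (Fin 2) (Fin 2) A), (y : Matrix (Fin 2) (Fin 2) A)⁆ : Matrix (Fin 2) (Fin 2) A) 0 0 =
      ⁅(x : Matrix (Fin 2) (Fin 2) A) 0 0, (y : Matrix (Fin 2) (Fin 2) A) 0 0⁆
    have e : ⁅(x : Matrix (Fin 2) (Fin 2) A), (y : Matrix (Fin 2) (Fin 2) A)⁆ =
      (x : Matrix (Fin 2) (Fin 2) A) * y - y * x := rfl
    rw [e, Matrix.sub_apply, Matrix.mul_apply, Matrix.mul_apply, Fin.sum_univ_two, Fin.sum_univ_two,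
      h1.1, h2.1, mul_zero, mul_zero, add_zero, add_zero]
    rfl
  have hker : LieModule.lowerCentralSeries K
      (LieSubalgebra.lieSpan K (Matrix (Fin 2) (Fin 2) A) (Set.range (gx T)))
      (LieSubalgebra.lieSpan K (Matrix (Fin 2) (Fin 2) A) (Set.range (gx T))) k ≤ φ.ker := by
    have h1 := LieIdeal.map_lowerCentralSeries_le (R := K) k (f := φ)
    rw [hk] at h1
    rw [← LieIdeal.map_eq_bot_iff, eq_bot_iff]
    exact h1
  have hab : iterI (K := K) φ.ker 1 = ⊥ := by
    change ⁅φ.ker, φ.ker⁆ = ⊥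
    rw [LieSubmodule.lie_eq_bot_iff]
    intro x hx y hy
    have hx0 : (x : Matrix (Fin 2) (Fin 2) A) 0 0 = 0 := by
      rw [← hφ, (LieHom.mem_ker).1 hx]
      rfl
    have hy0 : (y : Matrix (Fin 2) (Fin 2) A) 0 0 = 0 := by
      rw [← hφ, (LieHom.mem_ker).1 hy]
      rfl
    have h1 := gx_mem T x.1 x.2
    have h2 := gx_mem T y.1 y.2
    refine Subtype.ext ?_
    change (x : Matrix (Fin 2) (Fin 2) A) * y - y * x = 0
    ext i j
    rw [Matrix.sub_apply, Matrix.mul_apply, Matrix.mul_apply, Fin.sum_univ_two, Fin.sum_univ_two]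
    fin_cases i <;> fin_cases j <;> simp [h1.1, h1.2.1, h2.1, h2.2.1, hx0, hy0]
  obtain ⟨m, hm⟩ := nilp_ext Y hg (2 * n + 4) hK hN φ.ker k hker 1 hab
  refine ⟨m, fun l hl => ?_⟩
  have h1 := word_mem_lcs (K := K) Y (l.map some) (Y none)
  rw [List.length_map, hl, hm] at h1
  have h2 : wo K Y (l.map some) (Y none) = 0 := by simpa using h1
  have h3 : ∀ l : List ι, ((wo K Y (l.map some) (Y none) : LieSubalgebra.lieSpan K (Matrix (Fin 2) (Fin 2) A)
      (Set.range (gx T))) : Matrix (Fin 2) (Fin 2) A) = mm 0 (l.map T).prod := by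
    intro l
    induction l with
    | nil => exact hY none
    | cons i l ih =>
      have e : wo K Y ((i :: l).map some) (Y none) = ⁅Y (some i), wo K Y (l.map some) (Y none)⁆ := by
        simp only [wo, op, List.map_cons, List.prod_cons]
        rfl
      rw [e]
      change ⁅(Y (some i) : Matrix (Fin 2) (Fin 2) A), ((wo K Y (l.map some) (Y none) :
        LieSubalgebra.lieSpan K (Matrix (Fin 2) (Fin 2) A) (Set.range (gx T))) : Matrix (Fin 2) (Fin 2) A)⁆ = _
      rw [ih, hY]
      change mm (T i) 0 * mm 0 (l.map T).prod - mm 0 (l.map T).prod * mm (T i) 0 = _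
      rw [mm_mul, mm_mul, mul_zero, zero_mul, zero_mul, List.map_cons, List.prod_cons]
      ext a b
      fin_cases a <;> fin_cases b <;> simp [mm]
  have h4 := h3 l
  rw [h2] at h4
  have h5 := congrFun (congrFun h4 0) 1
  exact h5.symm

end Pool.Agent.Helper28.TP
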