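import Pool.Agent.Helper28.TP.LieMain
import Pool.Agent.Helper28.TP.AdRel
import Pool.Agent.Helper28.TP.Assoc

/-!
PROJECT TP (MP_629dac_al), port of TF-18 to infinite fields with Big K (6 * (n - 1)), Big K (2 * n + 4). Associative algebras generated by finitely many nilpotent Engel elements are nilpotent, with a bound.

`assoc_main`: `L = lieSpan K A (range T)`, `X i = ⟨T i, _⟩`; `ad_pow`, `span_top`, `adrel` give the hypotheses of `lie_main` with `N = 2 n`; then `assoc_nilp`.
-/

set_option autoImplicit false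

namespace Pool.Agent.Helper28.TP

open LieAlgebra
open Pool.Agent.Helper40.TF (ex pr li ws ERel ev IsP Path ad_pow span_top)

attribute [local instance 100] LieRing.ofAssociativeRing
attribute [local instance 100] LieAlgebra.ofAssociativeAlgebra

theorem assoc_main2 {K A ι : Type*} [Field K] [Infinite K] [Ring A] [Algebra K A] [Finite ι] (n m : ℕ) (hn : 2 ≤ n)
    (hB : Big K (6 * (n - 1))) (hB' : Big K (2 * n + 4)) (hm : 2 ≤ m) (T : ι → A) (hT : ∀ i, T i ^ n = 0)
    (hE : ∀ i, ERel K n m T (T i)) :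
    ∃ k, ∀ l : List ι, l.length = k → (l.map T).prod = 0 := by
  obtain ⟨X, hX⟩ : ∃ X : ι → LieSubalgebra.lieSpan K A (Set.range T), ∀ i, (X i : A) = T i :=
    ⟨fun i => ⟨T i, LieSubalgebra.subset_lieSpan ⟨i, rfl⟩⟩, fun i => rfl⟩
  obtain ⟨k, hk⟩ := lie_main (K := K) (L := LieSubalgebra.lieSpan K A (Set.range T)) (2 * n - 1) (by omega)
    (hB.mono (by omega)) m hm X (ad_pow' n (by omega) T hT X hX) (span_top T X hX)
    (fun i => adrel n m (by omega) (hB.mono (by omega)) T hT X hX i (hE i))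
  exact assoc_nilp T n hB' hT k hk

theorem assoc_main {K A ι : Type*} [Field K] [Infinite K] [Ring A] [Algebra K A] [Finite ι] (n m : ℕ) (hn : 1 ≤ n)
    (hB : Big K (6 * n + 4)) (hm : 2 ≤ m) (T : ι → A) (hT : ∀ i, T i ^ n = 0) (hE : ∀ i, ERel K n m T (T i)) :
    ∃ k, ∀ l : List ι, l.length = k → (l.map T).prod = 0 := by
  rcases Nat.lt_or_ge n 2 with h | h
  · have h1 : n = 1 := by omega
    subst h1
    refine ⟨1, fun l hl => ?_⟩
    obtain ⟨i, rfl⟩ := List.length_eq_one_iff.1 hl
    have h2 := hT i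
    rw [pow_one] at h2
    simp [h2]
  · exact assoc_main2 n m h (hB.mono (by omega)) (hB.mono (by omega)) hm T hT hE

end Pool.Agent.Helper28.TP
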