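import Pool.Agent.Helper28.TP.ModMain

/-!
PROJECT TP (MP_629dac_al): a uniform bound, by a product of counterexamples.
-/

set_option autoImplicit false

namespace Pool.Agent.Helper28.TP

theorem mod_bound (n d : ℕ) (hn : 2 ≤ n) : ∃ k : ℕ, ∀ (H : Type) [Group H] (x : Fin d → H),
    Subgroup.closure (Set.range x) = ⊤ →
    (∀ i, ∀ y : H, (fun y : H => y⁻¹ * (x i)⁻¹ * y * x i)^[n] y = 1) →
    ∀ (V : Type) [AddCommGroup V], (∀ p : ℕ, p.Prime → p ≤ PP n → ∀ s : V, p • s = 0 → s = 0) →
    ∀ ρ : H →* Module.End ℤ V, (∀ i, (ρ (x i) - 1) ^ n = 0) →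
    ∀ l : List H, l.length = k → (l.map fun g => ρ g - 1).prod = 0 := by
  by_contra hcon
  push Not at hcon
  choose H iG x hx hE V iV hV ρ hρ l hl hne using hcon
  have hv : ∀ k, ∃ v : V k, ((l k).map fun g => ρ k g - 1).prod v ≠ 0 := by
    intro k
    by_contra h
    push Not at h
    exact hne k (LinearMap.ext fun v => h v)
  choose v hv using hv
  -- the product group and the subgroup generated by the diagonal generators
  obtain ⟨X, hX⟩ : ∃ X : Fin d → (∀ k, H k), ∀ i k, X i k = x k i := ⟨fun i k => x k i, fun i k => rfl⟩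
  obtain ⟨x', hx'⟩ : ∃ x' : Fin d → Subgroup.closure (Set.range X), ∀ i, (x' i : ∀ k, H k) = X i :=
    ⟨fun i => ⟨X i, Subgroup.subset_closure ⟨i, rfl⟩⟩, fun i => rfl⟩
  have hgen : Subgroup.closure (Set.range x') = ⊤ := by
    rw [← Subgroup.closure_closure_coe_preimage (k := Set.range X)]
    congr 1
    ext h
    constructor
    · rintro ⟨i, rfl⟩
      exact ⟨i, (hx' i).symm⟩
    · rintro ⟨i, hi⟩
      exact ⟨i, Subtype.ext ((hx' i).trans hi)⟩
  let π : ∀ k, Subgroup.closure (Set.range X) →* H k := fun k =>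
    (Pi.evalMonoidHom H k).comp (Subgroup.subtype _)
  have hπ : ∀ k i, π k (x' i) = x k i := by
    intro k i
    change (x' i : ∀ k, H k) k = x k i
    rw [hx', hX]
  have hsurj : ∀ k, Function.Surjective (π k) := by
    intro k
    rw [← MonoidHom.range_eq_top, eq_top_iff, ← hx k, Subgroup.closure_le]
    rintro _ ⟨i, rfl⟩
    exact ⟨x' i, hπ k i⟩
  have hinj : ∀ g : Subgroup.closure (Set.range X), (∀ k, π k g = 1) → g = 1 := by
    intro g hg
    exact Subtype.ext (funext fun k => hg k)
  have hE' : ∀ i, ∀ y : Subgroup.closure (Set.range X),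
      (fun y : Subgroup.closure (Set.range X) => y⁻¹ * (x' i)⁻¹ * y * x' i)^[n] y = 1 := by
    intro i y
    apply hinj
    intro k
    have hsemi : Function.Semiconj (π k) (fun y => y⁻¹ * (x' i)⁻¹ * y * x' i)
        (fun y : H k => y⁻¹ * (x k i)⁻¹ * y * x k i) := by
      intro y
      simp only [map_mul, map_inv, hπ]
    rw [(hsemi.iterate_right n) y, hE k i (π k y)]
  let ρ' : Subgroup.closure (Set.range X) →* Module.End ℤ (∀ k, V k) :=
    { toFun := fun h => LinearMap.pi fun k => (ρ k (π k h)) ∘ₗ LinearMap.proj k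
      map_one' := by
        ext v k
        simp
      map_mul' := fun g h => by
        refine LinearMap.ext fun v => funext fun k => ?_
        change ρ k (π k (g * h)) (v k) = ρ k (π k g) (ρ k (π k h) (v k))
        rw [map_mul, map_mul]
        rfl }
  have hρ' : ∀ g v k, ρ' g v k = ρ k (π k g) (v k) := fun g v k => rfl
  have hword : ∀ (L : List (Subgroup.closure (Set.range X))) (v : ∀ k, V k) (k : ℕ),
      ((L.map fun g => ρ' g - 1).prod v) k = ((L.map (π k)).map fun g => ρ k g - 1).prod (v k) := by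
    intro L
    induction L with
    | nil => intro v k; rfl
    | cons g L ih =>
      intro v k
      rw [List.map_cons, List.prod_cons, List.map_cons, List.map_cons, List.prod_cons, Module.End.mul_apply,
        Module.End.mul_apply, ← ih, LinearMap.sub_apply, LinearMap.sub_apply, Module.End.one_apply, Module.End.one_apply,
        Pi.sub_apply, hρ']
  have hpow : ∀ (g : Subgroup.closure (Set.range X)) (j : ℕ) (v : ∀ k, V k) (k : ℕ),
      (((ρ' g - 1) ^ j) v) k = ((ρ k (π k g) - 1) ^ j) (v k) := by
    intro g j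
    induction j with
    | zero => intro v k; rfl
    | succ j ih =>
      intro v k
      rw [pow_succ, pow_succ, Module.End.mul_apply, Module.End.mul_apply, ih, LinearMap.sub_apply, LinearMap.sub_apply,
        Module.End.one_apply, Module.End.one_apply, Pi.sub_apply, hρ']
  obtain ⟨m, hm⟩ := mod_main n hn x' hgen hE' (∀ k, V k) (fun p hp hpB s hs => by
    funext k
    exact hV k p hp hpB (s k) (congrFun hs k)) ρ' (fun i => by
      refine LinearMap.ext fun v => funext fun k => ?_
      rw [hpow, hπ, hρ k i]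
      rfl) v
  have hlift : ∃ L : List (Subgroup.closure (Set.range X)), L.map (π m) = l m := by
    obtain ⟨L, hL⟩ := List.map_surjective_iff.2 (hsurj m) (l m)
    exact ⟨L, hL⟩
  obtain ⟨L, hL⟩ := hlift
  apply hv m
  rw [← hL, ← hword L v m, hm L (by rw [← hl m, ← hL, List.length_map])]
  rfl

end Pool.Agent.Helper28.TP
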