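import Pool.Agent.Helper28.TP.Defs

/-!
PROJECT TP (MP_629dac_al): an abelian group of prime exponent `q` and its endomorphisms over an infinite field of characteristic `q`.
-/

set_option autoImplicit false

namespace Pool.Agent.Helper28.TP

/-- additive endomorphisms as linear maps -/
private def toLin (F S : Type) [Field F] [AddCommGroup S] [Module F S]
    (hlin : ∀ (φ : Module.End ℤ S) (c : F) (s : S), φ (c • s) = c • φ s) : Module.End ℤ S →+* Module.End F S where
  toFun φ := { toFun := φ, map_add' := fun a b => map_add φ a b, map_smul' := fun c a => hlin φ c a }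
  map_one' := rfl
  map_mul' _ _ := rfl
  map_zero' := rfl
  map_add' _ _ := rfl

private theorem exists_aux (F S K : Type) [Field F] [AddCommGroup S] [Module F S] [Field K] [Algebra F K]
    (hlin : ∀ (φ : Module.End ℤ S) (c : F) (s : S), φ (c • s) = c • φ s) :
    ∃ (V : Type) (_ : AddCommGroup V) (_ : Module K V) (Φ : Module.End ℤ S →+* Module.End K V), Function.Injective Φ := by
  refine ⟨TensorProduct F K S, inferInstance, inferInstance,
    (Module.End.baseChangeHom F K S : Module.End F S →ₐ[F] Module.End K (TensorProduct F K S)).toRingHom.comp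
      (toLin F S hlin), ?_⟩
  intro φ ψ h
  have h1 : toLin F S hlin φ = toLin F S hlin ψ :=
    LinearMap.baseChangeHom_injective (R := F) (M := S) (S := K) (N := S) h
  ext s
  exact LinearMap.congr_fun h1 s

theorem exists_charp (q : ℕ) [Fact q.Prime] (S : Type) [AddCommGroup S] (h : ∀ s : S, q • s = 0) :
    ∃ (K : Type) (_ : Field K) (_ : Infinite K) (_ : CharP K q) (V : Type) (_ : AddCommGroup V) (_ : Module K V)
      (Φ : Module.End ℤ S →+* Module.End K V), Function.Injective Φ := by
  have hch : CharP (AlgebraicClosure (ZMod q)) q :=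
    charP_of_injective_algebraMap (algebraMap (ZMod q) (AlgebraicClosure (ZMod q))).injective q
  refine ⟨AlgebraicClosure (ZMod q), inferInstance, inferInstance, hch, ?_⟩
  refine @exists_aux (ZMod q) S (AlgebraicClosure (ZMod q)) _ _ (AddCommGroup.zmodModule h) _ _ ?_
  intro φ c s
  letI : Module (ZMod q) S := AddCommGroup.zmodModule h
  exact ZMod.map_smul φ c s

end Pool.Agent.Helper28.TP
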