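import Pool.Agent.Helper40.TF.Close
import Pool.Agent.Helper28.TP.AdExp
import Pool.Agent.Helper28.TP.Poly

/-!
PROJECT TP (MP_629dac_al), port of TF-5 to infinite fields. Conjugates and polynomial limits of Engel elements.

`isP_ws`: if `v, v'` are polynomial in the parameter (and `y, y'` constant), so are both components of `ws` (induction, `IsP.mul`).
`erel_limit`: `f` polynomial with values in `A`; for `t ≠ 0`, `(f t) ^ N = 0` and `ERel K N n T (f t)`; then the same at `t = 0`: `t ↦ (f t) ^ N` is `IsP`; for fixed `l` the difference `(ws (ex (f t)) (ex (- f t)) y y' n).1 - ex (- f t)` is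
`IsP` (`IsP.ex`, `isP_ws`) and vanishes for `t ≠ 0`; `IsP.zero_at`.
`erel_conj`: `a` with `ERel K N n T a`, `u = pr K N T l₀`, `u' = pr K N T (li l₀)`. For a list `l` put `l₁ = li l₀ ++ l ++ l₀`; `pr l₁ = u' (pr l) u`, `pr (li l₁) = u' (pr (li l)) u` (`pr_append`, `li_append`, `li_li`). By `ex_conj`, `ex (u a u') = u (ex a) u'`, and
`pr l = u (pr l₁) u'`. `ws_conj` and the hypothesis for `l₁` give the claim.
`erel_conj_ad`: combine with `ad_pr`.
-/

set_option autoImplicit false

namespace Pool.Agent.Helper28.TP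

open Finset LieAlgebra
open Pool.Agent.Helper40.TF (ex pr li ws ERel ev IsP Path ex_conj ws_conj isP_ws)

private theorem isP_pow {K A : Type*} [Field K] [Ring A] [Algebra K A] (f : K → A) (hf : IsP f) (k : ℕ) :
    IsP (fun t => f t ^ k) := by
  induction k with
  | zero =>
    have h : (fun t : K => f t ^ 0) = fun _ : K => (1 : A) := by
      funext t
      exact pow_zero _
    rw [h]
    exact IsP.const 1
  | succ k ih =>
    have h : (fun t : K => f t ^ (k + 1)) = fun t : K => f t ^ k * f t := by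
      funext t
      exact pow_succ _ _
    rw [h]
    exact IsP.mul _ _ ih hf

private theorem isP_neg {K A : Type*} [Field K] [Ring A] [Algebra K A] (f : K → A) (hf : IsP f) :
    IsP (fun t => - f t) := by
  have h : (fun t : K => - f t) = fun t : K => (-1 : K) • f t := by
    funext t
    rw [neg_one_smul]
  rw [h]
  exact IsP.smul (-1) f hf

theorem erel_limit {K A ι : Type*} [Field K] [Infinite K] [Ring A] [Algebra K A] (N n : ℕ) (T : ι → A) (f : K → A)
    (hf : IsP f) (h1 : ∀ t, t ≠ 0 → f t ^ N = 0) (h2 : ∀ t, t ≠ 0 → ERel K N n T (f t)) :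
    f 0 ^ N = 0 ∧ ERel K N n T (f 0) := by
  refine ⟨isP_zero_at (fun t => f t ^ N) (isP_pow f hf N) h1, ?_⟩
  intro l
  have hn : IsP (fun t => - f t) := isP_neg f hf
  have he : IsP (fun t => ex K N (f t)) := IsP.ex N f hf
  have he' : IsP (fun t => ex K N (- f t)) := IsP.ex N _ hn
  have hw := (isP_ws (fun t => ex K N (f t)) (fun t => ex K N (- f t)) (pr K N T l)
    (pr K N T (li l)) he he' n).1
  have hd : IsP (fun t => (ws (ex K N (f t)) (ex K N (- f t)) (pr K N T l) (pr K N T (li l)) n).1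
      + - ex K N (- f t)) := IsP.add _ _ hw (isP_neg _ he')
  have h0 := isP_zero_at _ hd (fun t ht => by
    have h3 := h2 t ht l
    simp only [h3, add_neg_cancel])
  exact add_neg_eq_zero.mp h0

theorem erel_conj {K A ι : Type*} [Field K] [Ring A] [Algebra K A] (N : ℕ) (hN : 1 ≤ N) (hB : Big K (2 * N)) (n : ℕ)
    (T : ι → A) (hT : ∀ i, T i ^ N = 0) (a : A) (ha : ERel K N n T a) (l₀ : List (ι × K)) :
    ERel K N n T (pr K N T l₀ * a * pr K N T (li l₀)) := by
  intro l
  have h1 : pr K N T l₀ * pr K N T (li l₀) = 1 := pr_inv N hN hB T hT l₀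
  have h2 : pr K N T (li l₀) * pr K N T l₀ = 1 := inv_pr N hN hB T hT l₀
  have h3 := ha (li l₀ ++ l ++ l₀)
  generalize hu : pr K N T l₀ = u at h1 h2 ⊢
  generalize hu' : pr K N T (li l₀) = u' at h1 h2 ⊢
  have e1 : ex K N (u * a * u') = u * ex K N a * u' := ex_conj N u u' a h1 h2
  have e2 : ex K N (-(u * a * u')) = u * ex K N (-a) * u' := by
    rw [← ex_conj N u u' (-a) h1 h2, mul_neg, neg_mul]
  have e3 : pr K N T (li l₀ ++ l ++ l₀) = u' * pr K N T l * u := by
    rw [pr_append, pr_append, hu, hu']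
  have e4 : pr K N T (li (li l₀ ++ l ++ l₀)) = u' * pr K N T (li l) * u := by
    rw [li_append, li_append, li_li, pr_append, pr_append, hu, hu', mul_assoc]
  have e5 : pr K N T l = u * (u' * pr K N T l * u) * u' := by
    calc pr K N T l = (u * u') * pr K N T l * (u * u') := by rw [h1, one_mul, mul_one]
      _ = u * (u' * pr K N T l * u) * u' := by noncomm_ring
  have e6 : pr K N T (li l) = u * (u' * pr K N T (li l) * u) * u' := by
    calc pr K N T (li l) = (u * u') * pr K N T (li l) * (u * u') := by rw [h1, one_mul, mul_one]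
      _ = u * (u' * pr K N T (li l) * u) * u' := by noncomm_ring
  rw [e3, e4] at h3
  have e7 := ws_conj (ex K N a) (ex K N (-a)) (u' * pr K N T l * u) (u' * pr K N T (li l) * u) u u' h1 h2 n
  rw [← e5, ← e6] at e7
  rw [e1, e2, e7]
  show u * _ * u' = _
  rw [h3]

theorem erel_conj_ad {K L ι : Type*} [Field K] [LieRing L] [LieAlgebra K L] (N : ℕ) (hN : 1 ≤ N) (hB : Big K (2 * N)) (n : ℕ)
    (X : ι → L) (hX : ∀ i, ad K L (X i) ^ N = 0) (a : L) (ha : ERel K N n (fun i => ad K L (X i)) (ad K L a))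
    (l₀ : List (ι × K)) :
    ERel K N n (fun i => ad K L (X i)) (ad K L (pr K N (fun i => ad K L (X i)) l₀ a)) := by
  rw [ad_pr N hN hB X hX l₀ a]
  exact erel_conj N hN hB n (fun i => ad K L (X i)) hX (ad K L a) ha l₀

end Pool.Agent.Helper28.TP
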