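import Mathlib

/-!
PROJECT TP (MP_629dac_al): fields in which all small positive integers are nonzero.
-/

set_option autoImplicit false

namespace Pool.Agent.Helper28.TP

/-- All integers `m` with `0 < m ≤ B` are nonzero in `K`. -/
def Big (K : Type*) [Field K] (B : ℕ) : Prop := ∀ m : ℕ, 0 < m → m ≤ B → (m : K) ≠ 0

variable {K : Type*} [Field K]

theorem Big.mono {B C : ℕ} (h : Big K C) (hBC : B ≤ C) : Big K B :=
  fun m h0 hm => h m h0 (hm.trans hBC)

theorem Big.fac {B : ℕ} (h : Big K B) (k : ℕ) (hk : k ≤ B) : (k.factorial : K) ≠ 0 := by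
  induction k with
  | zero => simp
  | succ k ih =>
    rw [Nat.factorial_succ, Nat.cast_mul]
    exact mul_ne_zero (h (k + 1) (Nat.succ_pos k) hk) (ih (by omega))

theorem Big.ne {B : ℕ} (h : Big K B) (m : ℕ) (h0 : 0 < m) (hm : m ≤ B) : (m : K) ≠ 0 := h m h0 hm

theorem Big.two {B : ℕ} (h : Big K B) (hB : 2 ≤ B) : (2 : K) ≠ 0 := by
  have h1 := h 2 (by omega) hB
  exact_mod_cast h1

theorem Big.three {B : ℕ} (h : Big K B) (hB : 3 ≤ B) : (3 : K) ≠ 0 := by
  have h1 := h 3 (by omega) hB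
  exact_mod_cast h1

theorem Big.charZero [CharZero K] (B : ℕ) : Big K B :=
  fun m h0 _ => Nat.cast_ne_zero.2 (by omega)

theorem Big.charP (p : ℕ) [CharP K p] (B : ℕ) (hp : B < p) : Big K B := by
  intro m h0 hm h
  rw [CharP.cast_eq_zero_iff K p] at h
  have h1 := Nat.le_of_dvd h0 h
  omega

end Pool.Agent.Helper28.TP
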