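import Pool.Agent.Helper28.TP.AdExp
import Pool.Agent.Helper28.TP.Poly
import Pool.Agent.Helper40.TF.Words

/-!
PROJECT TP (MP_629dac_al), port of TF-21 (integer exponents suffice) with a count of the degree.

`PD D f`: `f` is a polynomial function of degree at most `D` with values in an algebra. If the integers `0, ..., D` are different in `K` and `f` vanishes at all
integers then `f = 0`. `erel_of_int`: the Engel relation of length `m + 1` for lists with integer exponents implies it for all lists, if all positive integers up to `2 ^ m * (N - 1)`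
are nonzero in `K` (the relation says that `v⁻¹` commutes with `w_m`, which has degree at most `2 ^ m * (N - 1)` in each exponent).
-/

set_option autoImplicit false

namespace Pool.Agent.Helper28.TP

open Pool.Agent.Helper40.TF (ex pr li ws ERel ev ev_C ev_X ws_inv)

variable {K A ι : Type*} [Field K] [Ring A] [Algebra K A]

/-- `f` is a polynomial function of degree at most `D`. -/
def PD (D : ℕ) (f : K → A) : Prop :=
  ∃ P : Polynomial A, P.natDegree ≤ D ∧ ∀ t, f t = ev K t P

theorem PD.const (a : A) : PD 0 (fun _ : K => a) :=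
  ⟨Polynomial.C a, by simp, fun t => (ev_C t a).symm⟩

theorem PD.mono {D E : ℕ} (h : D ≤ E) {f : K → A} (hf : PD D f) : PD E f := by
  obtain ⟨P, h1, h2⟩ := hf
  exact ⟨P, h1.trans h, h2⟩

theorem PD.add {D : ℕ} {f g : K → A} (hf : PD D f) (hg : PD D g) : PD D (fun t => f t + g t) := by
  obtain ⟨P, h1, h2⟩ := hf
  obtain ⟨Q, h3, h4⟩ := hg
  exact ⟨P + Q, Polynomial.natDegree_add_le_of_degree_le h1 h3, fun t => by rw [map_add, ← h2, ← h4]⟩

theorem PD.mul {D E : ℕ} {f g : K → A} (hf : PD D f) (hg : PD E g) : PD (D + E) (fun t => f t * g t) := by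
  obtain ⟨P, h1, h2⟩ := hf
  obtain ⟨Q, h3, h4⟩ := hg
  exact ⟨P * Q, Polynomial.natDegree_mul_le_of_le h1 h3, fun t => by rw [map_mul, ← h2, ← h4]⟩

theorem PD.zero {D : ℕ} (hB : Big K D) (f : K → A) (hf : PD D f) (h : ∀ z : ℤ, f (z : K) = 0) (t : K) : f t = 0 := by
  classical
  obtain ⟨P, hd, hp⟩ := hf
  rw [← Module.forall_dual_apply_eq_zero_iff K]
  intro φ
  have he : ∀ s : K, Polynomial.eval s
      (∑ j ∈ Finset.range (D + 1), Polynomial.C (φ (P.coeff j)) * Polynomial.X ^ j : Polynomial K) = φ (f s) := by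
    intro s
    have h2 : ev K s P = Polynomial.eval₂ (RingHom.id A) (algebraMap K A s) P := rfl
    rw [hp, h2, Polynomial.eval₂_eq_sum_range' (RingHom.id A) (lt_of_le_of_lt hd (Nat.lt_succ_self D)), map_sum,
      Polynomial.eval_finsetSum]
    refine Finset.sum_congr rfl fun j _ => ?_
    rw [RingHom.id_apply, ← map_pow, ← Algebra.commutes, ← Algebra.smul_def, map_smul, smul_eq_mul, Polynomial.eval_mul,
      Polynomial.eval_C, Polynomial.eval_pow, Polynomial.eval_X, mul_comm]
  have hz : (∑ j ∈ Finset.range (D + 1), Polynomial.C (φ (P.coeff j)) * Polynomial.X ^ j : Polynomial K) = 0 := by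
    have hinj : Set.InjOn (fun m : ℕ => (m : K)) (Finset.range (D + 1) : Set ℕ) := by
      have key : ∀ a b : ℕ, a < b → b < D + 1 → (a : K) ≠ (b : K) := by
        intro a b hab hb heq
        obtain ⟨m, rfl⟩ := Nat.exists_eq_add_of_lt hab
        apply hB (m + 1) (Nat.succ_pos m) (by omega)
        have h1 : ((a + m + 1 : ℕ) : K) = (a : K) + ((m + 1 : ℕ) : K) := by push_cast; ring
        rw [h1] at heq
        exact (left_eq_add.1 heq)
      intro a ha b hb hab
      rw [Finset.mem_coe, Finset.mem_range] at ha hb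
      rcases lt_trichotomy a b with h1 | h1 | h1
      · exact absurd hab (key a b h1 hb)
      · exact h1
      · exact absurd hab.symm (key b a h1 ha)
    refine Polynomial.eq_zero_of_natDegree_lt_card_of_eval_eq_zero' _ ((Finset.range (D + 1)).image fun m : ℕ => (m : K)) ?_ ?_
    · intro s hs
      obtain ⟨m, _, rfl⟩ := Finset.mem_image.1 hs
      have h1 := h (m : ℤ)
      rw [Int.cast_natCast] at h1
      rw [he, h1, map_zero]
    · rw [Finset.card_image_of_injOn hinj, Finset.card_range]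
      refine lt_of_le_of_lt (Polynomial.natDegree_sum_le_of_forall_le _ _ (n := D) fun j hj => ?_) (Nat.lt_succ_self D)
      refine (Polynomial.natDegree_C_mul_X_pow_le _ _).trans ?_
      rw [Finset.mem_range] at hj
      omega
  rw [← he, hz, Polynomial.eval_zero]

theorem PD.ws {e : ℕ} (v v' : A) (y y' : K → A) (hy : PD e y) (hy' : PD e y') (n : ℕ) :
    PD (2 ^ n * e) (fun t => (ws v v' (y t) (y' t) n).1) ∧ PD (2 ^ n * e) (fun t => (ws v v' (y t) (y' t) n).2) := by
  induction n with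
  | zero =>
    rw [pow_zero, one_mul]
    exact ⟨hy, hy'⟩
  | succ n ih =>
    have h1 : 2 ^ (n + 1) * e = 2 ^ n * e + 0 + 2 ^ n * e := by ring
    rw [h1]
    exact ⟨PD.mul (PD.mul ih.2 (PD.const v')) ih.1, PD.mul (PD.mul ih.2 (PD.const v)) ih.1⟩

theorem PD.ex (N : ℕ) (x : A) : PD (N - 1) (fun t : K => ex K N (t • x)) := by
  refine ⟨∑ k ∈ Finset.range N, Polynomial.C (((k.factorial : K)⁻¹) • x ^ k) * Polynomial.X ^ k, ?_, fun t => ?_⟩
  · refine Polynomial.natDegree_sum_le_of_forall_le _ _ (n := N - 1) fun j hj => ?_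
    refine (Polynomial.natDegree_C_mul_X_pow_le _ _).trans ?_
    rw [Finset.mem_range] at hj
    omega
  · rw [map_sum]
    refine Finset.sum_congr rfl fun k _ => ?_
    rw [map_mul, map_pow, ev_C, ev_X, ← map_pow, ← Algebra.commutes, ← Algebra.smul_def, smul_pow, smul_comm]

private theorem pr_mid (N : ℕ) (T : ι → A) (l₁ l₂ : List (ι × K)) (i : ι) (t : K) :
    pr K N T ((l₁ ++ [(i, t)]) ++ l₂) = pr K N T l₁ * ex K N (t • T i) * pr K N T l₂ := by
  rw [pr_append, pr_append]
  congr 2
  simp [pr]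

private theorem pr_li_mid (N : ℕ) (T : ι → A) (l₁ l₂ : List (ι × K)) (i : ι) (t : K) :
    pr K N T (li ((l₁ ++ [(i, t)]) ++ l₂)) =
      pr K N T (li l₂) * (ex K N (t • (-T i)) * pr K N T (li l₁)) := by
  rw [li_append, li_append, pr_append, pr_append]
  congr 2
  simp [pr, li]

/-- The relation `w_(m+1) = v⁻¹` says that `w_m` and `v⁻¹` commute. -/
private theorem ws_comm (v v' y y' : A) (h1 : v * v' = 1) (h2 : v' * v = 1) (h3 : y * y' = 1) (h4 : y' * y = 1) (m : ℕ) :
    (ws v v' y y' (m + 1)).1 = v' ↔ v' * (ws v v' y y' m).1 = (ws v v' y y' m).1 * v' := by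
  obtain ⟨h5, h6⟩ := ws_inv v v' y y' h1 h2 h3 h4 m
  have h7 : (ws v v' y y' (m + 1)).1 = (ws v v' y y' m).2 * v' * (ws v v' y y' m).1 := rfl
  rw [h7]
  constructor
  · intro h
    calc v' * (ws v v' y y' m).1 = ((ws v v' y y' m).1 * (ws v v' y y' m).2) * v' * (ws v v' y y' m).1 := by
          rw [h5, one_mul]
      _ = (ws v v' y y' m).1 * ((ws v v' y y' m).2 * v' * (ws v v' y y' m).1) := by simp only [mul_assoc]
      _ = (ws v v' y y' m).1 * v' := by rw [h]
  · intro h
    calc (ws v v' y y' m).2 * v' * (ws v v' y y' m).1 = (ws v v' y y' m).2 * (v' * (ws v v' y y' m).1) := mul_assoc _ _ _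
      _ = ((ws v v' y y' m).2 * (ws v v' y y' m).1) * v' := by rw [h, mul_assoc]
      _ = v' := by rw [h6, one_mul]

theorem erel_of_int (N m : ℕ) (hN : 1 ≤ N) (hB2 : Big K (2 * N)) (hB : Big K (2 ^ m * (N - 1))) (T : ι → A)
    (hT : ∀ i, T i ^ N = 0) (a : A) (ha : a ^ N = 0)
    (h : ∀ l : List (ι × K), (∀ p ∈ l, ∃ z : ℤ, p.2 = (z : K)) →
      (ws (ex K N a) (ex K N (-a)) (pr K N T l) (pr K N T (li l)) (m + 1)).1 = ex K N (-a)) :
    ERel K N (m + 1) T a := by
  have hv := ex_mul_neg (K := K) N hN hB2 a ha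
  have hv' := ex_neg_mul (K := K) N hN hB2 a ha
  have key : ∀ l₁ : List (ι × K), ∀ l₂ : List (ι × K), (∀ p ∈ l₂, ∃ z : ℤ, p.2 = (z : K)) →
      ex K N (-a) * (ws (ex K N a) (ex K N (-a)) (pr K N T (l₁ ++ l₂)) (pr K N T (li (l₁ ++ l₂))) m).1 =
        (ws (ex K N a) (ex K N (-a)) (pr K N T (l₁ ++ l₂)) (pr K N T (li (l₁ ++ l₂))) m).1 * ex K N (-a) := by
    intro l₁
    induction l₁ using List.reverseRecOn with
    | nil =>
      intro l₂ h₂
      exact (ws_comm _ _ _ _ hv hv' (pr_inv N hN hB2 T hT _) (inv_pr N hN hB2 T hT _) m).1 (h l₂ h₂)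
    | append_singleton l₁ q ih =>
      obtain ⟨i, c⟩ := q
      intro l₂ h₂
      have hP : PD (2 ^ m * (N - 1)) (fun t : K => (ws (ex K N a) (ex K N (-a)) (pr K N T ((l₁ ++ [(i, t)]) ++ l₂))
          (pr K N T (li ((l₁ ++ [(i, t)]) ++ l₂))) m).1) := by
        have h1 : PD (N - 1) (fun t : K => pr K N T ((l₁ ++ [(i, t)]) ++ l₂)) := by
          simp only [pr_mid]
          exact PD.mono (by omega) (PD.mul (PD.mul (PD.const _) (PD.ex N (T i))) (PD.const _))
        have h2 : PD (N - 1) (fun t : K => pr K N T (li ((l₁ ++ [(i, t)]) ++ l₂))) := by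
          simp only [pr_li_mid]
          exact PD.mono (by omega) (PD.mul (PD.const _) (PD.mul (PD.ex N (-T i)) (PD.const _)))
        exact (PD.ws _ _ _ _ h1 h2 m).1
      have hQ : PD (2 ^ m * (N - 1)) (fun t : K => ex K N (-a) * (ws (ex K N a) (ex K N (-a))
          (pr K N T ((l₁ ++ [(i, t)]) ++ l₂)) (pr K N T (li ((l₁ ++ [(i, t)]) ++ l₂))) m).1 +
          (ws (ex K N a) (ex K N (-a)) (pr K N T ((l₁ ++ [(i, t)]) ++ l₂))
          (pr K N T (li ((l₁ ++ [(i, t)]) ++ l₂))) m).1 * (-ex K N (-a))) :=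
        PD.add (PD.mono (by omega) (PD.mul (PD.const _) hP)) (PD.mono (by omega) (PD.mul hP (PD.const _)))
      have hR := PD.zero hB _ hQ (fun z => by
        have h3 := ih ((i, (z : K)) :: l₂) (by
          intro p hp
          rcases List.mem_cons.1 hp with rfl | hp
          · exact ⟨z, rfl⟩
          · exact h₂ p hp)
        have h4 : l₁ ++ (i, (z : K)) :: l₂ = (l₁ ++ [(i, (z : K))]) ++ l₂ := by simp
        rw [h4] at h3
        rw [h3, mul_neg, add_neg_cancel]) c
      rw [mul_neg] at hR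
      exact add_neg_eq_zero.1 hR
  intro l
  have h5 := key l [] (by simp)
  rw [List.append_nil] at h5
  exact (ws_comm _ _ _ _ hv hv' (pr_inv N hN hB2 T hT _) (inv_pr N hN hB2 T hT _) m).2 h5

end Pool.Agent.Helper28.TP
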