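import Pool.Agent.Helper93.TP.Defs2

/-!
# TP-1: dimension of the space of forms
-/

namespace Pool.Agent.Helper93.TP

open MvPolynomial Module

theorem homog_eq_span (σ : Type*) (d : ℕ) :
    homogeneousSubmodule σ ℂ d =
      Submodule.span ℂ (Set.range fun e : {P : σ →₀ ℕ // P.sum (fun _ => id) = d} =>
        (basisMonomials σ ℂ) e.1) := by
  have hdeg : ∀ P : σ →₀ ℕ, P.sum (fun _ => id) = P.degree := fun P => rfl
  apply le_antisymm
  · intro f hf
    rw [mem_homogeneousSubmodule] at hf
    rw [f.as_sum]
    refine Submodule.sum_mem _ fun e he => ?_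
    have h1 : (monomial e (coeff e f) : MvPolynomial σ ℂ) =
        coeff e f • (basisMonomials σ ℂ) e := by
      rw [coe_basisMonomials, smul_monomial, smul_eq_mul, mul_one]
    rw [h1]
    refine Submodule.smul_mem _ _ (Submodule.subset_span ⟨⟨e, ?_⟩, rfl⟩)
    rw [hdeg]
    by_contra h
    exact (mem_support_iff.1 he) (hf.coeff_eq_zero h)
  · rw [Submodule.span_le]
    rintro _ ⟨⟨e, he⟩, rfl⟩
    rw [SetLike.mem_coe, mem_homogeneousSubmodule, coe_basisMonomials]
    rw [hdeg] at he
    exact isHomogeneous_monomial 1 he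

theorem finiteDimensional_homog (σ : Type*) [Fintype σ] (d : ℕ) :
    FiniteDimensional ℂ (homogeneousSubmodule σ ℂ d) := by
  classical
  have : Finite {P : σ →₀ ℕ // P.sum (fun _ => id) = d} :=
    Finite.of_equiv _ (Sym.equivNatSum σ d)
  rw [homog_eq_span]
  exact FiniteDimensional.span_of_finite ℂ (Set.finite_range _)

theorem finrank_homog (σ : Type*) [Fintype σ] (d : ℕ) :
    finrank ℂ (homogeneousSubmodule σ ℂ d) = (Fintype.card σ).multichoose d := by
  classical
  have : Fintype {P : σ →₀ ℕ // P.sum (fun _ => id) = d} :=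
    Fintype.ofEquiv _ (Sym.equivNatSum σ d)
  rw [homog_eq_span, finrank_span_eq_card, ← Fintype.card_congr (Sym.equivNatSum σ d),
    Sym.card_sym_eq_multichoose]
  exact (basisMonomials σ ℂ).linearIndependent.comp Subtype.val Subtype.val_injective

/-- the space of triples of cubic forms is a power of the space of cubic forms -/
noncomputable def T3equiv (σ : Type*) [Fintype σ] :
    T3 σ ≃ₗ[ℂ] (Fin 3 → homogeneousSubmodule σ ℂ 3) where
  toFun := fun f y => ⟨f.1 y, f.2 y (Set.mem_univ y)⟩
  map_add' := fun f g => rfl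
  map_smul' := fun c f => rfl
  invFun := fun g => ⟨fun y => (g y).1, fun y _ => (g y).2⟩
  left_inv := fun f => rfl
  right_inv := fun g => rfl

theorem finiteDimensional_T3 (σ : Type*) [Fintype σ] :
    FiniteDimensional ℂ (T3 σ) := by
  have := finiteDimensional_homog σ 3
  exact Module.Finite.equiv (T3equiv σ).symm

theorem finrank_T3 (σ : Type*) [Fintype σ] :
    finrank ℂ (T3 σ) = 3 * (Fintype.card σ).multichoose 3 := by
  have := finiteDimensional_homog σ 3
  rw [(T3equiv σ).finrank_eq, Module.finrank_pi_fintype, finrank_homog]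
  simp

end Pool.Agent.Helper93.TP
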