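import Pool.Agent.Helper40.TF.Exp
import Pool.Agent.Helper28.TP.Defs

/-!
PROJECT TP (MP_629dac_al), port of TF-1: the truncated exponential over a field in which the integers up to `2 N` are nonzero.
-/

set_option autoImplicit false

namespace Pool.Agent.Helper28.TP

open Finset
open Pool.Agent.Helper40.TF (ex pr li ws ERel ev IsP Path ex_trunc ex_zero)

variable {K A : Type*} [Field K] [Ring A] [Algebra K A]

theorem ex_add (N : ℕ) (hB : Big K (2 * N)) (a b : A) (hc : a * b = b * a) (ha : a ^ N = 0) (hb : b ^ N = 0) (hab : (a + b) ^ N = 0) :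
    ex K N (a + b) = ex K N a * ex K N b := by
  have hpow : ∀ (c : A), c ^ N = 0 → ∀ k, N ≤ k → c ^ k = 0 := by
    intro c hc k hk
    obtain ⟨j, rfl⟩ := Nat.exists_eq_add_of_le hk
    rw [pow_add, hc, zero_mul]
  rw [← ex_trunc N (2 * N) (by omega) (a + b) hab]
  unfold ex
  have h1 : ∀ k, k ∈ range (2 * N) → ((k.factorial : K)⁻¹) • (a + b) ^ k =
      ∑ p ∈ antidiagonal k, (((p.1.factorial : K)⁻¹) * ((p.2.factorial : K)⁻¹)) • (a ^ p.1 * b ^ p.2) := by
    intro k hk
    rw [mem_range] at hk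
    have hcomm : Commute a b := hc
    rw [hcomm.add_pow', smul_sum]
    refine sum_congr rfl fun p hp => ?_
    have hp' : p.1 + p.2 = k := mem_antidiagonal.1 hp
    have h2 : (k.choose p.1 : K) * ((p.1.factorial : K) * (p.2.factorial : K)) = (k.factorial : K) := by
      have h3 := Nat.choose_mul_factorial_mul_factorial (n := k) (k := p.1) (by omega)
      have h4 : k - p.1 = p.2 := by omega
      rw [h4] at h3
      rw [← mul_assoc, ← Nat.cast_mul, ← Nat.cast_mul, h3]
    have f1 : (p.1.factorial : K) ≠ 0 := hB.fac _ (by omega)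
    have f2 : (p.2.factorial : K) ≠ 0 := hB.fac _ (by omega)
    have f3 : (k.factorial : K) ≠ 0 := hB.fac _ (by omega)
    rw [← Nat.cast_smul_eq_nsmul K, smul_smul]
    congr 1
    field_simp
    rw [← h2]
    ring
  rw [sum_congr rfl h1]
  have h4 : ∑ k ∈ range (2 * N), ∑ p ∈ antidiagonal k,
      (((p.1.factorial : K)⁻¹) * ((p.2.factorial : K)⁻¹)) • (a ^ p.1 * b ^ p.2) =
      ∑ p ∈ (range (2 * N) ×ˢ range (2 * N)).filter (fun p => p.1 + p.2 < 2 * N), ∑ _k ∈ ({p.1 + p.2} : Finset ℕ),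
      (((p.1.factorial : K)⁻¹) * ((p.2.factorial : K)⁻¹)) • (a ^ p.1 * b ^ p.2) := by
    apply sum_comm'
    intro k p
    simp only [mem_range, HasAntidiagonal.mem_antidiagonal, mem_singleton, mem_filter, mem_product]
    omega
  rw [h4]
  simp only [sum_singleton]
  rw [sum_mul_sum, ← sum_product']
  symm
  have h5 : ∀ p : ℕ × ℕ, ((p.1.factorial : K)⁻¹) • a ^ p.1 * ((p.2.factorial : K)⁻¹) • b ^ p.2 =
      (((p.1.factorial : K)⁻¹) * ((p.2.factorial : K)⁻¹)) • (a ^ p.1 * b ^ p.2) := by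
    intro p
    rw [smul_mul_smul_comm]
  rw [sum_congr rfl fun p _ => h5 p]
  apply sum_subset
  · intro p hp
    simp only [mem_range, mem_filter, mem_product] at hp ⊢
    omega
  · intro p _ hp
    simp only [mem_range, mem_product, not_and_or, not_lt] at hp
    rcases hp with hp | hp
    · rw [hpow a ha _ hp, zero_mul, smul_zero]
    · rw [hpow b hb _ hp, mul_zero, smul_zero]

theorem ex_mul_neg (N : ℕ) (h : 1 ≤ N) (hB : Big K (2 * N)) (a : A) (ha : a ^ N = 0) : ex K N a * ex K N (-a) = 1 := by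
  have hb : (-a) ^ N = 0 := by
    rw [neg_pow, ha, mul_zero]
  have hz : (a + -a) ^ N = 0 := by
    rw [add_neg_cancel, zero_pow (by omega)]
  rw [← ex_add N hB a (-a) (by simp) ha hb hz, add_neg_cancel, ex_zero N h]

theorem ex_neg_mul (N : ℕ) (h : 1 ≤ N) (hB : Big K (2 * N)) (a : A) (ha : a ^ N = 0) : ex K N (-a) * ex K N a = 1 := by
  have hb : (-a) ^ N = 0 := by
    rw [neg_pow, ha, mul_zero]
  have := ex_mul_neg (K := K) N h hB (-a) hb
  rwa [neg_neg] at this

end Pool.Agent.Helper28.TP
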