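import Mathlib

/-!
PROJECT TP (MP_629dac_al): the additive subgroup spanned by the long words in a family of ring elements.
-/

set_option autoImplicit false

namespace Pool.Agent.Helper28.TP

/-- The additive subgroup generated by the words of length at least `k` in the elements `Y i`. -/
def JJ {R κ : Type*} [Ring R] (Y : κ → R) (k : ℕ) : AddSubgroup R :=
  AddSubgroup.closure {a | ∃ w : List κ, k ≤ w.length ∧ a = (w.map Y).prod}

section

variable {R κ : Type*} [Ring R] (Y : κ → R)

theorem mem_JJ {k : ℕ} (w : List κ) (h : k ≤ w.length) : (w.map Y).prod ∈ JJ Y k :=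
  AddSubgroup.subset_closure ⟨w, h, rfl⟩

theorem one_mem_JJ : (1 : R) ∈ JJ Y 0 := by
  have := mem_JJ Y (k := 0) [] (Nat.zero_le _)
  simpa using this

theorem self_mem_JJ (i : κ) : Y i ∈ JJ Y 1 := by
  have := mem_JJ Y (k := 1) [i] (by simp)
  simpa using this

theorem JJ_anti {k l : ℕ} (h : k ≤ l) : JJ Y l ≤ JJ Y k := by
  apply AddSubgroup.closure_mono
  rintro a ⟨w, hw, rfl⟩
  exact ⟨w, h.trans hw, rfl⟩

theorem JJ_mul {k l : ℕ} {a b : R} (ha : a ∈ JJ Y k) (hb : b ∈ JJ Y l) : a * b ∈ JJ Y (k + l) := by
  induction ha using AddSubgroup.closure_induction with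
  | mem a ha =>
    obtain ⟨w, hw, rfl⟩ := ha
    induction hb using AddSubgroup.closure_induction with
    | mem b hb =>
      obtain ⟨v, hv, rfl⟩ := hb
      rw [← List.prod_append, ← List.map_append]
      exact mem_JJ Y _ (by rw [List.length_append]; omega)
    | zero => rw [mul_zero]; exact zero_mem _
    | add x y _ _ hx hy => rw [mul_add]; exact add_mem hx hy
    | neg x _ hx => rw [mul_neg]; exact neg_mem hx
  | zero => rw [zero_mul]; exact zero_mem _
  | add x y _ _ hx hy => rw [add_mul]; exact add_mem hx hy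
  | neg x _ hx => rw [neg_mul]; exact neg_mem hx

/-- a longer word ends with a word of length `m` -/
theorem JJ_kill {M : Type*} [AddCommGroup M] [Module R M] (W : Submodule R M) (v : M) (m : ℕ)
    (h : ∀ w : List κ, w.length = m → (w.map Y).prod • v ∈ W) (a : R) (ha : a ∈ JJ Y m) : a • v ∈ W := by
  induction ha using AddSubgroup.closure_induction with
  | mem a ha =>
    obtain ⟨w, hw, rfl⟩ := ha
    have h2 := h (w.drop (w.length - m)) (by rw [List.length_drop]; omega)
    have h3 : (w.map Y).prod = ((w.take (w.length - m)).map Y).prod * ((w.drop (w.length - m)).map Y).prod := by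
      rw [← List.prod_append, ← List.map_append, List.take_append_drop]
    rw [h3, mul_smul]
    exact W.smul_mem _ h2
  | zero => rw [zero_smul]; exact zero_mem _
  | add x y _ _ hx hy => rw [add_smul]; exact add_mem hx hy
  | neg x _ hx => rw [neg_smul]; exact neg_mem hx

theorem JJ_list {H : Type*} [Monoid H] (σ : H →* R) (h : ∀ g, σ g - 1 ∈ JJ Y 1) (l : List H) :
    (l.map fun g => σ g - 1).prod ∈ JJ Y l.length := by
  induction l with
  | nil =>
    simpa using one_mem_JJ Y
  | cons g l ih =>
    rw [List.map_cons, List.prod_cons, List.length_cons, Nat.add_comm]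
    exact JJ_mul Y (h g) ih

end

/-- If the `Y` are `σ g - 1` for the generators `g` and their inverses then all `σ g - 1` are in `JJ Y 1`. -/
theorem JJ_group {R H ι : Type*} [Ring R] [Group H] (σ : H →* R) (x : ι → H)
    (hx : Subgroup.closure (Set.range x) = ⊤) (Y : ι × Bool → R) (h1 : ∀ i, Y (i, true) = σ (x i) - 1)
    (h2 : ∀ i, Y (i, false) = σ (x i)⁻¹ - 1) (g : H) : σ g - 1 ∈ JJ Y 1 := by
  have hg : g ∈ Submonoid.closure (Set.range x ∪ (Set.range x)⁻¹) := by
    rw [← Subgroup.closure_toSubmonoid, hx]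
    exact Subgroup.mem_top g
  induction hg using Submonoid.closure_induction with
  | mem g hg =>
    rcases hg with ⟨i, rfl⟩ | hg
    · rw [← h1]
      exact self_mem_JJ Y _
    · obtain ⟨i, hi⟩ := Set.mem_inv.1 hg
      have h3 : g = (x i)⁻¹ := by rw [hi, inv_inv]
      rw [h3, ← h2]
      exact self_mem_JJ Y _
  | one => rw [map_one, sub_self]; exact zero_mem _
  | mul a b _ _ ha hb =>
    have h3 : σ (a * b) - 1 = (σ a - 1) * (σ b - 1) + (σ a - 1) + (σ b - 1) := by
      rw [map_mul]
      noncomm_ring
    rw [h3]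
    exact add_mem (add_mem (JJ_anti Y (by omega) (JJ_mul Y ha hb)) ha) hb

end Pool.Agent.Helper28.TP
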