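import Pool.Agent.Helper39.TF.Nil

/-! Project TP (MP_629dac_al): port of helper39 block J to fields with 3 /= 0. Nil Jordan part. If `(ad e) ^ 3 = 0` and
`ad e ^ 2 * (ad z ^ 2 * ad e ^ 2) ^ m = 0` for all `z` then some `w ≠ 0` has `(ad w) ^ 2 = 0`. -/

namespace Pool.Agent.Helper28.TP

open LieAlgebra
open Pool.Agent.Helper39.TF (xs Nil3 WW pW mem_WW exists_WW pW_apply e_WW)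

variable {K L : Type*} [Field K] [Fact ((3 : K) ≠ 0)] [LieRing L] [LieAlgebra K L]

theorem three_cancel (K : Type*) [Field K] [Fact ((3 : K) ≠ 0)] {V : Type*} [AddCommGroup V] [Module K V]
    {u : V} (h : (3 : ℤ) • u = 0) : u = 0 := by
  have h1 : ((3 : ℤ) : K) • u = 0 := by rw [Int.cast_smul_eq_zsmul]; exact h
  rcases smul_eq_zero.mp h1 with h3 | h3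
  · exact absurd h3 (by
      have := (Fact.out : (3 : K) ≠ 0)
      exact_mod_cast this)
  · exact h3

theorem hsym0 (K : Type*) [Field K] [Fact ((3 : K) ≠ 0)] [LieAlgebra K L] {e : L} (h3 : Nil3 e) (z y : L) :
    ⁅⁅e, ⁅e, z⁆⁆, ⁅e, y⁆⁆ + ⁅⁅e, z⁆, ⁅e, ⁅e, y⁆⁆⁆ = 0 := by
  apply three_cancel K
  have h0 := h3 ⁅z, y⁆
  have e1 : ⁅e, ⁅z, y⁆⁆ = ⁅⁅e, z⁆, y⁆ + ⁅z, ⁅e, y⁆⁆ := leibniz_lie e z y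
  have e2 : ⁅e, ⁅⁅e, z⁆, y⁆⁆ = ⁅⁅e, ⁅e, z⁆⁆, y⁆ + ⁅⁅e, z⁆, ⁅e, y⁆⁆ := leibniz_lie e ⁅e, z⁆ y
  have e3 : ⁅e, ⁅z, ⁅e, y⁆⁆⁆ = ⁅⁅e, z⁆, ⁅e, y⁆⁆ + ⁅z, ⁅e, ⁅e, y⁆⁆⁆ := leibniz_lie e z ⁅e, y⁆
  have e4 : ⁅e, ⁅⁅e, ⁅e, z⁆⁆, y⁆⁆ = ⁅⁅e, ⁅e, ⁅e, z⁆⁆⁆, y⁆ + ⁅⁅e, ⁅e, z⁆⁆, ⁅e, y⁆⁆ :=
    leibniz_lie e ⁅e, ⁅e, z⁆⁆ y
  have e5 : ⁅e, ⁅⁅e, z⁆, ⁅e, y⁆⁆⁆ = ⁅⁅e, ⁅e, z⁆⁆, ⁅e, y⁆⁆ + ⁅⁅e, z⁆, ⁅e, ⁅e, y⁆⁆⁆ :=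
    leibniz_lie e ⁅e, z⁆ ⁅e, y⁆
  have e6 : ⁅e, ⁅z, ⁅e, ⁅e, y⁆⁆⁆⁆ = ⁅⁅e, z⁆, ⁅e, ⁅e, y⁆⁆⁆ + ⁅z, ⁅e, ⁅e, ⁅e, y⁆⁆⁆⁆ :=
    leibniz_lie e z ⁅e, ⁅e, y⁆⁆
  rw [e1, lie_add, e2, e3, lie_add, lie_add, lie_add, e4, e5, e6, h3 z, h3 y, zero_lie,
    lie_zero] at h0
  rw [← h0]
  abel

/-- symmetry of the Jordan product -/
theorem hsym (K : Type*) [Field K] [Fact ((3 : K) ≠ 0)] [LieAlgebra K L] {e : L} (h3 : Nil3 e) (z y : L) :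
    ⁅e, ⁅z, ⁅e, ⁅e, y⁆⁆⁆⁆ = ⁅e, ⁅y, ⁅e, ⁅e, z⁆⁆⁆⁆ := by
  have h := hsym0 K h3 z y
  have h1 : ⁅e, ⁅z, ⁅e, ⁅e, y⁆⁆⁆⁆ = ⁅⁅e, z⁆, ⁅e, ⁅e, y⁆⁆⁆ := by
    rw [leibniz_lie e z, h3 y, lie_zero, add_zero]
  have h2 : ⁅e, ⁅y, ⁅e, ⁅e, z⁆⁆⁆⁆ = ⁅⁅e, y⁆, ⁅e, ⁅e, z⁆⁆⁆ := by
    rw [leibniz_lie e y, h3 z, lie_zero, add_zero]
  rw [h1, h2, ← lie_skew ⁅e, y⁆ ⁅e, ⁅e, z⁆⁆]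
  exact (neg_eq_of_add_eq_zero_right h).symm

theorem hF1 (K : Type*) [Field K] [Fact ((3 : K) ≠ 0)] [LieAlgebra K L] {e : L} (h3 : Nil3 e) (z v : L) :
    ⁅e, ⁅e, ⁅z, ⁅e, v⁆⁆⁆⁆ = ⁅e, ⁅z, ⁅e, ⁅e, v⁆⁆⁆⁆ := by
  -- `A ^ 2 [z, A v] = A ([A z, A v] + [z, A ^ 2 v])`
  have h := hsym0 K h3 z v
  have e3 : ⁅e, ⁅z, ⁅e, v⁆⁆⁆ = ⁅⁅e, z⁆, ⁅e, v⁆⁆ + ⁅z, ⁅e, ⁅e, v⁆⁆⁆ := leibniz_lie e z ⁅e, v⁆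
  have e5 : ⁅e, ⁅⁅e, z⁆, ⁅e, v⁆⁆⁆ = ⁅⁅e, ⁅e, z⁆⁆, ⁅e, v⁆⁆ + ⁅⁅e, z⁆, ⁅e, ⁅e, v⁆⁆⁆ :=
    leibniz_lie e ⁅e, z⁆ ⁅e, v⁆
  rw [e3, lie_add, e5, h, zero_add]

theorem hF2 (K : Type*) [Field K] [Fact ((3 : K) ≠ 0)] [LieAlgebra K L] {e : L} (h3 : Nil3 e) (z v : L) :
    ⁅e, ⁅e, ⁅z, ⁅e, ⁅e, v⁆⁆⁆⁆⁆ = 0 := by
  rw [hF1 K h3, h3 v, lie_zero, lie_zero]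

/-- `(ad (A ^ 2 z)) ^ 2 = A ^ 2 (ad z) ^ 2 A ^ 2` -/
theorem hF3 (K : Type*) [Field K] [Fact ((3 : K) ≠ 0)] [LieAlgebra K L] {e : L} (h3 : Nil3 e) (z v : L) :
    ⁅⁅e, ⁅e, z⁆⁆, ⁅⁅e, ⁅e, z⁆⁆, v⁆⁆ = ⁅e, ⁅e, ⁅z, ⁅z, ⁅e, ⁅e, v⁆⁆⁆⁆⁆⁆ := by
  have hex : ∀ u : L, ⁅⁅e, ⁅e, z⁆⁆, u⁆
      = ⁅e, ⁅e, ⁅z, u⁆⁆⁆ - (2 : ℤ) • ⁅e, ⁅z, ⁅e, u⁆⁆⁆ + ⁅z, ⁅e, ⁅e, u⁆⁆⁆ := by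
    intro u
    rw [lie_lie e ⁅e, z⁆ u, lie_lie e z u, lie_lie e z ⁅e, u⁆, lie_sub]
    abel
  rw [hex v, lie_add, lie_sub, lie_zsmul, hex, hex, hex]
  have r1 : ∀ u : L, ⁅e, ⁅e, ⁅e, u⁆⁆⁆ = 0 := h3
  have r2 : ∀ u : L, ⁅e, ⁅e, ⁅z, ⁅e, ⁅e, u⁆⁆⁆⁆⁆ = 0 := hF2 K h3 z
  have r3 : ∀ u : L, ⁅e, ⁅e, ⁅z, ⁅e, u⁆⁆⁆⁆ = ⁅e, ⁅z, ⁅e, ⁅e, u⁆⁆⁆⁆ := hF1 K h3 z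
  rw [r2 ⁅z, v⁆, r1 ⁅z, v⁆, r3 ⁅z, ⁅e, v⁆⁆, r3 v, r2 v]
  simp only [lie_zero, smul_zero, sub_zero, zero_sub, add_zero]
  abel

section ops

variable {e : L}

/-- multiplication operator `A (ad z)` on `A ^ 2 L` -/
def mW (K : Type*) [Field K] [Fact ((3 : K) ≠ 0)] [LieAlgebra K L] {e : L} (h3 : Nil3 e) (z : L) :
    Module.End K (WW K e) :=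
  (ad K L e * ad K L z).restrict (by
    intro w hw
    obtain ⟨v, rfl⟩ := exists_WW hw
    change ⁅e, ⁅z, ⁅e, ⁅e, v⁆⁆⁆⁆ ∈ WW K e
    rw [← hF1 K h3]
    exact mem_WW K e _)

theorem mW_apply (h3 : Nil3 e) (z : L) (w : WW K e) :
    ((mW K h3 z w : WW K e) : L) = ⁅e, ⁅z, (w : L)⁆⁆ := rfl

theorem eez_WW (h3 : Nil3 e) (z : L) (w : WW K e) : ⁅e, ⁅e, ⁅z, (w : L)⁆⁆⁆ = 0 := by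
  obtain ⟨v, hv⟩ := exists_WW w.2
  rw [hv]
  exact hF2 K h3 z v

/-- the step of the recursion for the multiplication operators -/
theorem mW_step (h3 : Nil3 e) (x z : L) :
    mW K h3 ⁅x, ⁅e, z⁆⁆ = mW K h3 x * mW K h3 z + mW K h3 z * mW K h3 x - pW K e z x := by
  ext w
  change ⁅e, ⁅⁅x, ⁅e, z⁆⁆, (w : L)⁆⁆ = ⁅e, ⁅x, ⁅e, ⁅z, (w : L)⁆⁆⁆⁆ + ⁅e, ⁅z, ⁅e, ⁅x, (w : L)⁆⁆⁆⁆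
    - ⁅e, ⁅e, ⁅z, ⁅x, (w : L)⁆⁆⁆⁆
  rw [lie_lie x ⁅e, z⁆ (w : L), lie_lie e z (w : L), e_WW h3 w, lie_zero, sub_zero,
    lie_lie e z ⁅x, (w : L)⁆, lie_sub, lie_sub]
  abel

theorem pW_step (h3 : Nil3 e) (x z : L) :
    pW K e ⁅x, ⁅e, z⁆⁆ x = mW K h3 x * pW K e z x - pW K e z x * mW K h3 x
      + mW K h3 z * pW K e x x := by
  ext w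
  change ⁅e, ⁅e, ⁅⁅x, ⁅e, z⁆⁆, ⁅x, (w : L)⁆⁆⁆⁆
    = ⁅e, ⁅x, ⁅e, ⁅e, ⁅z, ⁅x, (w : L)⁆⁆⁆⁆⁆⁆ - ⁅e, ⁅e, ⁅z, ⁅x, ⁅e, ⁅x, (w : L)⁆⁆⁆⁆⁆⁆
      + ⁅e, ⁅z, ⁅e, ⁅e, ⁅x, ⁅x, (w : L)⁆⁆⁆⁆⁆⁆
  have h1 : ⁅⁅x, ⁅e, z⁆⁆, ⁅x, (w : L)⁆⁆
      = ⁅x, ⁅e, ⁅z, ⁅x, (w : L)⁆⁆⁆⁆ - ⁅x, ⁅z, ⁅e, ⁅x, (w : L)⁆⁆⁆⁆
        - (⁅e, ⁅z, ⁅x, ⁅x, (w : L)⁆⁆⁆⁆ - ⁅z, ⁅e, ⁅x, ⁅x, (w : L)⁆⁆⁆⁆) := by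
    rw [lie_lie x ⁅e, z⁆ ⁅x, (w : L)⁆, lie_lie e z ⁅x, (w : L)⁆,
      lie_lie e z ⁅x, ⁅x, (w : L)⁆⁆, lie_sub]
  have h2 : ⁅x, ⁅z, ⁅e, ⁅x, (w : L)⁆⁆⁆⁆ = ⁅⁅x, z⁆, ⁅e, ⁅x, (w : L)⁆⁆⁆
      + ⁅z, ⁅x, ⁅e, ⁅x, (w : L)⁆⁆⁆⁆ := leibniz_lie x z _
  have h3' : ⁅e, ⁅e, ⁅⁅x, z⁆, ⁅e, ⁅x, (w : L)⁆⁆⁆⁆⁆ = 0 := eez_WW h3 ⁅x, z⁆ (mW K h3 x w)
  rw [h1, h2, lie_sub, lie_sub, lie_sub, lie_add, lie_sub, lie_sub, lie_sub, lie_add, h3',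
    hF1 K h3 x ⁅z, ⁅x, (w : L)⁆⁆, h3 ⁅z, ⁅x, ⁅x, (w : L)⁆⁆⁆, hF1 K h3 z ⁅x, ⁅x, (w : L)⁆⁆]
  abel

/-- `a` and `P` commute -/
theorem comm_aP (h3 : Nil3 e) (x : L) : Commute (mW K h3 x) (pW K e x x) := by
  change mW K h3 x * pW K e x x = pW K e x x * mW K h3 x
  ext w
  change ⁅e, ⁅x, ⁅e, ⁅e, ⁅x, ⁅x, (w : L)⁆⁆⁆⁆⁆⁆ = ⁅e, ⁅e, ⁅x, ⁅x, ⁅e, ⁅x, (w : L)⁆⁆⁆⁆⁆⁆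
  have h := eez_WW h3 ⁅x, ⁅x, ⁅x, e⁆⁆⁆ w
  have h1 : ⁅⁅x, ⁅x, ⁅x, e⁆⁆⁆, (w : L)⁆
      = (3 : ℤ) • ⁅x, ⁅e, ⁅x, ⁅x, (w : L)⁆⁆⁆⁆ - (3 : ℤ) • ⁅x, ⁅x, ⁅e, ⁅x, (w : L)⁆⁆⁆⁆
        - ⁅e, ⁅x, ⁅x, ⁅x, (w : L)⁆⁆⁆⁆ := by
    rw [lie_lie x ⁅x, ⁅x, e⁆⁆ (w : L), lie_lie x ⁅x, e⁆ (w : L), lie_lie x e (w : L),
      lie_lie x ⁅x, e⁆ ⁅x, (w : L)⁆, lie_lie x e ⁅x, (w : L)⁆, lie_lie x e ⁅x, ⁅x, (w : L)⁆⁆,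
      e_WW h3 w]
    simp only [lie_sub, lie_zero]
    abel
  rw [h1, lie_sub, lie_sub, lie_sub, lie_sub, lie_zsmul, lie_zsmul, lie_zsmul, lie_zsmul,
    h3 ⁅x, ⁅x, ⁅x, (w : L)⁆⁆⁆, sub_zero, hF1 K h3 x ⁅x, ⁅x, (w : L)⁆⁆, ← smul_sub] at h
  exact sub_eq_zero.mp (three_cancel K h)

/-- the multiplication operator depends only on `A ^ 2 z` -/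
theorem mW_congr (h3 : Nil3 e) {z z' : L} (h : ⁅e, ⁅e, z⁆⁆ = ⁅e, ⁅e, z'⁆⁆) :
    mW K h3 z = mW K h3 z' := by
  ext w
  obtain ⟨v, hv⟩ := exists_WW w.2
  rw [mW_apply, mW_apply, hv, hsym K h3 z v, hsym K h3 z' v, h]

end ops

end Pool.Agent.Helper28.TP
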