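import Pool.Agent.Helper39.TF.Nil
import Pool.Agent.Helper28.TP.Jordan
import Pool.Agent.Helper28.TP.Poly

/-! Project TP (MP_629dac_al), port of helper39 block J, part 4, to infinite fields with 3 /= 0: a sandwich from a nil Jordan algebra. -/

namespace Pool.Agent.Helper28.TP

open LieAlgebra Polynomial Finset
open Pool.Agent.Helper39.TF (xs Nil3 WW pW mem_WW exists_WW pW_apply e_WW cf cf_zero cf_big pow_expand ual uhh ual_zero ual_one ual_two uhh_zero uhh_succ upow_eq upow_mem exists_hom pW_pow)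

/-- the coefficient of `t` in `(α + t β) ^ n (u + t v)` -/
theorem first_coeff {K V : Type*} [Field K] [Infinite K] [AddCommGroup V] [Module K V]
    (α β : Module.End K V) (u v : V) (n : ℕ)
    (h : ∀ t : K, ((α + t • β) ^ n) (u + t • v) = 0) :
    cf α β n 1 u + cf α β n 0 v = 0 := by
  let c : ℕ → V := fun j => match j with
    | 0 => cf α β n 0 u
    | (i + 1) => cf α β n (i + 1) u + cf α β n i v
  have hc : ∀ t : K, ∑ j ∈ range (n + 2), t ^ j • c j = 0 := by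
    intro t
    rw [← h t, pow_expand, Finset.sum_range_succ' (fun j => t ^ j • c j) (n + 1)]
    have e3 : ∀ j, t ^ (j + 1) • c (j + 1)
        = t ^ (j + 1) • (cf α β n (j + 1) u) + t ^ (j + 1) • (cf α β n j v) := fun j => by
      rw [← smul_add]
    simp only [e3, Finset.sum_add_distrib]
    have e4 : ∑ j ∈ range (n + 1), t ^ (j + 1) • (cf α β n (j + 1) u)
        + t ^ 0 • (cf α β n 0 u) = ∑ j ∈ range (n + 1), t ^ j • (cf α β n j u) := by
      rw [← Finset.sum_range_succ' (fun j => t ^ j • (cf α β n j u)) (n + 1),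
        Finset.sum_range_succ, cf_big α β n (n + 1) (by omega)]
      simp
    have e5 : (∑ j ∈ range (n + 1), t ^ j • cf α β n j) (u + t • v)
        = ∑ j ∈ range (n + 1), t ^ j • (cf α β n j u)
          + ∑ j ∈ range (n + 1), t ^ (j + 1) • (cf α β n j v) := by
      rw [LinearMap.sum_apply, ← Finset.sum_add_distrib]
      refine Finset.sum_congr rfl fun j _ => ?_
      rw [LinearMap.smul_apply, map_add, map_smul, smul_add, smul_smul, pow_succ]
    rw [e5, ← e4]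
    change _ + t ^ 0 • (cf α β n 0 u) = _
    abel
  exact coeff_zero (K := K) (n + 2) c (fun t _ => hc t) 1 (by omega)


variable {K L : Type*} [Field K] [Fact ((3 : K) ≠ 0)] [LieRing L] [LieAlgebra K L] {e : L}

theorem rep (h3 : Nil3 e) (x : L) (f : (ℤ[X])[X] →+* Module.End K (WW K e))
    (fa : f (C X) = mW K h3 x) (fP : f X = pW K e x x) (k : ℕ) :
    mW K h3 (xs e x k) = f (ual (k + 1)) ∧
      pW K e (xs e x k) x = f (ual k * X) := by
  induction k with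
  | zero =>
    constructor
    · change mW K h3 x = f (ual 1)
      rw [ual_one, fa]
    · change pW K e x x = _
      rw [ual_zero, one_mul, fP]
  | succ k ih =>
    obtain ⟨i1, i2⟩ := ih
    constructor
    · change mW K h3 ⁅x, ⁅e, xs e x k⁆⁆ = _
      rw [mW_step, i1, i2, ← fa, ← map_mul, ← map_mul, ← map_add, ← map_sub]
      congr 1
      rw [show k + 1 + 1 = k + 2 from rfl, ual_two]
      ring
    · change pW K e ⁅x, ⁅e, xs e x k⁆⁆ x = _
      rw [pW_step h3, i1, i2, ← fa, ← fP, ← map_mul, ← map_mul, ← map_mul, ← map_sub, ← map_add]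
      congr 1
      ring

theorem pow_base (h3 : Nil3 e) (x : L) (k : ℕ) :
    ((((mW K h3 x) ^ k) ⟨⁅e, ⁅e, x⁆⁆, mem_WW K e x⟩ : WW K e) : L) = ⁅e, ⁅e, xs e x k⁆⁆ := by
  induction k with
  | zero => rfl
  | succ k ih =>
    rw [pow_succ', Module.End.mul_apply, mW_apply, ih]
    change _ = ⁅e, ⁅e, ⁅x, ⁅e, xs e x k⁆⁆⁆⁆
    rw [hF1 K h3]

theorem key (h3 : Nil3 e) (x : L) (k : ℕ) :
    pW K e (xs e x k) (xs e x k) = (pW K e x x) ^ (k + 1) := by
  obtain ⟨f, fa, fP⟩ := exists_hom (mW K h3 x) (pW K e x x) (comm_aP h3 x)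
  have r1 := (rep h3 x f fa fP k).1
  have r2 := (rep h3 x f fa fP (2 * k + 1)).1
  have h1 := mW_step (K := K) h3 (xs e x k) (xs e x k)
  have h2 : mW K h3 ⁅xs e x k, ⁅e, xs e x k⁆⁆ = mW K h3 (xs e x (2 * k + 1)) := by
    apply mW_congr
    rw [hF1 K h3, ← pow_base (K := K) h3 x (2 * k + 1)]
    have h4 : ⁅e, ⁅xs e x k, ⁅e, ⁅e, xs e x k⁆⁆⁆⁆
        = ((mW K h3 (xs e x k) (((mW K h3 x) ^ k) ⟨⁅e, ⁅e, x⁆⁆, mem_WW K e x⟩) : WW K e) : L) := by
      rw [mW_apply, pow_base]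
    have h5 : mW K h3 (xs e x k) * (mW K h3 x) ^ k = (mW K h3 x) ^ k * mW K h3 (xs e x k) := by
      rw [r1, ← fa, ← map_pow, ← map_mul, ← map_mul, mul_comm]
    have h6 : mW K h3 (xs e x k) ⟨⁅e, ⁅e, x⁆⁆, mem_WW K e x⟩
        = ((mW K h3 x) ^ (k + 1)) ⟨⁅e, ⁅e, x⁆⁆, mem_WW K e x⟩ := by
      apply Subtype.ext
      rw [mW_apply, pow_succ', Module.End.mul_apply, mW_apply, pow_base]
      exact hsym K h3 _ _
    rw [h4, ← Module.End.mul_apply, h5, Module.End.mul_apply, h6, ← Module.End.mul_apply,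
      ← pow_add, show k + (k + 1) = 2 * k + 1 by ring]
  rw [h2, r1, r2, ← map_mul, ← map_add] at h1
  have h7 : pW K e (xs e x k) (xs e x k)
      = f (ual (k + 1) * ual (k + 1)
          + ual (k + 1) * ual (k + 1))
        - f (ual (2 * k + 1 + 1)) := by
    rw [h1, sub_sub_cancel]
  rw [h7, ← map_sub, ← fP, ← map_pow]
  congr 1
  rw [upow_eq (k + 1), show 2 * (k + 1) = 2 * k + 1 + 1 by ring]
  ring

theorem pow_base' (h3 : Nil3 e) (x : L) (k : ℕ) :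
    ((ad K L e * ad K L x) ^ k) ⁅e, ⁅e, x⁆⁆ = ⁅e, ⁅e, xs e x k⁆⁆ := by
  induction k with
  | zero => rfl
  | succ k ih =>
    rw [pow_succ', Module.End.mul_apply, ih]
    change ⁅e, ⁅x, ⁅e, ⁅e, xs e x k⁆⁆⁆⁆ = ⁅e, ⁅e, ⁅x, ⁅e, xs e x k⁆⁆⁆⁆
    rw [hF1 K h3]

theorem polar_hh (h3 : Nil3 e) (x y : L) (f : (ℤ[X])[X] →+* Module.End K (WW K e))
    (fa : f (C X) = mW K h3 x) (fP : f X = pW K e x x) (n : ℕ) :
    cf (ad K L e * ad K L x) (ad K L e * ad K L y) n 1 ⁅e, ⁅e, x⁆⁆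
      + cf (ad K L e * ad K L x) (ad K L e * ad K L y) n 0 ⁅e, ⁅e, y⁆⁆
      = ((f (uhh n) ⟨⁅e, ⁅e, y⁆⁆, mem_WW K e y⟩ : WW K e) : L) := by
  induction n with
  | zero =>
    rw [uhh_zero, map_one]
    change (0 : Module.End K L) ⁅e, ⁅e, x⁆⁆ + (1 : Module.End K L) ⁅e, ⁅e, y⁆⁆ = ⁅e, ⁅e, y⁆⁆
    rw [LinearMap.zero_apply, zero_add, Module.End.one_apply]
  | succ n ih =>
    have r1 := (rep h3 x f fa fP n).1
    change (ad K L e * ad K L x * cf (ad K L e * ad K L x) (ad K L e * ad K L y) n 1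
        + ad K L e * ad K L y * cf (ad K L e * ad K L x) (ad K L e * ad K L y) n 0) ⁅e, ⁅e, x⁆⁆
      + (ad K L e * ad K L x * cf (ad K L e * ad K L x) (ad K L e * ad K L y) n 0) ⁅e, ⁅e, y⁆⁆ = _
    have hr : ((f (uhh (n + 1)) ⟨⁅e, ⁅e, y⁆⁆, mem_WW K e y⟩ : WW K e) : L)
        = ⁅e, ⁅xs e x n, ⁅e, ⁅e, y⁆⁆⁆⁆
          + ⁅e, ⁅x, ((f (uhh n) ⟨⁅e, ⁅e, y⁆⁆, mem_WW K e y⟩ : WW K e) : L)⁆⁆ := by
      rw [uhh_succ, map_add, map_mul, fa, ← r1]
      rfl
    rw [hr, ← ih, lie_add, lie_add, hsym K h3 (xs e x n) y,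
      ← pow_base' (K := K) h3 x n, ← cf_zero (ad K L e * ad K L x) (ad K L e * ad K L y)]
    rw [LinearMap.add_apply]
    simp only [Module.End.mul_apply, LieAlgebra.ad_apply]
    abel

theorem deriv_zero [Infinite K] (h3 : Nil3 e) (n : ℕ) (h : ∀ x : L, ⁅e, ⁅e, xs e x n⁆⁆ = 0) (x : L) :
    (pW K e x x) ^ n = 0 := by
  obtain ⟨f, fa, fP⟩ := exists_hom (mW K h3 x) (pW K e x x) (comm_aP h3 x)
  have h1 : f (uhh n) = 0 := by
    ext w
    obtain ⟨y, hy⟩ := exists_WW w.2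
    have hw : w = ⟨⁅e, ⁅e, y⁆⁆, mem_WW K e y⟩ := Subtype.ext hy
    rw [hw, ← polar_hh h3 x y f fa fP n]
    have := first_coeff (K := K) (ad K L e * ad K L x) (ad K L e * ad K L y) ⁅e, ⁅e, x⁆⁆
      ⁅e, ⁅e, y⁆⁆ n (fun t => by
        have h2 := pow_base' (K := K) h3 (x + t • y) n
        rw [h (x + t • y)] at h2
        have e1 : ad K L e * ad K L x + t • (ad K L e * ad K L y)
            = ad K L e * ad K L (x + t • y) := by
          rw [map_add, map_smul, mul_add, mul_smul_comm]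
        have e2 : ⁅e, ⁅e, x⁆⁆ + t • ⁅e, ⁅e, y⁆⁆ = ⁅e, ⁅e, x + t • y⁆⁆ := by
          rw [lie_add, lie_add, lie_smul, lie_smul]
        rw [e1, e2]
        exact h2)
    rw [this]
    rfl
  have h2 : f (ual (n + 1)) = 0 := by
    rw [← (rep h3 x f fa fP n).1]
    ext w
    obtain ⟨y, hy⟩ := exists_WW w.2
    rw [mW_apply, hy, hsym K h3, h x, lie_zero, lie_zero]
    rfl
  have h4 : f (uhh (n + 1)) = 0 := by
    rw [uhh_succ, map_add, map_mul, h1, h2, mul_zero, add_zero]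
  obtain ⟨u, v, huv⟩ := upow_mem n
  rw [← fP, ← map_pow, huv, map_add, map_mul, map_mul, h1, h4, mul_zero, mul_zero, add_zero]

theorem sandwich_of_pow (h3 : Nil3 e) (x : L) (k : ℕ) (h : (pW K e x x) ^ (k + 1) = 0) :
    ad K L ⁅e, ⁅e, xs e x k⁆⁆ * ad K L ⁅e, ⁅e, xs e x k⁆⁆ = 0 := by
  ext v
  change ⁅⁅e, ⁅e, xs e x k⁆⁆, ⁅⁅e, ⁅e, xs e x k⁆⁆, v⁆⁆ = 0
  rw [hF3 K h3]
  have h1 : ⁅e, ⁅e, ⁅xs e x k, ⁅xs e x k, ⁅e, ⁅e, v⁆⁆⁆⁆⁆⁆
      = ((pW K e (xs e x k) (xs e x k) ⟨⁅e, ⁅e, v⁆⁆, mem_WW K e v⟩ : WW K e) : L) := rfl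
  rw [h1, key h3, h]
  rfl

/-- **Block J.** -/
theorem sandwich_of_nil [Infinite K] (e : L) (he : e ≠ 0) (h3 : ad K L e ^ 3 = 0) (m : ℕ)
    (h : ∀ z : L, ad K L e ^ 2 * (ad K L z ^ 2 * ad K L e ^ 2) ^ m = 0) :
    ∃ w : L, w ≠ 0 ∧ ad K L w * ad K L w = 0 := by
  by_contra hno
  push Not at hno
  have hs : ∀ w : L, ad K L w * ad K L w = 0 → w = 0 := fun w hw => by
    by_contra hw0
    exact hno w hw0 hw
  have hN : Nil3 e := fun v => by
    have := LinearMap.congr_fun h3 v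
    rw [pow_succ, pow_two] at this
    exact this
  have hdesc : ∀ n : ℕ, (∀ x : L, ⁅e, ⁅e, xs e x n⁆⁆ = 0) → False := by
    intro n
    induction n with
    | zero =>
      intro h0
      exact he (hs e (LinearMap.ext fun x => h0 x))
    | succ n ih =>
      intro h1
      exact ih fun x => hs _ (sandwich_of_pow (K := K) hN x n (deriv_zero hN (n + 1) h1 x))
  have hP : ∀ x : L, (pW K e x x) ^ m = 0 := by
    intro x
    ext w
    obtain ⟨y, hy⟩ := exists_WW w.2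
    have hw : w = ⟨⁅e, ⁅e, y⁆⁆, mem_WW K e y⟩ := Subtype.ext hy
    rw [hw, pW_pow, h x]
    rfl
  rcases m with _ | k
  · apply he
    apply hs
    have := h 0
    rw [pow_zero, mul_one, pow_two] at this
    exact this
  · exact hdesc k fun x => hs _ (sandwich_of_pow (K := K) hN x k (hP x))

end Pool.Agent.Helper28.TP
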