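import Pool.Agent.Helper40.TF.Orbit
import Pool.Agent.Helper28.TP.Orbit
import Pool.Agent.Helper28.TP.AdExp

/-!
PROJECT TP (MP_629dac_al), port of TF-7 to infinite fields. Every element is the velocity of a polynomial curve.

`path_orbit`: `c = μ • pr l₀ (X i)`, `l t = l₀ ++ [(i, t * μ)] ++ li l₀`; with `u = pr l₀`, `u' = pr (li l₀)`: `pr (l t) = u ex ((t μ) • ad (X i)) u' = ex (u ((t μ) • ad (X i)) u') = ex (t • ad c)` (`ex_conj`, `ad_pr`), the same for `li (l t)`
(`li (l t) = l₀ ++ [(i, - (t μ))] ++ li l₀`): `ex (- t • ad c)`. `m = 0`, and `P t = ∑_{3 ≤ k < N} t ^ (k-3) • ((k!)⁻¹ • ad c ^ k)` is `IsP`; if `N ≤ 2` then `(ad c) ^ N = 0`, so the terms with `k = 1, 2` which are missing in `ex` vanish.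
(It is convenient to replace `N` by `N + 3`: `ex_trunc`.)
`path_add`: lists `l t ++ l' t`: `(1 + t c + t² (c²/2 + m) + t³ P)(1 + t c' + t² (c'²/2 + m') + t³ P') = 1 + t (c + c') + t² ((c + c')²/2 + m + m' + ½ [c, c']) + t³ (..)`, as `c²/2 + c'²/2 + c c' = (c + c')²/2 + (c c' - c' c)/2`; new `m` is
`m + m' + ½ ⁅c, c'⁆`. Inverse: `li (l t ++ l' t) = li (l' t) ++ li (l t)`: `(1 - t c' + t² (c'²/2 - m') + ..)(1 - t c + t² (c²/2 - m) + ..)`: second order `c²/2 + c'²/2 + c' c - m - m' = (c + c')²/2 - (m + m' + ½ ⁅c, c'⁆)`.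
The remainders are `IsP` (`IsP.mul`, `IsP.add`, `IsP.pow_smul`, `IsP.const`).
`path_all`: `orbit_span` and `Submodule.span_induction` (scalar multiples: do the induction on finite sums: write an element of the span as a finite sum of `μ • y`, `Submodule.mem_span_iff_exists_finset_subset`/`Finsupp`; or prove `path_smul`:
reparametrise `t ↦ μ t`: `l (μ t)`, `c ↦ μ c`, `m ↦ μ² m`).
-/

set_option autoImplicit false

namespace Pool.Agent.Helper28.TP

open Finset LieAlgebra
open Pool.Agent.Helper40.TF (ex pr li ws ERel ev IsP Path ex_trunc ex_conj)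

variable {K L ι : Type*} [Field K] [LieRing L] [LieAlgebra K L]

private theorem isP_lin3 {A : Type*} [Ring A] [Algebra K A] (N : ℕ) (D : A) :
    IsP (fun t : K => ∑ k ∈ range N, t ^ k • ((((k + 3).factorial : K)⁻¹) • D ^ (k + 3))) :=
  ⟨N, fun k => (((k + 3).factorial : K)⁻¹) • D ^ (k + 3), fun _ => rfl⟩

private theorem ex_path {A : Type*} [Ring A] [Algebra K A] (N : ℕ) (D : A) (hD : D ^ N = 0) (t : K) :
    ex K N (t • D) = 1 + t • D + t ^ 2 • ((2 : K)⁻¹ • D ^ 2) +
      t ^ 3 • ∑ k ∈ range N, t ^ k • ((((k + 3).factorial : K)⁻¹) • D ^ (k + 3)) := by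
  have h1 : (t • D) ^ N = 0 := by rw [smul_pow, hD, smul_zero]
  rw [← ex_trunc N (N + 3) (by omega) (t • D) h1]
  have h2 : ex K (N + 3) (t • D) = ∑ k ∈ range (N + 3), (((k.factorial : K)⁻¹) • (t • D) ^ k) := rfl
  rw [h2, Finset.sum_range_succ', Finset.sum_range_succ', Finset.sum_range_succ']
  have h3 : ∑ k ∈ range N, (((k + 1 + 1 + 1).factorial : K)⁻¹) • (t • D) ^ (k + 1 + 1 + 1) =
      t ^ 3 • ∑ k ∈ range N, t ^ k • ((((k + 3).factorial : K)⁻¹) • D ^ (k + 3)) := by
    rw [Finset.smul_sum]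
    refine Finset.sum_congr rfl fun k _ => ?_
    have e : k + 1 + 1 + 1 = k + 3 := by ring
    rw [e, smul_pow, smul_smul, smul_smul, smul_smul]
    congr 1
    ring
  rw [h3]
  simp only [zero_add, pow_one, pow_zero, Nat.factorial_zero, Nat.factorial_one, Nat.cast_one, inv_one, one_smul,
    smul_pow]
  have h4 : (((1 + 1).factorial : ℕ) : K) = 2 := by norm_num [Nat.factorial]
  rw [h4]
  have h5 : (1 + 1 : ℕ) = 2 := rfl
  rw [h5]
  module

private theorem prod4 {A : Type*} [Ring A] [Algebra K A] (t : K) (c c' q q' P P' : A) :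
    (1 + t • c + t ^ 2 • q + t ^ 3 • P) * (1 + t • c' + t ^ 2 • q' + t ^ 3 • P') =
      1 + t • (c + c') + t ^ 2 • (q + q' + c * c') +
        t ^ 3 • ((P + P') + (c * q' + q * c') + t ^ 1 • (c * P' + P * c' + q * q') + t ^ 2 • (q * P' + P * q') +
          t ^ 3 • (P * P')) := by
  simp only [mul_add, add_mul, mul_one, one_mul, smul_mul_assoc, mul_smul_comm]
  module

private theorem isP4 {A : Type*} [Ring A] [Algebra K A] (c c' q q' : A) (P P' : K → A) (hP : IsP P) (hP' : IsP P') :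
    IsP (fun t => (P t + P' t) + (c * q' + q * c') + t ^ 1 • (c * P' t + P t * c' + q * q') +
      t ^ 2 • (q * P' t + P t * q') + t ^ 3 • (P t * P' t)) := by
  have h1 := IsP.add _ _ (IsP.add _ _ hP hP') (IsP.const (K := K) (c * q' + q * c'))
  have h2 := IsP.add _ _ (IsP.add _ _ (IsP.mul _ _ (IsP.const (K := K) c) hP') (IsP.mul _ _ hP (IsP.const (K := K) c')))
    (IsP.const (K := K) (q * q'))
  have h3 := IsP.add _ _ (IsP.mul _ _ (IsP.const (K := K) q) hP') (IsP.mul _ _ hP (IsP.const (K := K) q'))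
  have h4 := IsP.mul _ _ hP hP'
  exact IsP.add _ _ (IsP.add _ _ (IsP.add _ _ h1 (IsP.pow_smul 1 _ h2)) (IsP.pow_smul 2 _ h3)) (IsP.pow_smul 3 _ h4)

private theorem pr_single {A : Type*} [Ring A] [Algebra K A] (N : ℕ) (T : ι → A) (i : ι) (t : K) :
    pr K N T [(i, t)] = ex K N (t • T i) := by
  simp [pr]

private theorem li_single (i : ι) (t : K) : li [(i, t)] = [(i, -t)] := by
  simp [li]

theorem path_orbit (N : ℕ) (hN : 1 ≤ N) (hB : Big K (2 * N)) (X : ι → L) (hX : ∀ i, ad K L (X i) ^ N = 0) (l₀ : List (ι × K)) (i : ι) :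
    Path K N X (pr K N (fun i => ad K L (X i)) l₀ (X i)) := by
  have huu := pr_inv N hN hB (fun i => ad K L (X i)) hX l₀
  have huu' := inv_pr N hN hB (fun i => ad K L (X i)) hX l₀
  have hc := ad_pr N hN hB X hX l₀ (X i)
  set u := pr K N (fun i => ad K L (X i)) l₀ with hu
  set u' := pr K N (fun i => ad K L (X i)) (li l₀) with hu'
  set D := ad K L (u (X i)) with hDdef
  have hpow : ∀ k : ℕ, (u * ad K L (X i) * u') ^ k * u = u * ad K L (X i) ^ k := by
    intro k
    induction k with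
    | zero => simp
    | succ k ih =>
      rw [pow_succ, pow_succ]
      calc (u * ad K L (X i) * u') ^ k * (u * ad K L (X i) * u') * u
          = (u * ad K L (X i) * u') ^ k * u * ad K L (X i) * (u' * u) := by simp only [mul_assoc]
        _ = u * (ad K L (X i) ^ k * ad K L (X i)) := by rw [ih, huu', mul_one, mul_assoc]
  have hD : D ^ N = 0 := by
    have h1 := hpow N
    rw [hX i, mul_zero] at h1
    rw [hc]
    calc (u * ad K L (X i) * u') ^ N = (u * ad K L (X i) * u') ^ N * (u * u') := by rw [huu, mul_one]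
      _ = (u * ad K L (X i) * u') ^ N * u * u' := (mul_assoc _ _ _).symm
      _ = 0 := by rw [h1, zero_mul]
  have hnD : (-D) ^ N = 0 := by
    rw [neg_pow, hD, mul_zero]
  have key : ∀ t : K, u * ex K N (t • ad K L (X i)) * u' = ex K N (t • D) := by
    intro t
    rw [← ex_conj N u u' _ huu huu', mul_smul_comm, smul_mul_assoc, hc]
  refine ⟨fun t => l₀ ++ ([(i, t)] ++ li l₀), 0,
    fun t => ∑ k ∈ range N, t ^ k • ((((k + 3).factorial : K)⁻¹) • D ^ (k + 3)),
    fun t => ∑ k ∈ range N, t ^ k • ((((k + 3).factorial : K)⁻¹) • (-D) ^ (k + 3)),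
    isP_lin3 N D, isP_lin3 N (-D), ?_, ?_⟩
  · intro t
    change pr K N (fun i => ad K L (X i)) (l₀ ++ ([(i, t)] ++ li l₀)) = _
    rw [pr_append, pr_append, pr_single, ← hu, ← hu', ← mul_assoc, key t, ex_path N D hD t, map_zero, add_zero]
  · intro t
    change pr K N (fun i => ad K L (X i)) (li (l₀ ++ ([(i, t)] ++ li l₀))) = _
    rw [li_append, li_append, li_li, li_single, pr_append, pr_append, pr_single, ← hu, ← hu', key (-t)]
    have e : (-t) • D = t • (-D) := by rw [neg_smul, smul_neg]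
    rw [e, ex_path N (-D) hnD t, map_zero, sub_zero, smul_neg, neg_sq, ← sub_eq_add_neg]

theorem path_smul (N : ℕ) (X : ι → L) (c : L) (hc : Path K N X c) (μ : K) : Path K N X (μ • c) := by
  obtain ⟨l, m, P, P', hP, hP', h1, h2⟩ := hc
  have hQ : ∀ (Q : K → Module.End K L), IsP Q → IsP (fun t => μ ^ 3 • Q (μ * t)) := by
    intro Q hQ
    have h := IsP.smul (μ ^ 3) _ (IsP.comp_pow μ 1 Q hQ)
    simpa only [pow_one] using h
  refine ⟨fun t => l (μ * t), μ ^ 2 • m, fun t => μ ^ 3 • P (μ * t), fun t => μ ^ 3 • P' (μ * t), hQ P hP,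
    hQ P' hP', ?_, ?_⟩
  · intro t
    rw [h1 (μ * t), map_smul, map_smul, smul_pow]
    module
  · intro t
    rw [h2 (μ * t), map_smul, map_smul, smul_pow]
    module

theorem path_add (h20 : (2 : K) ≠ 0) (N : ℕ) (X : ι → L) (c c' : L) (hc : Path K N X c) (hc' : Path K N X c') :
    Path K N X (c + c') := by
  obtain ⟨l, m, P, Q, hP, hQ, h1, h2⟩ := hc
  obtain ⟨l', m', P', Q', hP', hQ', h1', h2'⟩ := hc'
  have hh : (2 : K)⁻¹ + (2 : K)⁻¹ = 1 := by
    rw [← two_mul, mul_inv_cancel₀ h20]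
  set C := ad K L c with hC
  set C' := ad K L c' with hC'
  have hbr : ad K L ⁅c, c'⁆ = C * C' - C' * C := by
    ext x
    simp [hC, hC']
  refine ⟨fun t => l t ++ l' t, m + m' + (2 : K)⁻¹ • ⁅c, c'⁆, _, _,
    isP4 C C' ((2 : K)⁻¹ • C ^ 2 + ad K L m) ((2 : K)⁻¹ • C' ^ 2 + ad K L m') P P' hP hP',
    isP4 (-C') (-C) ((2 : K)⁻¹ • C' ^ 2 - ad K L m') ((2 : K)⁻¹ • C ^ 2 - ad K L m) Q' Q hQ' hQ, ?_, ?_⟩
  · intro t
    change pr K N (fun i => ad K L (X i)) (l t ++ l' t) = _
    rw [pr_append, h1, h1']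
    refine (prod4 t C C' _ _ (P t) (P' t)).trans ?_
    congr 1
    rw [map_add, map_add, map_add, map_smul, hbr, ← hC, ← hC']
    congr 2
    simp only [sq, mul_add, add_mul]
    generalize (2 : K)⁻¹ = h at hh ⊢
    have e3 : C * C' = h • (C * C') + h • (C * C') := by rw [← add_smul, hh, one_smul]
    linear_combination (norm := module) e3
  · intro t
    change pr K N (fun i => ad K L (X i)) (li (l t ++ l' t)) = _
    have e1 : ∀ (Z : Module.End K L), (1 : Module.End K L) - t • Z = 1 + t • (-Z) := by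
      intro Z
      rw [smul_neg, sub_eq_add_neg]
    rw [li_append, pr_append, h2, h2', e1, e1, e1]
    refine (prod4 t (-C') (-C) _ _ (Q' t) (Q t)).trans ?_
    congr 1
    rw [map_add, map_add, map_add, map_smul, hbr, ← hC, ← hC']
    have e2 : -C' + -C = -(C + C') := by abel
    rw [e2]
    congr 2
    simp only [sq, mul_add, add_mul, neg_mul, mul_neg, neg_neg]
    generalize (2 : K)⁻¹ = h at hh ⊢
    have e3 : C' * C = h • (C' * C) + h • (C' * C) := by rw [← add_smul, hh, one_smul]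
    linear_combination (norm := module) e3

theorem path_all [Infinite K] (N : ℕ) (hN : 1 ≤ N) (hB : Big K (2 * N)) (X : ι → L) (hX : ∀ i, ad K L (X i) ^ N = 0)
    (hg : LieSubalgebra.lieSpan K L (Set.range X) = ⊤) (c : L) : Path K N X c := by
  have hc : c ∈ Submodule.span K {y : L | ∃ (l : List (ι × K)) (i : ι), y = pr K N (fun i => ad K L (X i)) l (X i)} := by
    rw [orbit_span N hN X hX hg]
    exact Submodule.mem_top
  induction hc using Submodule.span_induction with
  | mem y hy =>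
    obtain ⟨l, i, rfl⟩ := hy
    exact path_orbit N hN hB X hX l i
  | zero =>
    refine ⟨fun _ => [], 0, fun _ => 0, fun _ => 0, IsP.const 0, IsP.const 0, fun t => ?_, fun t => ?_⟩
    · simp [pr]
    · simp [pr, li]
  | add x y _ _ hx hy => exact path_add (hB.two (by omega)) N X x y hx hy
  | smul a x _ hx => exact path_smul N X x hx a

end Pool.Agent.Helper28.TP
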