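import Pool.Agent.Helper40.TF.Top
import Pool.Agent.Helper40.TF.Low
import Pool.Agent.Helper28.TP.PathAll
import Pool.Agent.Helper28.TP.Limit
import Pool.Agent.Helper28.TP.VPoly

/-!
PROJECT TP (MP_629dac_al), port of TF-13 to infinite fields with Big K (3 * (N - 1)). The nil identity.

Write `T j = ad (X j)`, `E = ad (X i)`, `F = E ^ M ≠ 0`, `E ^ (M+1) = 0`, `M ≥ 2`. Choose `c` with `F c ≠ 0`. By `limit` (with `path_all`) for every `s`: `X i + lim s` is Engel, `lim s = s F g₁ + s² F g₂` with `g₁ = -((M-1)!)⁻¹ c`, `g₂ = if M = 2 then -4⁻¹ ⁅c, ⁅X i, c⁆⁆ else 0`.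
If `F g₂ = 0` take `δ = 1`, `e = F g₁ ≠ 0`; otherwise `δ = 2`, `e = F g₂ ≠ 0`. `(ad e) ^ 3 = 0` by `trick_cube`. `vpoly` gives `V, V'`. Put `T₀ = 2⁻¹ (ad e)²`, `D = 2 δ`.
For a list `l`, `y = pr l`, `y' = pr (li l)`: `(ws V V' (C y) (C y') n).1 = V'` because all evaluations agree (`ws_map` for `ev K s`, `ev_C`, `ev_inj`, and the Engel relation of `X i + lim s`). `top_coeff`: `T₀ (y' T₀ y T₀)^(2^(n-1)) = 0`.
Now let `z : L` and take a path of `z`: `y t = pr (l t) = 1 + t z + t² (z²/2 + m) + t³ P t`, `y' t = pr (li (l t)) = 1 - t z + t² (z²/2 - m) + t³ P' t`. With `IsP.exists_poly` there are polynomials `Y, Y'` over `End L` with `ev t Y = y t`, `ev t Y' = y' t` and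
coefficients `1, ± ad z, (ad z)²/2 ± ad m` (build them as `1 + X z + X² (..) + X³ P`). `C T₀ * (Y' * C T₀ * Y * C T₀) ^ (2^(n-1)) = 0` by `ev_inj`. Hypotheses of `low_coeff`: `T₀ 1 T₀ = 4⁻¹ (ad e)^4 = 0`; `T₀ (ad g) T₀ = 0` for all `g` (`trick_mid` for `X := e`, `M := 2`,
`(ad e)^3 = 0`); `T₀ Y_2 T₀ = T₀ (z²/2) T₀`. So `T₀ ((z²/2) T₀)^(2 * 2^(n-1)) = 0`, `2 * 2^(n-1) = 2^n`; multiply by the powers of `2`.
-/

set_option autoImplicit false

namespace Pool.Agent.Helper28.TP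

open Finset LieAlgebra
open Pool.Agent.Helper40.TF (ex pr li ws ERel ev IsP Path lim ex_trunc ev_C ev_X ws_map top_coeff low_coeff)

variable {K L ι : Type*} [Field K] [LieRing L] [LieAlgebra K L]

private theorem nl_low (e : L) (q : Module.End K L)
    (hq : ad K L e ^ 2 * q * ad K L e ^ 2 = 0) :
    ((2 : K)⁻¹ • ad K L e ^ 2) * q * ((2 : K)⁻¹ • ad K L e ^ 2) = 0 := by
  rw [smul_mul_assoc, smul_mul_assoc, mul_smul_comm, hq, smul_zero, smul_zero]

theorem nil_identity [Infinite K] (N : ℕ) (hN : 1 ≤ N) (hB : Big K (3 * (N - 1))) (n : ℕ) (hn : 2 ≤ n) (X : ι → L) (hX : ∀ i, ad K L (X i) ^ N = 0)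
    (hg : LieSubalgebra.lieSpan K L (Set.range X) = ⊤)
    (hE : ∀ i, ERel K N n (fun i => ad K L (X i)) (ad K L (X i))) (i : ι) (M : ℕ) (hM : 2 ≤ M)
    (h0 : ad K L (X i) ^ (M + 1) = 0) (h1 : ad K L (X i) ^ M ≠ 0) :
    ∃ e : L, e ≠ 0 ∧ ad K L e ^ 3 = 0 ∧
      ∀ z : L, ad K L e ^ 2 * (ad K L z ^ 2 * ad K L e ^ 2) ^ (2 ^ n) = 0 := by
  have hMN : M + 1 ≤ N := by
    by_contra h
    exact h1 (pow_eq_zero_of_le (by omega) (hX i))
  have hB2 : Big K (2 * N) := hB.mono (by omega)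
  have hBM : Big K (3 * M) := hB.mono (by omega)
  obtain ⟨c, hc⟩ : ∃ c, (ad K L (X i) ^ M) c ≠ 0 := by
    by_contra h
    push Not at h
    apply h1
    ext c
    rw [h c]
    rfl
  obtain ⟨g₁, hg₁⟩ : ∃ g : L, g = -(((M - 1).factorial : K)⁻¹) • c := ⟨_, rfl⟩
  obtain ⟨g₂, hg₂⟩ : ∃ g : L, g = if M = 2 then -((4 : K)⁻¹) • ⁅c, ⁅X i, c⁆⁆ else 0 := ⟨_, rfl⟩
  have hF : (ad K L (X i) ^ M) g₁ ≠ 0 := by
    rw [hg₁, map_smul]
    exact smul_ne_zero (neg_ne_zero.2 (inv_ne_zero (hB.fac _ (by omega)))) hc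
  have hlim : ∀ s : K, ERel K N n (fun i => ad K L (X i))
      (ad K L (X i + (s • (ad K L (X i) ^ M) g₁ + s ^ 2 • (ad K L (X i) ^ M) g₂))) := by
    intro s
    have h := (limit N hN hB2 n X hX i (hE i) M hM hMN h0 c (path_all N hN hB2 X hX hg c) s).2
    unfold lim at h
    rw [← hg₁, ← hg₂] at h
    exact h
  obtain ⟨δ, e, hδ1, he, hδ⟩ : ∃ (δ : ℕ) (e : L), 1 ≤ δ ∧ e ≠ 0 ∧
      ((δ = 1 ∧ (ad K L (X i) ^ M) g₂ = 0 ∧ e = (ad K L (X i) ^ M) g₁) ∨
        (δ = 2 ∧ e = (ad K L (X i) ^ M) g₂)) := by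
    by_cases h : (ad K L (X i) ^ M) g₂ = 0
    · exact ⟨1, (ad K L (X i) ^ M) g₁, le_rfl, hF, Or.inl ⟨rfl, h, rfl⟩⟩
    · exact ⟨2, (ad K L (X i) ^ M) g₂, by norm_num, h, Or.inr ⟨rfl, rfl⟩⟩
  obtain ⟨V, V', hV, hV', hd, hd', hT, hT'⟩ := vpoly N M hB2 hBM hM hMN (X i) h0 g₁ g₂ e δ hδ
  have hcube : ad K L e ^ 3 = 0 := by
    obtain ⟨g, hg'⟩ : ∃ g, e = (ad K L (X i) ^ M) g := by
      rcases hδ with h | h
      · exact ⟨g₁, h.2.2⟩
      · exact ⟨g₂, h.2⟩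
    rw [hg', pow_succ, pow_two]
    exact trick_cube (X i) M (by omega) hBM h0 g g g
  obtain ⟨T, hTd⟩ : ∃ T : Module.End K L, T = (2 : K)⁻¹ • ad K L e ^ 2 := ⟨_, rfl⟩
  rw [← hTd] at hT hT'
  -- the top coefficient
  have htop : ∀ l : List (ι × K), T * (pr K N (fun i => ad K L (X i)) (li l) * T *
      pr K N (fun i => ad K L (X i)) l * T) ^ (2 ^ (n - 1)) = 0 := by
    intro l
    refine top_coeff V V' T (2 * δ) (by omega) hd hd' hT hT' _ _ n hn ?_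
    rw [← sub_eq_zero]
    apply ev_inj (K := K)
    intro s
    have h2 := ws_map (ev K s) V V' (Polynomial.C (pr K N (fun i => ad K L (X i)) l))
      (Polynomial.C (pr K N (fun i => ad K L (X i)) (li l))) n
    have h3 := congrArg Prod.fst h2
    simp only at h3
    rw [map_sub, ← h3, ev_C, ev_C, hV, hV', hlim s l, sub_self]
  have hmid : ∀ g : L, T * ad K L g * T = 0 := by
    intro g
    rw [hTd]
    exact nl_low e _ (trick_mid e 2 (by norm_num) (hB.mono (by omega)) hcube g)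
  have hsq : T * 1 * T = 0 := by
    rw [hTd]
    refine nl_low e _ ?_
    rw [mul_one, ← pow_add]
    exact pow_eq_zero_of_le (by norm_num) hcube
  refine ⟨e, he, hcube, fun z => ?_⟩
  obtain ⟨l, m, P, P', hP, hP', hl, hl'⟩ := path_all N hN hB2 X hX hg z
  obtain ⟨Q, hQ⟩ := IsP.exists_poly P hP
  obtain ⟨Q', hQ'⟩ := IsP.exists_poly P' hP'
  obtain ⟨q, hq⟩ : ∃ q : Module.End K L, q = (2 : K)⁻¹ • ad K L z ^ 2 := ⟨_, rfl⟩
  have hevX : ∀ (t : K) (k : ℕ) (a : Module.End K L),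
      ev K t (Polynomial.C a * Polynomial.X ^ k) = t ^ k • a := by
    intro t k a
    rw [map_mul, map_pow, ev_C, ev_X, ← map_pow, Algebra.smul_def, Algebra.commutes]
  have hevQ : ∀ (t : K) (k : ℕ) (R : Polynomial (Module.End K L)),
      ev K t (R * Polynomial.X ^ k) = t ^ k • ev K t R := by
    intro t k R
    rw [map_mul, map_pow, ev_X, ← map_pow, Algebra.smul_def, Algebra.commutes]
  obtain ⟨Y, hY⟩ : ∃ Y : Polynomial (Module.End K L), Y = 1 + Polynomial.C (ad K L z) * Polynomial.X ^ 1 +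
      Polynomial.C (q + ad K L m) * Polynomial.X ^ 2 + Q * Polynomial.X ^ 3 := ⟨_, rfl⟩
  obtain ⟨Y', hY'⟩ : ∃ Y' : Polynomial (Module.End K L), Y' = 1 + Polynomial.C (-ad K L z) * Polynomial.X ^ 1 +
      Polynomial.C (q - ad K L m) * Polynomial.X ^ 2 + Q' * Polynomial.X ^ 3 := ⟨_, rfl⟩
  have hevY : ∀ t : K, ev K t Y = pr K N (fun i => ad K L (X i)) (l t) := by
    intro t
    rw [hl t, hY, map_add, map_add, map_add, map_one, hevX, hevX, hevQ, hQ, pow_one, hq]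
  have hevY' : ∀ t : K, ev K t Y' = pr K N (fun i => ad K L (X i)) (li (l t)) := by
    intro t
    rw [hl' t, hY', map_add, map_add, map_add, map_one, hevX, hevX, hevQ, hQ', pow_one, hq, smul_neg,
      ← sub_eq_add_neg]
  have hzero : Polynomial.C T * (Y' * Polynomial.C T * Y * Polynomial.C T) ^ (2 ^ (n - 1)) = 0 := by
    apply ev_inj (K := K)
    intro t
    rw [map_mul, map_pow, map_mul, map_mul, map_mul, ev_C, hevY, hevY']
    exact htop (l t)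
  have c0 : Y.coeff 0 = 1 := by
    rw [hY]
    simp [Polynomial.coeff_mul_X_pow', Polynomial.coeff_one]
  have c1 : Y.coeff 1 = ad K L z := by
    rw [hY]
    simp [Polynomial.coeff_mul_X_pow', Polynomial.coeff_one]
  have c2 : Y.coeff 2 = q + ad K L m := by
    rw [hY]
    simp [Polynomial.coeff_mul_X_pow', Polynomial.coeff_one, Polynomial.coeff_C, Polynomial.coeff_X]
  have c0' : Y'.coeff 0 = 1 := by
    rw [hY']
    simp [Polynomial.coeff_mul_X_pow', Polynomial.coeff_one]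
  have c1' : Y'.coeff 1 = -ad K L z := by
    rw [hY']
    simp [Polynomial.coeff_mul_X_pow', Polynomial.coeff_one]
  have c2' : Y'.coeff 2 = q - ad K L m := by
    rw [hY']
    simp [Polynomial.coeff_mul_X_pow', Polynomial.coeff_one, Polynomial.coeff_C, Polynomial.coeff_X]
  have hlow := low_coeff T q Y Y' (by rw [c0]; exact hsq) (by rw [c1]; exact hmid z)
    (by rw [c2, mul_add, add_mul, hmid m, add_zero]) (by rw [c0']; exact hsq)
    (by rw [c1', mul_neg, neg_mul, hmid z, neg_zero])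
    (by rw [c2', mul_sub, sub_mul, hmid m, sub_zero]) (2 ^ (n - 1)) hzero
  have e1 : 2 * 2 ^ (n - 1) = 2 ^ n := by
    obtain ⟨k, rfl⟩ : ∃ k, n = k + 1 := ⟨n - 1, by omega⟩
    rw [Nat.add_sub_cancel, pow_succ]
    ring
  rw [e1, hTd, hq, smul_mul_smul_comm, smul_pow, smul_mul_smul_comm] at hlow
  have hne : (2 : K)⁻¹ * ((2 : K)⁻¹ * (2 : K)⁻¹) ^ 2 ^ n ≠ 0 := by
    have h2 : (2 : K)⁻¹ ≠ 0 := inv_ne_zero (hB.two (by omega))
    exact mul_ne_zero h2 (pow_ne_zero _ (mul_ne_zero h2 h2))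
  exact (smul_eq_zero.1 hlow).resolve_left hne

end Pool.Agent.Helper28.TP
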