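import Pool.Agent.Helper40.TF.Zorn
import Pool.Agent.Helper40.TF.Transfer
import Pool.Agent.Helper28.TP.Nil
import Pool.Agent.Helper28.TP.JordanNil
import Pool.Agent.Helper28.TP.Endgame

/-!
PROJECT TP (MP_629dac_al), port of TF-16 to infinite fields with Big K (3 * (N - 1)), N at least 3. Lie algebras generated by finitely many Engel elements are nilpotent.

`jnn_false`: `L` not nilpotent, all proper quotients nilpotent (`hJ`). If `ad (X i) = 0` for all `i` then the centre contains all `X i`, `L` is abelian, `lowerCentralSeries K L L 1 = ⊥`: contradiction. Otherwise choose `i` with `ad (X i) ≠ 0` and `M ≥ 1` with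
`ad (X i) ^ M ≠ 0`, `ad (X i) ^ (M+1) = 0` (`Nat.find`, `hX`). `M = 1`: `w = X i ≠ 0`, `ad w * ad w = 0`. `M ≥ 2`: `nil_identity` and `sandwich_of_nil` give `w`. `endgame` gives `∃ k, lcs k = ⊥`, contradiction.
`lie_main`: by contradiction `exists_jnn` gives `I`; apply `jnn_false` to `L ⧸ I` and `X' i = mk (X i)`: generators (`LieSubalgebra.lieSpan` of the image: map of `⊤` under the surjection), powers (`pow_surj` for `P = mk`), Engel relation (`erel_surj`);
a nonzero ideal `J` of `L ⧸ I` has comap `> I`, so `lcs k ≤ comap J` and `lcs k (L ⧸ I) ≤ J` (`LieIdeal.map`/`lowerCentralSeries` of a quotient is the image: `LieIdeal.lowerCentralSeries_map_eq` or induction); `lcs k (L ⧸ I) = ⊥` would give `lcs k ≤ I`.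
-/

set_option autoImplicit false

namespace Pool.Agent.Helper28.TP

open LieAlgebra
open Pool.Agent.Helper40.TF (ex pr li ws ERel ev IsP Path lcs_of_words exists_jnn inter_prod pow_surj erel_surj)

private theorem lm_op_mem {K L ι : Type*} [Field K] [LieRing L] [LieAlgebra K L] (X : ι → L) (j : ι) :
    ∀ (k : ℕ) (w : List ι), w.length = k →
      Pool.Agent.Helper40.KZ.op (fun i => ad K L (X i)) w (X j) ∈ LieModule.lowerCentralSeries K L L k := by
  intro k
  induction k with
  | zero =>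
    intro w _
    rw [LieModule.lowerCentralSeries_zero]
    exact LieSubmodule.mem_top _
  | succ k ih =>
    intro w hw
    cases w with
    | nil => simp at hw
    | cons i w =>
      have h1 := ih w (by simpa using hw)
      rw [LieModule.lowerCentralSeries_succ]
      have h2 : Pool.Agent.Helper40.KZ.op (fun i => ad K L (X i)) (i :: w) (X j) =
          ⁅X i, Pool.Agent.Helper40.KZ.op (fun i => ad K L (X i)) w (X j)⁆ := by
        unfold Pool.Agent.Helper40.KZ.op
        rw [List.map_cons, List.prod_cons]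
        rfl
      rw [h2]
      exact LieSubmodule.lie_mem_lie (LieSubmodule.mem_top _) h1

theorem jnn_false {K L ι : Type*} [Field K] [Infinite K] [LieRing L] [LieAlgebra K L] [Finite ι] (N : ℕ) (hN : 3 ≤ N) (hB : Big K (3 * (N - 1)))
    (n : ℕ) (hn : 2 ≤ n) (X : ι → L) (hX : ∀ i, ad K L (X i) ^ N = 0)
    (hg : LieSubalgebra.lieSpan K L (Set.range X) = ⊤)
    (hE : ∀ i, ERel K N n (fun i => ad K L (X i)) (ad K L (X i)))
    (hL : ¬ ∃ k, LieModule.lowerCentralSeries K L L k = ⊥)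
    (hJ : ∀ J : LieIdeal K L, J ≠ ⊥ → ∃ k, LieModule.lowerCentralSeries K L L k ≤ J) : False := by
  have hlcs : ∃ i, ad K L (X i) ≠ 0 := by
    by_contra h
    push Not at h
    apply hL
    refine ⟨1, ?_⟩
    rw [eq_bot_iff]
    apply lcs_of_words X hg ⊥ 1
    intro w hw j
    match w, hw with
    | [i], _ =>
      have : Pool.Agent.Helper40.KZ.op (fun i => ad K L (X i)) [i] (X j) = 0 := by
        simp [Pool.Agent.Helper40.KZ.op, h i]
      rw [this]
      exact zero_mem _
  obtain ⟨i, hi⟩ := hlcs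
  obtain ⟨M, hM1, hM2⟩ : ∃ M, ad K L (X i) ^ M ≠ 0 ∧ ad K L (X i) ^ (M + 1) = 0 := by
    classical
    have hex : ∃ m, ad K L (X i) ^ m = 0 := ⟨N, hX i⟩
    have h0 : Nat.find hex ≠ 0 := by
      intro h
      have h1 := Nat.find_spec hex
      rw [h, pow_zero] at h1
      apply hi
      calc ad K L (X i) = ad K L (X i) * 1 := (mul_one _).symm
        _ = 0 := by rw [h1, mul_zero]
    obtain ⟨m, hm⟩ := Nat.exists_eq_succ_of_ne_zero h0
    refine ⟨m, Nat.find_min hex (by omega), ?_⟩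
    have h1 := Nat.find_spec hex
    rw [hm] at h1
    exact h1
  have hMne : M ≠ 0 := by
    intro h
    rw [h, zero_add, pow_one] at hM2
    exact hi hM2
  have hw : ∃ w : L, w ≠ 0 ∧ ad K L w * ad K L w = 0 := by
    by_cases h : M = 1
    · refine ⟨X i, fun h0 => hi (by rw [h0, map_zero]), ?_⟩
      rw [h] at hM2
      rw [← pow_two]
      exact hM2
    · obtain ⟨e, he, h3, hz⟩ := nil_identity N (by omega) hB n hn X hX hg hE i M (by omega) hM2 hM1
      haveI : Fact ((3 : K) ≠ 0) := ⟨hB.three (by omega)⟩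
      exact sandwich_of_nil e he h3 (2 ^ n) hz
  obtain ⟨w, hw1, hw2⟩ := hw
  exact hL (endgame N (by omega) (hB.mono (by omega)) X hX hg w hw1 hw2 hJ)

theorem lie_main {K L ι : Type*} [Field K] [Infinite K] [LieRing L] [LieAlgebra K L] [Finite ι] (N : ℕ) (hN : 3 ≤ N) (hB : Big K (3 * (N - 1)))
    (n : ℕ) (hn : 2 ≤ n) (X : ι → L) (hX : ∀ i, ad K L (X i) ^ N = 0)
    (hg : LieSubalgebra.lieSpan K L (Set.range X) = ⊤)
    (hE : ∀ i, ERel K N n (fun i => ad K L (X i)) (ad K L (X i))) :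
    ∃ k, LieModule.lowerCentralSeries K L L k = ⊥ := by
  by_contra hcon
  obtain ⟨I, hI1, hI2⟩ := exists_jnn X hg hcon
  obtain ⟨Q, hQ⟩ : ∃ Q : L →ₗ⁅K⁆ L ⧸ I, ∀ x, Q x = LieSubmodule.Quotient.mk x :=
    ⟨{ toLinearMap := (LieSubmodule.Quotient.mk' I : L →ₗ[K] L ⧸ I), map_lie' := rfl }, fun _ => rfl⟩
  have hQs : Function.Surjective Q := by
    intro y
    obtain ⟨x, hx⟩ := LieSubmodule.Quotient.surjective_mk' I y
    exact ⟨x, by rw [hQ]; exact hx⟩
  have hQ0 : ∀ x, Q x = 0 ↔ x ∈ I := by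
    intro x
    rw [hQ]
    exact LieSubmodule.Quotient.mk_eq_zero'
  have hcomm : ∀ x, (Q : L →ₗ[K] L ⧸ I) ∘ₗ ad K L x = ad K (L ⧸ I) (Q x) ∘ₗ (Q : L →ₗ[K] L ⧸ I) := by
    intro x
    ext y
    exact Q.map_lie x y
  have hop : ∀ (w : List ι) (j : ι), Q (Pool.Agent.Helper40.KZ.op (fun i => ad K L (X i)) w (X j)) =
      Pool.Agent.Helper40.KZ.op (fun i => ad K (L ⧸ I) (Q (X i))) w (Q (X j)) := by
    intro w j
    exact LinearMap.congr_fun (inter_prod (Q : L →ₗ[K] L ⧸ I) (fun i => ad K L (X i))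
      (fun i => ad K (L ⧸ I) (Q (X i))) (fun i => hcomm (X i)) w) (X j)
  have hg' : LieSubalgebra.lieSpan K (L ⧸ I) (Set.range fun i => Q (X i)) = ⊤ := by
    rw [eq_top_iff]
    intro y _
    obtain ⟨x, rfl⟩ := hQs y
    have h1 : LieSubalgebra.lieSpan K L (Set.range X) ≤
        (LieSubalgebra.lieSpan K (L ⧸ I) (Set.range fun i => Q (X i))).comap Q := by
      rw [LieSubalgebra.lieSpan_le]
      rintro _ ⟨i, rfl⟩
      exact LieSubalgebra.subset_lieSpan ⟨i, rfl⟩
    rw [hg] at h1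
    exact h1 (LieSubalgebra.mem_top x)
  refine jnn_false N hN hB n hn (fun i => Q (X i)) (fun i => ?_) hg' (fun i => ?_) ?_ ?_
  · exact pow_surj (Q : L →ₗ[K] L ⧸ I) hQs _ _ (hcomm (X i)) N (hX i)
  · exact erel_surj (Q : L →ₗ[K] L ⧸ I) hQs _ _ (fun i => hcomm (X i)) _ _ (hcomm (X i)) N n (hE i)
  · rintro ⟨k, hk⟩
    apply hI1
    refine ⟨k, lcs_of_words X hg I k fun w hw j => ?_⟩
    rw [← hQ0, hop]
    have h1 := lm_op_mem (K := K) (fun i => Q (X i)) j k w hw
    rw [hk, LieSubmodule.mem_bot] at h1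
    exact h1
  · intro J hJ
    have hlt : I < J.comap Q := by
      refine lt_of_le_of_ne ?_ ?_
      · intro x hx
        rw [LieIdeal.mem_comap, (hQ0 x).2 hx]
        exact zero_mem _
      · intro heq
        apply hJ
        rw [eq_bot_iff]
        intro y hy
        obtain ⟨x, rfl⟩ := hQs y
        rw [← LieIdeal.mem_comap, ← heq] at hy
        rw [LieSubmodule.mem_bot]
        exact (hQ0 x).2 hy
    obtain ⟨k, hk⟩ := hI2 _ hlt
    refine ⟨k, lcs_of_words (fun i => Q (X i)) hg' J k fun w hw j => ?_⟩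
    rw [← hop, ← LieIdeal.mem_comap]
    exact hk (lm_op_mem X j k w hw)

end Pool.Agent.Helper28.TP
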