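import Pool.Agent.Helper40.TF.Log

/-!
PROJECT TP (MP_629dac_al), port of TF-20 (the field is arbitrary): logarithms of unipotent elements.
-/

set_option autoImplicit false

namespace Pool.Agent.Helper28.TP

open Pool.Agent.Helper40.TF (ex ex_zero exists_log_poly)

open Polynomial Finset in
theorem exists_log {K A : Type*} [Field K] [Ring A] [Algebra K A] (n : ℕ) (hn : 1 ≤ n) (u : A)
    (hu : (u - 1) ^ n = 0) : ∃ T : A, T ^ n = 0 ∧ ex K n T = u := by
  rcases Nat.lt_or_ge n 2 with h | h
  · have hn1 : n = 1 := by omega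
    subst hn1
    rw [pow_one] at hu
    refine ⟨0, by simp, ?_⟩
    rw [ex_zero 1 le_rfl]
    exact (sub_eq_zero.1 hu).symm
  · obtain ⟨m, rfl⟩ := Nat.exists_eq_add_of_le' h
    obtain ⟨p, hp, hd⟩ := exists_log_poly (K := K) m (m + 1) le_rfl
    have hz : ∀ q : K[X], X ^ (m + 2) ∣ q → aeval (u - 1) q = 0 := by
      intro q hq
      obtain ⟨r, rfl⟩ := hq
      rw [map_mul, map_pow, aeval_X, hu, zero_mul]
    refine ⟨aeval (u - 1) p, ?_, ?_⟩
    · rw [← map_pow]
      exact hz _ (pow_dvd_pow_of_dvd hp _)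
    · have h1 : aeval (u - 1) (ex K (m + 2) p) = ex K (m + 2) (aeval (u - 1) p) := by
        unfold ex
        rw [map_sum]
        refine sum_congr rfl fun k _ => ?_
        rw [map_smul, map_pow]
      have h2 := hz _ hd
      rw [map_sub, h1, map_add, map_one, aeval_X, sub_eq_zero] at h2
      rw [h2]
      abel

end Pool.Agent.Helper28.TP
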