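import Pool.Agent.Helper40.TF.Exp

/-!
PROJECT TP (MP_629dac_al), port of TF-23 (the field is arbitrary). Unipotency of the whole group.

Let `J k` be the span of all `(w.map T).prod` with `k ≤ w.length`. `J k * J l ⊆ J (k + l)`, `J m = 0` for the `m` of the hypothesis (a longer word has a prefix of length `m`).
`ρ g - 1 ∈ J 1` for all `g`: closure induction: `ρ (x i) - 1 = ∑_{1 ≤ k < N} T_i^k / k!`, `ρ (x i)⁻¹ - 1 = ex K N (-T i) - 1` (inverse by `ex_mul_neg`), `ρ (g h) - 1 = (ρ g - 1)(ρ h - 1) + (ρ g - 1) + (ρ h - 1)`. (For inverses in `Subgroup.closure_induction`: from `ρ g - 1 ∈ J 1` get `ρ g⁻¹ - 1 ∈ J 1` :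
`ρ g⁻¹ - 1 = -(ρ g - 1) ρ g⁻¹`; easier: `ρ g⁻¹ = ∑_{j < m} (1 - ρ g)^j` since `(1 - ρ g)^m = 0`.) Then a product of `m` factors is in `J m = 0`.
-/

set_option autoImplicit false

namespace Pool.Agent.Helper28.TP

open Pool.Agent.Helper40.TF (ex)

private def J (K : Type*) {A ι : Type*} [Field K] [Ring A] [Algebra K A] (T : ι → A) (k : ℕ) : Submodule K A :=
  Submodule.span K {a | ∃ w : List ι, k ≤ w.length ∧ a = (w.map T).prod}

section

variable {K A ι : Type*} [Field K] [Ring A] [Algebra K A] (T : ι → A)

private theorem mem_J {k : ℕ} (w : List ι) (h : k ≤ w.length) : (w.map T).prod ∈ J K T k :=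
  Submodule.subset_span ⟨w, h, rfl⟩

private theorem J_anti {k l : ℕ} (h : k ≤ l) : J K T l ≤ J K T k := by
  apply Submodule.span_mono
  rintro a ⟨w, hw, rfl⟩
  exact ⟨w, h.trans hw, rfl⟩

private theorem J_mul {k l : ℕ} {a b : A} (ha : a ∈ J K T k) (hb : b ∈ J K T l) : a * b ∈ J K T (k + l) := by
  induction ha using Submodule.span_induction with
  | mem a ha =>
    obtain ⟨w, hw, rfl⟩ := ha
    induction hb using Submodule.span_induction with
    | mem b hb =>
      obtain ⟨v, hv, rfl⟩ := hb
      rw [← List.prod_append, ← List.map_append]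
      exact mem_J T _ (by rw [List.length_append]; omega)
    | zero => rw [mul_zero]; exact zero_mem _
    | add x y _ _ hx hy => rw [mul_add]; exact add_mem hx hy
    | smul c x _ hx => rw [mul_smul_comm]; exact Submodule.smul_mem _ c hx
  | zero => rw [zero_mul]; exact zero_mem _
  | add x y _ _ hx hy => rw [add_mul]; exact add_mem hx hy
  | smul c x _ hx => rw [smul_mul_assoc]; exact Submodule.smul_mem _ c hx

private theorem J_pow {a : A} (ha : a ∈ J K T 1) (n : ℕ) : a ^ n ∈ J K T n := by
  induction n with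
  | zero =>
    rw [pow_zero]
    have := mem_J (K := K) T (k := 0) [] (Nat.zero_le _)
    simpa using this
  | succ n ih =>
    rw [pow_succ]
    exact J_mul T ih ha

private theorem J_zero {m : ℕ} (h : ∀ l : List ι, l.length = m → (l.map T).prod = 0) {a : A} (ha : a ∈ J K T m) : a = 0 := by
  have h1 : J K T m ≤ ⊥ := by
    apply Submodule.span_le.2
    rintro a ⟨w, hw, rfl⟩
    have h2 := h (w.take m) (by rw [List.length_take]; omega)
    have h3 : (w.map T).prod = ((w.take m).map T).prod * ((w.drop m).map T).prod := by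
      rw [← List.prod_append, ← List.map_append, List.take_append_drop]
    rw [h3, h2, zero_mul]
    exact zero_mem _
  exact (Submodule.mem_bot K).1 (h1 ha)

end

theorem uni_prod {K A ι G : Type*} [Field K] [Ring A] [Algebra K A] [Group G] (N m : ℕ) (hN : 1 ≤ N)
    (hm : 1 ≤ m) (T : ι → A) (hT : ∀ i, T i ^ N = 0) (x : ι → G) (hx : Subgroup.closure (Set.range x) = ⊤) (ρ : G →* A)
    (hρ : ∀ i, ρ (x i) = ex K N (T i)) (h : ∀ l : List ι, l.length = m → (l.map T).prod = 0) (l : List G)
    (hl : l.length = m) : (l.map fun g => ρ g - 1).prod = 0 := by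
  classical
  have hg : ∀ g : G, ρ g - 1 ∈ J K T 1 := by
    intro g
    have hgm : g ∈ Subgroup.closure (Set.range x) := by rw [hx]; exact Subgroup.mem_top g
    induction hgm using Subgroup.closure_induction with
    | mem g hg =>
      obtain ⟨i, rfl⟩ := hg
      obtain ⟨N', rfl⟩ := Nat.exists_eq_add_of_le' hN
      rw [hρ i, ex, Finset.sum_range_succ']
      simp only [Nat.factorial_zero, Nat.cast_one, inv_one, pow_zero, one_smul, add_sub_cancel_right]
      apply Submodule.sum_mem
      intro k _
      apply Submodule.smul_mem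
      have h1 := mem_J (K := K) T (k := 1) (List.replicate (k + 1) i) (by rw [List.length_replicate]; omega)
      rwa [List.map_replicate, List.prod_replicate] at h1
    | one => rw [map_one, sub_self]; exact zero_mem _
    | mul a b _ _ ha hb =>
      have h1 : ρ (a * b) - 1 = (ρ a - 1) * (ρ b - 1) + (ρ a - 1) + (ρ b - 1) := by
        rw [map_mul]
        noncomm_ring
      rw [h1]
      exact add_mem (add_mem (J_anti T (by omega) (J_mul T ha hb)) ha) hb
    | inv a _ ha =>
      have h1 : (1 - ρ a) ∈ J K T 1 := by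
        have := neg_mem ha
        rwa [neg_sub] at this
      have h2 : (1 - ρ a) ^ m = 0 := J_zero T h (J_pow T h1 m)
      have h3 := mul_geom_sum (1 - ρ a) m
      rw [h2] at h3
      have h4 : ρ a * ∑ i ∈ Finset.range m, (1 - ρ a) ^ i = 1 := by
        have h5 : (1 - ρ a - 1) = - ρ a := by abel
        rw [h5, neg_mul, zero_sub, neg_inj] at h3
        exact h3
      have h5 : ρ a⁻¹ = ∑ i ∈ Finset.range m, (1 - ρ a) ^ i := by
        calc ρ a⁻¹ = ρ a⁻¹ * (ρ a * ∑ i ∈ Finset.range m, (1 - ρ a) ^ i) := by rw [h4, mul_one]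
          _ = _ := by rw [← mul_assoc, ← map_mul, inv_mul_cancel, map_one, one_mul]
      obtain ⟨m', rfl⟩ := Nat.exists_eq_add_of_le' hm
      rw [h5, Finset.sum_range_succ', pow_zero, add_sub_cancel_right]
      apply Submodule.sum_mem
      intro k _
      exact J_anti T (by omega) (J_pow T h1 (k + 1))
  have hl' : ∀ l : List G, (l.map fun g => ρ g - 1).prod ∈ J K T l.length := by
    intro l
    induction l with
    | nil =>
      have := mem_J (K := K) T (k := 0) [] (Nat.zero_le _)
      simpa using this
    | cons g l ih =>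
      rw [List.map_cons, List.prod_cons, List.length_cons, Nat.add_comm]
      exact J_mul T (hg g) ih
  have h1 := hl' l
  rw [hl] at h1
  exact J_zero T h h1

end Pool.Agent.Helper28.TP
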