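import Pool.Agent.Helper28.TP.AssocMain
import Pool.Agent.Helper28.TP.GrpRel
import Pool.Agent.Helper28.TP.UniGrp
import Pool.Agent.Helper28.TP.Log

/-!
PROJECT TP (MP_629dac_al): the linear theorem. A group generated by finitely many left `n`-Engel elements acting unipotently on a vector space over an infinite field
whose characteristic is `0` or larger than `(n - 1) * max (2 ^ (n - 1)) 8` acts nilpotently.
-/

set_option autoImplicit false

namespace Pool.Agent.Helper28.TP

open Pool.Agent.Helper40.TF (ex pr li ws ERel)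

/-- The bound for the small primes. -/
def PP (n : ℕ) : ℕ := (n - 1) * max (2 ^ (n - 1)) 8

theorem lin_main {K A ι G : Type*} [Field K] [Infinite K] [Ring A] [Algebra K A] [Finite ι] [Group G] (n : ℕ)
    (hn : 2 ≤ n) (hB : Big K (PP n)) (x : ι → G) (hx : Subgroup.closure (Set.range x) = ⊤)
    (hE : ∀ i, ∀ y : G, (fun y : G => y⁻¹ * (x i)⁻¹ * y * x i)^[n] y = 1) (ρ : G →* A)
    (hρ : ∀ i, (ρ (x i) - 1) ^ n = 0) : ∃ m, ∀ l : List G, l.length = m → (l.map fun g => ρ g - 1).prod = 0 := by
  choose T hTn hTe using fun i => exists_log (K := K) n (by omega) (ρ (x i)) (hρ i)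
  have h2 : 2 ^ (n - 1) * (n - 1) ≤ PP n := by
    unfold PP
    rw [Nat.mul_comm]
    exact Nat.mul_le_mul_left _ (le_max_left _ _)
  have h8 : (n - 1) * 8 ≤ PP n := Nat.mul_le_mul_left _ (le_max_right _ _)
  have hER : ∀ i, ERel K n n T (T i) :=
    erel_of_group n n (by omega) (by omega) (hB.mono (by omega)) (hB.mono h2) T hTn x ρ (fun i => (hTe i).symm) hE
  obtain ⟨k, hk⟩ := assoc_main2 n n hn (hB.mono (by omega)) (hB.mono (by omega)) hn T hTn hER
  refine ⟨k + 1, fun l hl => ?_⟩
  refine uni_prod n (k + 1) (by omega) (by omega) T hTn x hx ρ (fun i => (hTe i).symm) ?_ l hl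
  intro w hw
  cases w with
  | nil => simp at hw
  | cons a w =>
    rw [List.map_cons, List.prod_cons, hk w (by simpa using hw), mul_zero]

end Pool.Agent.Helper28.TP
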