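import Pool.Agent.Helper28.TP.ZornMod
import Pool.Agent.Helper28.TP.LinMain
import Pool.Agent.Helper28.TP.CharPRep
import Pool.Agent.Helper40.TF.RatRep

/-!
PROJECT TP (MP_629dac_al): the theorem for abelian groups without small torsion.
-/

set_option autoImplicit false

namespace Pool.Agent.Helper28.TP

private theorem prod_hom {H A B : Type*} [Group H] [Ring A] [Ring B] (F : A →+* B) (ρ : H →* A) (ρ' : H →* B)
    (h : ∀ g, F (ρ g) = ρ' g) (l : List H) : F ((l.map fun g => ρ g - 1).prod) = (l.map fun g => ρ' g - 1).prod := by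
  rw [map_list_prod, List.map_map]
  congr 1
  apply List.map_congr_left
  intro g _
  change F (ρ g - 1) = ρ' g - 1
  rw [map_sub, map_one, h]

/-- transport of `lin_main` along an injective ring homomorphism -/
private theorem lin_transport {H ι K : Type} {A : Type*} [Group H] [Finite ι] [Field K] [Infinite K] (n : ℕ) (hn : 2 ≤ n)
    (hB : Big K (PP n)) (x : ι → H) (hx : Subgroup.closure (Set.range x) = ⊤)
    (hE : ∀ i, ∀ y : H, (fun y : H => y⁻¹ * (x i)⁻¹ * y * x i)^[n] y = 1) (V' : Type) [AddCommGroup V'] [Module K V']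
    [Ring A] (Φ : A →+* Module.End K V') (hΦ : Function.Injective Φ) (ρ : H →* A)
    (hρ : ∀ i, (ρ (x i) - 1) ^ n = 0) : ∃ m, ∀ l : List H, l.length = m → (l.map fun g => ρ g - 1).prod = 0 := by
  obtain ⟨m, hm⟩ := lin_main (K := K) n hn hB x hx hE ((Φ : A →* Module.End K V').comp ρ) (fun i => by
    change (Φ (ρ (x i)) - 1) ^ n = 0
    rw [← map_one Φ, ← map_sub, ← map_pow, hρ i, map_zero])
  refine ⟨m, fun l hl => hΦ ?_⟩
  rw [map_zero, ← hm l hl]
  exact prod_hom Φ ρ _ (fun g => rfl) l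

theorem mod_main {H ι : Type} [Group H] [Finite ι] (n : ℕ) (hn : 2 ≤ n) (x : ι → H)
    (hx : Subgroup.closure (Set.range x) = ⊤)
    (hE : ∀ i, ∀ y : H, (fun y : H => y⁻¹ * (x i)⁻¹ * y * x i)^[n] y = 1) (V : Type) [AddCommGroup V]
    (hV : ∀ p : ℕ, p.Prime → p ≤ PP n → ∀ s : V, p • s = 0 → s = 0) (ρ : H →* Module.End ℤ V)
    (hρ : ∀ i, (ρ (x i) - 1) ^ n = 0) (v : V) :
    ∃ m, ∀ l : List H, l.length = m → (l.map fun g => ρ g - 1).prod v = 0 := by
  by_contra hcon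
  push Not at hcon
  obtain ⟨F, hF⟩ : ∃ F : MonoidAlgebra ℤ H →+* Module.End ℤ V, ∀ g, F (MonoidAlgebra.of ℤ H g) = ρ g :=
    ⟨(MonoidAlgebra.lift ℤ (Module.End ℤ V) H ρ).toRingHom, fun g => by
      change MonoidAlgebra.lift ℤ (Module.End ℤ V) H ρ (MonoidAlgebra.of ℤ H g) = ρ g
      rw [MonoidAlgebra.lift_of]⟩
  obtain ⟨σ, hσ⟩ : ∃ σ : H →* MonoidAlgebra ℤ H, σ = MonoidAlgebra.of ℤ H := ⟨_, rfl⟩
  rw [← hσ] at hF
  let _ : Module (MonoidAlgebra ℤ H) V := Module.compHom V F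
  have hact : ∀ (r : MonoidAlgebra ℤ H) (t : V), r • t = F r t := fun r t => rfl
  obtain ⟨Y, hY1, hY2⟩ : ∃ Y : ι × Bool → MonoidAlgebra ℤ H, (∀ i, Y (i, true) = σ (x i) - 1) ∧
      (∀ i, Y (i, false) = σ (x i)⁻¹ - 1) :=
    ⟨fun k => σ (if k.2 = true then x k.1 else (x k.1)⁻¹) - 1, fun i => by simp, fun i => by simp⟩
  have hg : ∀ g, σ g - 1 ∈ JJ Y 1 := JJ_group σ x hx Y hY1 hY2
  have hY : ∀ r : MonoidAlgebra ℤ H, r ∈ JJ Y 0 := by
    intro r
    induction r using MonoidAlgebra.induction_on with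
    | of g =>
      rw [← hσ]
      have h1 := add_mem (JJ_anti Y (Nat.zero_le 1) (hg g)) (one_mem_JJ Y)
      rwa [sub_add_cancel] at h1
    | add f g hf hg' => exact add_mem hf hg'
    | smul c f hf => exact (JJ Y 0).zsmul_mem hf c
  have hnn : ∀ m, ∃ w : List (ι × Bool), w.length = m ∧ (w.map Y).prod • v ≠ 0 := by
    intro m
    by_contra h
    push Not at h
    obtain ⟨l, hl, hl'⟩ := hcon m
    apply hl'
    have h1 := JJ_list Y σ hg l
    rw [hl] at h1
    have h2 := JJ_kill Y (⊥ : Submodule (MonoidAlgebra ℤ H) V) v m (fun w hw => by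
      rw [h w hw]; exact zero_mem _) _ h1
    rw [Submodule.mem_bot, hact, prod_hom F σ ρ hF l] at h2
    exact h2
  obtain ⟨S, iS, iM, s, hS1, hS2, hS3⟩ := exists_jnn Y hY (PP n) V hV v hnn
  obtain ⟨G, hG⟩ : ∃ G : MonoidAlgebra ℤ H →+* Module.End ℤ S, ∀ r t, G r t = r • t :=
    ⟨Module.toModuleEnd ℤ S, fun r t => rfl⟩
  have hS4 : ∀ i, ((G : MonoidAlgebra ℤ H →* Module.End ℤ S).comp σ (x i) - 1) ^ n = 0 := by
    intro i
    change (G (σ (x i)) - 1) ^ n = 0
    rw [← map_one G, ← map_sub, ← map_pow]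
    ext t
    rw [hG]
    refine hS1 _ (fun u => ?_) t
    rw [hact, map_pow, map_sub, map_one, hF, hρ i]
    rfl
  have hfin : ∃ m, ∀ l : List H, l.length = m →
      (l.map fun g => (G : MonoidAlgebra ℤ H →* Module.End ℤ S).comp σ g - 1).prod = 0 := by
    rcases hS3 with ⟨q, hq, hqB, hq0⟩ | htf
    · haveI : Fact q.Prime := ⟨hq⟩
      obtain ⟨K, iK, iI, iC, V', iV, iV', Φ, hΦ⟩ := exists_charp q S hq0
      exact lin_transport n hn (Big.charP q (PP n) hqB) x hx hE V' Φ hΦ _ hS4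
    · obtain ⟨V', iV, iV', Φ, hΦ⟩ := Pool.Agent.Helper40.TF.exists_rat S htf
      exact lin_transport n hn (Big.charZero (PP n)) x hx hE V' Φ hΦ _ hS4
  obtain ⟨m, hm⟩ := hfin
  obtain ⟨w, hw, hw'⟩ := hS2 m
  apply hw'
  have h1 := hm (w.map fun k => if k.2 = true then x k.1 else (x k.1)⁻¹) (by rw [List.length_map, hw])
  have h2 : (w.map Y).prod = ((w.map fun k => if k.2 = true then x k.1 else (x k.1)⁻¹).map fun g => σ g - 1).prod := by
    rw [List.map_map]
    congr 1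
    apply List.map_congr_left
    rintro ⟨i, b⟩ _
    cases b
    · rw [hY2]; rfl
    · rw [hY1]; rfl
  have h3 := prod_hom G σ ((G : MonoidAlgebra ℤ H →* Module.End ℤ S).comp σ) (fun g => rfl)
    (w.map fun k => if k.2 = true then x k.1 else (x k.1)⁻¹)
  rw [h1, ← h2] at h3
  rw [← hG, h3]
  rfl

end Pool.Agent.Helper28.TP
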