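import Pool.Agent.Helper28.TP.Bound
import Pool.Agent.Helper40.TF.ActClass
import Pool.Agent.Helper40.TF.PiTors
import Pool.Agent.Helper45.Eng.Uniform

/-!
PROJECT TP (MP_629dac_al): the main theorem. Nilpotent groups without elements of prime order `≤ (n - 1) * max (2 ^ (n - 1)) 8`, generated by `d` left `n`-Engel elements,
have class bounded in terms of `n` and `d`.

The proof of `tp_bound` follows TF-29 (helper40): `A` a maximal abelian normal subgroup, `C_G(A) = A`; `mod_bound` for the action of `G` on `A`.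
-/

set_option autoImplicit false

namespace Pool.Agent.Helper28.TP

open Pool.Agent.Helper40.TF (cm upper_of_act exists_piTors)

open scoped commutatorElement

open Pool.Agent.Helper45.Eng in
theorem tp_bound (n d : ℕ) (hn : 2 ≤ n) : ∃ c : ℕ, ∀ (G : Type) [Group G] [Group.IsNilpotent G] (x : Fin d → G),
    Subgroup.closure (Set.range x) = ⊤ →
    (∀ i, ∀ z : G, (fun z : G => z⁻¹ * (x i)⁻¹ * z * x i)^[n] z = 1) →
    (∀ p : ℕ, p.Prime → p ≤ PP n → ∀ z : G, z ^ p = 1 → z = 1) → Group.nilpotencyClass G ≤ c := by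
  obtain ⟨k, hk⟩ := mod_bound n d hn
  refine ⟨2 * (k + 1) - 1, ?_⟩
  intro G _ _ x hx hE htf
  obtain ⟨A, hAn, hAc, hAs⟩ := exists_self_centralizing (G := G)
  let _ : CommGroup A :=
    { (inferInstance : Group A) with
      mul_comm := fun a b => Subtype.ext (hAc a a.2 b b.2) }
  let R : G →* Module.End ℤ (Additive A) :=
    { toFun := fun g =>
        { toFun := fun a => Additive.ofMul (MulAut.conjNormal g (Additive.toMul a) : A)
          map_add' := fun a b => by
            change Additive.ofMul (MulAut.conjNormal g (Additive.toMul a * Additive.toMul b : A)) = _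
            rw [map_mul]; rfl
          map_smul' := fun k a => by
            change Additive.ofMul (MulAut.conjNormal g ((Additive.toMul a : A) ^ k)) =
              Additive.ofMul ((MulAut.conjNormal g (Additive.toMul a : A)) ^ k)
            rw [map_zpow] }
      map_one' := by
        ext a
        change ((MulAut.conjNormal (1 : G) (Additive.toMul a) : A) : G) = _
        simp
      map_mul' := fun g h => by
        ext a
        change ((MulAut.conjNormal (g * h) (Additive.toMul a) : A) : G) = _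
        rw [map_mul]; rfl }
  -- one application of `R g - 1`
  have hone : ∀ (g : G) (a : A), ∃ h : ⁅g, (a : G)⁆ ∈ A,
      (R g - 1) (Additive.ofMul a) = Additive.ofMul (⟨⁅g, (a : G)⁆, h⟩ : A) := by
    intro g a
    have h1 : ⁅g, (a : G)⁆ = ((MulAut.conjNormal g a : A) : G) * (a : G)⁻¹ := by
      rw [MulAut.conjNormal_apply, commutatorElement_def]
    have h : ⁅g, (a : G)⁆ ∈ A := by
      rw [h1]; exact A.mul_mem (MulAut.conjNormal g a : A).2 (A.inv_mem a.2)
    refine ⟨h, ?_⟩
    have h2 : (⟨⁅g, (a : G)⁆, h⟩ : A) = (MulAut.conjNormal g a : A) * a⁻¹ := Subtype.ext h1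
    rw [h2]
    change Additive.ofMul (MulAut.conjNormal g a : A) - Additive.ofMul a = _
    rw [ofMul_mul, ofMul_inv, sub_eq_add_neg]
  have hcm : ∀ (l : List G) (a : A), ∃ h : cm l (a : G) ∈ A,
      ((l.map fun g => R g - 1).prod) (Additive.ofMul a) = Additive.ofMul (⟨cm l (a : G), h⟩ : A) := by
    intro l
    induction l with
    | nil => intro a; exact ⟨a.2, rfl⟩
    | cons g l ih =>
      intro a
      obtain ⟨h, h'⟩ := ih a
      obtain ⟨h1, h1'⟩ := hone g ⟨cm l (a : G), h⟩
      refine ⟨h1, ?_⟩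
      rw [List.map_cons, List.prod_cons, Module.End.mul_apply, h', h1']
      rfl
  -- the Engel iterates
  have hit : ∀ (i : Fin d) (j : ℕ) (a : A), ∃ h : (fun z : G => z⁻¹ * (x i)⁻¹ * z * x i)^[j] (a : G) ∈ A,
      ((R (x i)⁻¹ - 1) ^ j) (Additive.ofMul a) =
        Additive.ofMul (⟨(fun z : G => z⁻¹ * (x i)⁻¹ * z * x i)^[j] (a : G), h⟩ : A) := by
    intro i j
    induction j with
    | zero => intro a; exact ⟨a.2, rfl⟩
    | succ j ih =>
      intro a
      obtain ⟨h, h'⟩ := ih a
      obtain ⟨h1, h1'⟩ := hone (x i)⁻¹ ⟨_, h⟩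
      have h2 : (fun z : G => z⁻¹ * (x i)⁻¹ * z * x i)^[j + 1] (a : G) =
          ⁅(x i)⁻¹, (fun z : G => z⁻¹ * (x i)⁻¹ * z * x i)^[j] (a : G)⁆ := by
        rw [Function.iterate_succ_apply', commutatorElement_def, inv_inv]
        set z := (fun z : G => z⁻¹ * (x i)⁻¹ * z * x i)^[j] (a : G) with hz
        have hcz : (x i)⁻¹ * z * x i ∈ A := by
          have := hAn.conj_mem z h (x i)⁻¹
          rwa [inv_inv] at this
        have h3 := hAc z⁻¹ (A.inv_mem h) _ hcz
        calc z⁻¹ * (x i)⁻¹ * z * x i = z⁻¹ * ((x i)⁻¹ * z * x i) := by group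
          _ = (x i)⁻¹ * z * x i * z⁻¹ := h3
      refine ⟨by rw [h2]; exact h1, ?_⟩
      rw [pow_succ', Module.End.mul_apply, h', h1']
      exact congrArg Additive.ofMul (Subtype.ext h2.symm)
  have hRinv : ∀ i, (R (x i)⁻¹ - 1) ^ n = 0 := by
    intro i
    ext a
    obtain ⟨h, h'⟩ := hit i n (Additive.toMul a)
    have h2 : (⟨(fun z : G => z⁻¹ * (x i)⁻¹ * z * x i)^[n] ((Additive.toMul a : A) : G), h⟩ : A) = 1 :=
      Subtype.ext (hE i _)
    rw [h2] at h'
    have h3 : ((R (x i)⁻¹ - 1) ^ n) a = 0 := h'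
    rw [h3]; rfl
  have hRn : ∀ i, (R (x i) - 1) ^ n = 0 := by
    intro i
    have h1 : R (x i) * R (x i)⁻¹ = 1 := by rw [← map_mul, mul_inv_cancel, map_one]
    have h1' : R (x i)⁻¹ * R (x i) = 1 := by rw [← map_mul, inv_mul_cancel, map_one]
    have h2 : R (x i) - 1 = -(R (x i) * (R (x i)⁻¹ - 1)) := by
      rw [mul_sub, h1, mul_one]; abel
    have h3 : Commute (R (x i)) (R (x i)⁻¹ - 1) := by
      change R (x i) * (R (x i)⁻¹ - 1) = (R (x i)⁻¹ - 1) * R (x i)
      rw [mul_sub, sub_mul, h1, h1', mul_one, one_mul]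
    rw [h2, neg_pow, h3.mul_pow, hRinv i, mul_zero, mul_zero]
  have hR : ∀ l : List G, l.length = k + 1 → (l.map fun g => R g - 1).prod = 0 := by
    intro l hl
    cases l with
    | nil => simp at hl
    | cons a l =>
      rw [List.map_cons, List.prod_cons, hk G x hx hE (Additive A) (by
        intro p hp hpB b hb
        have h1 : (Additive.toMul b : A) ^ p = 1 := hb
        have h2 : ((Additive.toMul b : A) : G) ^ p = 1 := by
          have := congrArg (fun t : A => (t : G)) h1
          simpa using this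
        have h3 := htf p hp hpB _ h2
        have h4 : (Additive.toMul b : A) = 1 := Subtype.ext h3
        exact h4) R hRn l (by simpa using hl), mul_zero]
  have hfin := upper_of_act A hAn hAc hAs (k + 1) (by omega) (by
    intro l hl a ha
    obtain ⟨h, h'⟩ := hcm l ⟨a, ha⟩
    rw [hR l hl] at h'
    have h2 : (⟨cm l a, h⟩ : A) = 1 := by
      have h3 : Additive.ofMul (⟨cm l a, h⟩ : A) = Additive.ofMul (1 : A) := h'.symm
      exact h3
    exact congrArg (fun t : A => (t : G)) h2)
  exact Subgroup.upperCentralSeries_eq_top_iff_nilpotencyClass_le.mp hfin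

end Pool.Agent.Helper28.TP
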