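import Pool.Agent.Helper28.TP.JJ

/-!
PROJECT TP (MP_629dac_al): just non-nilpotent subquotients.

`R` is a ring generated by the finitely many elements `Y i` (`hY : ∀ r, r ∈ JJ Y 0`), `V` an `R`-module without elements of prime order `≤ B`, `v` an element of
`V` which is not killed by the words of length `m`, for any `m`. A submodule `W` is `B`-isolated if `p • s ∈ W` implies `s ∈ W` for all primes `p ≤ B`. By Zorn there is
in the isolated hull of `v` a maximal isolated submodule `W` such that for no `m` the words of length `m` send `v` into `W`. For a prime `q > B` the submodules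
`W + q V` and `{s : q s ∈ W}` are isolated, hence `q V ≤ W` or `V / W` has no `q`-torsion.
-/

set_option autoImplicit false

namespace Pool.Agent.Helper28.TP

/-- `B`-isolated submodules. -/
def Isol {R V : Type*} [Ring R] [AddCommGroup V] [Module R V] (B : ℕ) (W : Submodule R V) : Prop :=
  ∀ p : ℕ, p.Prime → p ≤ B → ∀ s : V, p • s ∈ W → s ∈ W

theorem exists_max {R V κ : Type*} [Ring R] [AddCommGroup V] [Module R V] [Finite κ] (Y : κ → R) (B : ℕ) (v : V)
    (h0 : Isol B (⊥ : Submodule R V)) (hnn : ∀ m, ∃ w : List κ, w.length = m ∧ (w.map Y).prod • v ≠ 0) :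
    ∃ W : Submodule R V, Isol B W ∧ (∀ m, ∃ w : List κ, w.length = m ∧ (w.map Y).prod • v ∉ W) ∧
      ∀ W' : Submodule R V, W < W' → Isol B W' → ∃ m, ∀ w : List κ, w.length = m → (w.map Y).prod • v ∈ W' := by
  classical
  obtain ⟨W, -, hW⟩ := zorn_le_nonempty₀
    {W : Submodule R V | Isol B W ∧ ∀ m, ∃ w : List κ, w.length = m ∧ (w.map Y).prod • v ∉ W} (by
      intro c hc hchain y hy
      have hmem : ∀ z : V, z ∈ sSup c ↔ ∃ W ∈ c, z ∈ W := fun z =>
        Submodule.mem_sSup_of_directed ⟨y, hy⟩ hchain.directedOn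
      refine ⟨sSup c, ⟨?_, ?_⟩, fun z hz => le_sSup hz⟩
      · intro p hp hpB s hs
        obtain ⟨W, hW, hs'⟩ := (hmem _).1 hs
        exact (hmem _).2 ⟨W, hW, (hc hW).1 p hp hpB s hs'⟩
      · intro m
        by_contra hcon
        push Not at hcon
        -- finitely many words
        have hfin : {w : List κ | w.length = m}.Finite := List.finite_length_eq κ m
        have key : ∀ T : Set (List κ), T.Finite → (∀ w ∈ T, (w.map Y).prod • v ∈ sSup c) →
            ∃ W ∈ c, ∀ w ∈ T, (w.map Y).prod • v ∈ W := by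
          intro T hT
          induction T, hT using Set.Finite.induction_on with
          | empty => exact fun _ => ⟨y, hy, fun w hw => hw.elim⟩
          | insert _ _ ih =>
            intro h
            obtain ⟨W₁, hW₁, h1⟩ := ih fun w hw => h w (Set.mem_insert_of_mem _ hw)
            obtain ⟨W₂, hW₂, h2⟩ := (hmem _).1 (h _ (Set.mem_insert _ _))
            rcases hchain.total hW₁ hW₂ with h12 | h12
            · refine ⟨W₂, hW₂, fun w hw => ?_⟩
              rcases Set.mem_insert_iff.1 hw with rfl | hw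
              · exact h2
              · exact h12 (h1 w hw)
            · refine ⟨W₁, hW₁, fun w hw => ?_⟩
              rcases Set.mem_insert_iff.1 hw with rfl | hw
              · exact h12 h2
              · exact h1 w hw
        obtain ⟨W, hW, h1⟩ := key _ hfin (fun w hw => hcon w hw)
        obtain ⟨w, hw1, hw2⟩ := (hc hW).2 m
        exact hw2 (h1 w hw1)) ⊥ ⟨h0, by simpa using hnn⟩
  refine ⟨W, hW.1.1, hW.1.2, fun W' hlt hI => ?_⟩
  by_contra hcon
  push Not at hcon
  exact not_lt_of_ge (hW.2 ⟨hI, hcon⟩ hlt.le) hlt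

theorem dichotomy {R V κ : Type*} [Ring R] [AddCommGroup V] [Module R V] (Y : κ → R) (hY : ∀ r : R, r ∈ JJ Y 0)
    (B : ℕ) (v : V) (hgen : ∀ W : Submodule R V, Isol B W → v ∈ W → W = ⊤) (W : Submodule R V) (hW : Isol B W)
    (hn : ∀ m, ∃ w : List κ, w.length = m ∧ (w.map Y).prod • v ∉ W)
    (hmax : ∀ W' : Submodule R V, W < W' → Isol B W' → ∃ m, ∀ w : List κ, w.length = m → (w.map Y).prod • v ∈ W')
    (q : ℕ) (hq : q.Prime) (hqB : B < q) : (∀ s : V, q • s ∈ W) ∨ (∀ s : V, q • s ∈ W → s ∈ W) := by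
  by_contra hcon
  push Not at hcon
  obtain ⟨⟨s₁, hs₁⟩, s₂, hs₂, hs₂'⟩ := hcon
  -- the two larger submodules
  obtain ⟨W₂, hW₂⟩ : ∃ W₂ : Submodule R V, ∀ s, s ∈ W₂ ↔ q • s ∈ W :=
    ⟨{ carrier := {s | q • s ∈ W}
       zero_mem' := by simp
       add_mem' := fun {a b} ha hb => by
         change q • (a + b) ∈ W
         rw [smul_add]; exact add_mem ha hb
       smul_mem' := fun r a ha => by
         change q • (r • a) ∈ W
         rw [smul_comm]; exact W.smul_mem r ha }, fun s => Iff.rfl⟩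
  obtain ⟨W₁, hW₁⟩ : ∃ W₁ : Submodule R V, ∀ s, s ∈ W₁ ↔ ∃ t, s - q • t ∈ W :=
    ⟨{ carrier := {s | ∃ t, s - q • t ∈ W}
       zero_mem' := ⟨0, by simp⟩
       add_mem' := fun {a b} ha hb => by
         obtain ⟨t, ht⟩ := ha
         obtain ⟨u, hu⟩ := hb
         refine ⟨t + u, ?_⟩
         have h1 : a + b - q • (t + u) = (a - q • t) + (b - q • u) := by rw [smul_add]; abel
         rw [h1]; exact add_mem ht hu
       smul_mem' := fun r a ha => by
         obtain ⟨t, ht⟩ := ha
         refine ⟨r • t, ?_⟩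
         rw [smul_comm q r t, ← smul_sub]
         exact W.smul_mem r ht }, fun s => Iff.rfl⟩
  have hI₂ : Isol B W₂ := by
    intro p hp hpB s hs
    rw [hW₂] at hs ⊢
    refine hW p hp hpB _ ?_
    rw [smul_comm]
    exact hs
  have hI₁ : Isol B W₁ := by
    intro p hp hpB s hs
    rw [hW₁] at hs ⊢
    obtain ⟨t, ht⟩ := hs
    have hcop : Nat.Coprime p q := (Nat.coprime_primes hp hq).2 (by omega)
    have hbz := Nat.gcd_eq_gcd_ab p q
    rw [hcop.gcd_eq_one] at hbz
    refine ⟨(p.gcdA q) • t + (p.gcdB q) • s, ?_⟩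
    have h1 : s = (p.gcdA q) • ((p : ℤ) • s) + (q : ℤ) • ((p.gcdB q) • s) := by
      calc s = (1 : ℤ) • s := (one_smul _ _).symm
        _ = ((p : ℤ) * p.gcdA q + (q : ℤ) * p.gcdB q) • s := by rw [← hbz, Nat.cast_one]
        _ = _ := by rw [add_smul, mul_smul, mul_smul, smul_comm (p : ℤ)]
    have h2 : s - q • ((p.gcdA q) • t + (p.gcdB q) • s) = (p.gcdA q) • ((p • s) - q • t) := by
      have h3 : (p.gcdA q) • ((p • s) - q • t) = (p.gcdA q) • ((p : ℤ) • s) - (q : ℤ) • ((p.gcdA q) • t) := by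
        rw [smul_sub, natCast_zsmul, smul_comm (q : ℤ), natCast_zsmul]
      rw [h3]
      conv_lhs => rw [← natCast_zsmul (_ : V) q, smul_add]
      nth_rewrite 1 [h1]
      abel
    rw [h2]
    exact W.toAddSubgroup.zsmul_mem ht _
  have hlt₂ : W < W₂ := by
    refine lt_of_le_of_ne (fun s hs => (hW₂ s).2 ?_) ?_
    · exact nsmul_mem hs q
    · rintro rfl
      exact hs₂' ((hW₂ s₂).2 hs₂)
  have hlt₁ : W < W₁ := by
    refine lt_of_le_of_ne (fun s hs => (hW₁ s).2 ⟨0, by simpa using hs⟩) ?_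
    rintro rfl
    exact hs₁ ((hW₁ _).2 ⟨s₁, by simp⟩)
  obtain ⟨a, ha⟩ := hmax W₁ hlt₁ hI₁
  obtain ⟨b, hb⟩ := hmax W₂ hlt₂ hI₂
  -- the words of length `b` send all of `V` to `W₂`
  have hU : ∀ s : V, ∀ r ∈ JJ Y b, r • s ∈ W₂ := by
    obtain ⟨U, hUd⟩ : ∃ U : Submodule R V, ∀ s, s ∈ U ↔ ∀ r ∈ JJ Y b, r • s ∈ W₂ :=
      ⟨{ carrier := {s | ∀ r ∈ JJ Y b, r • s ∈ W₂}
         zero_mem' := fun r _ => by rw [smul_zero]; exact zero_mem _
         add_mem' := fun {x y} hx hy r hr => by rw [smul_add]; exact add_mem (hx r hr) (hy r hr)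
         smul_mem' := fun c x hx r hr => by
           have hrc : r * c ∈ JJ Y b := by
             have h6 := JJ_mul Y hr (hY c)
             rwa [Nat.add_zero] at h6
           rw [← mul_smul]
           exact hx (r * c) hrc }, fun s => Iff.rfl⟩
    have hUI : Isol B U := by
      intro p hp hpB s hs
      rw [hUd] at hs ⊢
      intro r hr
      refine hI₂ p hp hpB _ ?_
      rw [smul_comm]
      exact hs r hr
    have hvU : v ∈ U := (hUd v).2 fun r hr => JJ_kill Y W₂ v b hb r hr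
    intro s
    have h1 : s ∈ U := by
      rw [hgen U hUI hvU]
      exact Submodule.mem_top
    exact (hUd s).1 h1
  obtain ⟨w, hw1, hw2⟩ := hn (b + a)
  apply hw2
  have h3 : (w.map Y).prod = ((w.take b).map Y).prod * ((w.drop b).map Y).prod := by
    rw [← List.prod_append, ← List.map_append, List.take_append_drop]
  have h4 := ha (w.drop b) (by rw [List.length_drop]; omega)
  rw [hW₁] at h4
  obtain ⟨t, ht⟩ := h4
  rw [h3, mul_smul]
  have h5 : ((w.drop b).map Y).prod • v = (((w.drop b).map Y).prod • v - q • t) + q • t := by abel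
  rw [h5, smul_add, smul_comm _ q t]
  refine add_mem (W.smul_mem _ ht) ((hW₂ _).1 (hU t _ (mem_JJ Y _ ?_)))
  rw [List.length_take]
  omega

theorem exists_jnn {R κ : Type*} [Ring R] [Finite κ] (Y : κ → R) (hY : ∀ r : R, r ∈ JJ Y 0) (B : ℕ)
    (V : Type) [AddCommGroup V] [Module R V] (hV : ∀ p : ℕ, p.Prime → p ≤ B → ∀ s : V, p • s = 0 → s = 0) (v : V)
    (hnn : ∀ m, ∃ w : List κ, w.length = m ∧ (w.map Y).prod • v ≠ 0) :
    ∃ (S : Type) (_ : AddCommGroup S) (_ : Module R S) (s : S),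
      (∀ a : R, (∀ t : V, a • t = 0) → ∀ t : S, a • t = 0) ∧
      (∀ m, ∃ w : List κ, w.length = m ∧ (w.map Y).prod • s ≠ 0) ∧
      ((∃ q : ℕ, q.Prime ∧ B < q ∧ ∀ t : S, q • t = 0) ∨ (∀ (k : ℕ) (t : S), 0 < k → k • t = 0 → t = 0)) := by
  -- the isolated hull of `v`
  obtain ⟨V₁, hV₁⟩ : ∃ V₁ : Submodule R V, V₁ = sInf {W : Submodule R V | Isol B W ∧ v ∈ W} := ⟨_, rfl⟩
  have hI : Isol B V₁ := by
    intro p hp hpB s hs
    rw [hV₁, Submodule.mem_sInf] at hs ⊢
    intro W hW
    exact hW.1 p hp hpB s (hs W hW)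
  have hv : v ∈ V₁ := by
    rw [hV₁, Submodule.mem_sInf]
    exact fun W hW => hW.2
  have hmin : ∀ W : Submodule R V, Isol B W → v ∈ W → V₁ ≤ W := by
    intro W h1 h2
    rw [hV₁]
    exact sInf_le ⟨h1, h2⟩
  have h0 : Isol B (⊥ : Submodule R V₁) := by
    intro p hp hpB s hs
    rw [Submodule.mem_bot] at hs ⊢
    apply Subtype.ext
    refine hV p hp hpB _ ?_
    have := congrArg Subtype.val hs
    simpa using this
  have hnn' : ∀ m, ∃ w : List κ, w.length = m ∧ (w.map Y).prod • (⟨v, hv⟩ : V₁) ≠ 0 := by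
    intro m
    obtain ⟨w, hw, hw'⟩ := hnn m
    refine ⟨w, hw, fun h => hw' ?_⟩
    exact congrArg Subtype.val h
  obtain ⟨W, hWI, hWn, hWm⟩ := exists_max Y B (⟨v, hv⟩ : V₁) h0 hnn'
  have hgen : ∀ W : Submodule R V₁, Isol B W → (⟨v, hv⟩ : V₁) ∈ W → W = ⊤ := by
    intro U hU hvU
    rw [eq_top_iff]
    rintro ⟨s, hs⟩ -
    have h1 : V₁ ≤ U.map V₁.subtype := by
      apply hmin
      · intro p hp hpB t ht
        obtain ⟨u, hu, hut⟩ := ht
        have htV : t ∈ V₁ := by
          refine hI p hp hpB t ?_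
          rw [← hut]
          exact u.2
        refine ⟨⟨t, htV⟩, hU p hp hpB _ ?_, rfl⟩
        have h2 : p • (⟨t, htV⟩ : V₁) = u := Subtype.ext hut.symm
        rw [h2]
        exact hu
      · exact ⟨⟨v, hv⟩, hvU, rfl⟩
    obtain ⟨u, hu, hus⟩ := h1 hs
    have h2 : (⟨s, hs⟩ : V₁) = u := Subtype.ext hus.symm
    rw [h2]
    exact hu
  have hmk : ∀ (k : ℕ) (t : V₁), k • (Submodule.Quotient.mk t : V₁ ⧸ W) = 0 ↔ k • t ∈ W := by
    intro k t
    rw [← Submodule.Quotient.mk_eq_zero W]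
    rfl
  refine ⟨V₁ ⧸ W, inferInstance, inferInstance, Submodule.Quotient.mk ⟨v, hv⟩, ?_, ?_, ?_⟩
  · intro a ha t
    obtain ⟨u, rfl⟩ := Submodule.Quotient.mk_surjective W t
    have h1 : a • u = 0 := Subtype.ext (ha u)
    rw [← Submodule.Quotient.mk_smul, h1, Submodule.Quotient.mk_zero]
  · intro m
    obtain ⟨w, hw, hw'⟩ := hWn m
    refine ⟨w, hw, fun h => hw' ?_⟩
    rw [← Submodule.Quotient.mk_smul, Submodule.Quotient.mk_eq_zero] at h
    exact h
  · by_cases hex : ∃ q : ℕ, q.Prime ∧ B < q ∧ ∀ t : V₁, q • t ∈ W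
    · obtain ⟨q, hq, hqB, h⟩ := hex
      refine Or.inl ⟨q, hq, hqB, fun t => ?_⟩
      obtain ⟨u, rfl⟩ := Submodule.Quotient.mk_surjective W t
      exact (hmk q u).2 (h u)
    · push Not at hex
      right
      have hp : ∀ p : ℕ, p.Prime → ∀ t : V₁, p • t ∈ W → t ∈ W := by
        intro p hp t ht
        rcases Nat.lt_or_ge B p with h | h
        · rcases dichotomy Y hY B (⟨v, hv⟩ : V₁) hgen W hWI hWn hWm p hp h with h1 | h1
          · obtain ⟨u, hu⟩ := hex p hp h
            exact absurd (h1 u) hu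
          · exact h1 t ht
        · exact hWI p hp h t ht
      have hk : ∀ k : ℕ, 0 < k → ∀ t : V₁, k • t ∈ W → t ∈ W := by
        intro k
        induction k using Nat.recOnMul with
        | zero => intro h; exact absurd h (lt_irrefl 0)
        | one => intro _ t ht; rwa [one_smul] at ht
        | prime p hpp => intro _ t ht; exact hp p hpp t ht
        | mul a b ha hb =>
          intro h t ht
          rw [mul_smul] at ht
          exact hb (Nat.pos_of_mul_pos_left h) t (ha (Nat.pos_of_mul_pos_right h) _ ht)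
      intro k t hk0 hkt
      obtain ⟨u, rfl⟩ := Submodule.Quotient.mk_surjective W t
      rw [Submodule.Quotient.mk_eq_zero]
      exact hk k hk0 u ((hmk k u).1 hkt)

end Pool.Agent.Helper28.TP
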